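import Pool.Agent.L0h34.CW.REL

/-! Project CW: in an expansive component the class of a derived word depends on the nonterminal
only. -/

set_option autoImplicit false

namespace Pool.Agent.L0h34.CW

open MulOpposite

section
variable {A G : Type} [Group G] {g : BG A} {f : A → G}

/-- Two words derived from the same nonterminal of an expansive component. -/
theorem cls_aux {B C : g.N} (hE : Expv g B) (hBC : Rch g B C) (hCB : Rch g C B)
    {b b' : List A} (hb : Dv g C b) (hb' : Dv g C b') :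
    ev f b * (ev f b')⁻¹ ∈ N1 (HB g f C) := by
  obtain ⟨C1, D, E, hp, h0, h1, h2⟩ := hE
  obtain ⟨a0, z0, h0⟩ := hCB.trans h0
  obtain ⟨a1, z1, h1⟩ := h1.trans hBC
  obtain ⟨a2, z2, h2⟩ := h2.trans hBC
  -- the first link
  have l1 : Lk g C C (a0 ++ a1) ((z1 ++ (a2 ++ b ++ z2)) ++ z0) :=
    h0.trans (Lk.left hp h1 (h2.dv hb))
  have hα : ev f (a0 ++ a1) ∈ U1 (HB g f C) :=
    mem_U1.2 ⟨_, Subgroup.subset_closure ⟨_, _, l1, rfl⟩⟩
  -- the second link
  have l2 : ∀ {w : List A}, Dv g C w → Lk g C C (a0 ++ ((a1 ++ w ++ z1) ++ a2)) (z2 ++ z0) :=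
    fun hw => h0.trans (Lk.right hp (h1.dv hw) h2)
  have h3 := link_ratio (f := f) (Rch.refl C) (l2 hb) (l2 hb')
  rw [inv_mul_cancel, op_one] at h3
  have h4 : ev f (a0 ++ a1) * (ev f b * (ev f b')⁻¹) * (ev f (a0 ++ a1))⁻¹ ∈ N1 (HB g f C) := by
    rw [mem_N1]
    have e : ev f (a0 ++ a1) * (ev f b * (ev f b')⁻¹) * (ev f (a0 ++ a1))⁻¹ =
        ev f (a0 ++ ((a1 ++ b ++ z1) ++ a2)) * (ev f (a0 ++ ((a1 ++ b' ++ z1) ++ a2)))⁻¹ := by
      simp only [ev_append]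
      group
    rw [e]
    exact h3
  have h5 := (normIn1 (HB g f C)).2 _ ((U1 (HB g f C)).inv_mem hα) _ h4
  have e : (ev f (a0 ++ a1))⁻¹ * (ev f (a0 ++ a1) * (ev f b * (ev f b')⁻¹) *
      (ev f (a0 ++ a1))⁻¹) * (ev f (a0 ++ a1))⁻¹⁻¹ = ev f b * (ev f b')⁻¹ := by group
  rwa [e] at h5

/-- Transport from `C` to `B`. -/
theorem N1_conj (hG : Tors G) {B C : g.N} (hCB : Rch g C B) {u v : List A} (h : Lk g B C u v)
    {n : G} (hn : n ∈ N1 (HB g f C)) : ev f u * n * (ev f u)⁻¹ ∈ N1 (HB g f B) := by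
  rw [mem_N1, mem_HB hG] at hn
  obtain ⟨n1, n2, hl, hn⟩ := hn
  rw [Prod.mk.injEq] at hn
  obtain ⟨hn1, hn2⟩ := hn
  have hn2 : ev f n2 = 1 := by
    have := congrArg MulOpposite.unop hn2
    simpa using this.symm
  have h3 := link_ratio (f := f) hCB (h.trans hl) h
  rw [ev_append, ev_append, hn2, one_mul, inv_mul_cancel, op_one, ← hn1] at h3
  exact h3

end

/-- **CLS** -/
theorem cls' : S_CLS := by
  classical
  intro A G _ hG g f B hE
  refine ⟨fun C => if h : ∃ w, Dv g C w then ev f h.choose else 1, ?_⟩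
  intro C u v b hr hl hb
  have hw : ∃ w, Dv g C w := ⟨b, hb⟩
  show ev f u * (if h : ∃ w, Dv g C w then ev f h.choose else 1) * (ev f (u ++ b))⁻¹ ∈ _
  rw [dif_pos hw]
  have h1 := N1_conj hG hr hl (cls_aux (f := f) hE ⟨u, v, hl⟩ hr hw.choose_spec hb)
  have e : ev f u * ev f hw.choose * (ev f (u ++ b))⁻¹ =
      ev f u * (ev f hw.choose * (ev f b)⁻¹) * (ev f u)⁻¹ := by
    rw [ev_append]
    group
  rwa [e]

theorem cls (_ : S_REL) : S_CLS := cls'

end Pool.Agent.L0h34.CW
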