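import Pool.Agent.L0h34.CW.Basics

/-! Project CW, module CORE (helper71): words all of whose short factors are geodesic modulo `Y`. -/

set_option autoImplicit false

namespace Pool.Agent.L0h34.CW

namespace Cor

variable {A G : Type} [Group G] {f : A → G} {Δ : Finset (List A)} {Y : Subgroup G}

/-- geodesic lists of letters -/
def Gc (f : A → G) (Δ : Finset (List A)) (Y : Subgroup G) (l : List {d // d ∈ Δ}) : Prop :=
  Geo f Δ Y (l.map Subtype.val)

lemma mem_map_val {l : List {d // d ∈ Δ}} {d : List A} (h : d ∈ l.map Subtype.val) : d ∈ Δ := by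
  rw [List.mem_map] at h
  obtain ⟨x, _, rfl⟩ := h
  exact x.2

lemma star_val (l : List {d // d ∈ Δ}) : Star Δ (l.map Subtype.val).flatten :=
  ⟨_, fun _ hd => mem_map_val hd, rfl⟩

lemma Gc_factor (hN : NormC Y (Gp f Δ) 1) {a m b : List {d // d ∈ Δ}}
    (h : Gc f Δ Y (a ++ m ++ b)) : Gc f Δ Y m := by
  intro l' hl' he
  rw [rc_eq] at he
  have h1 := h (a.map Subtype.val ++ l' ++ b.map Subtype.val) (by
      intro d hd
      rw [List.mem_append, List.mem_append] at hd
      rcases hd with (hd | hd) | hd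
      · exact mem_map_val hd
      · exact hl' d hd
      · exact mem_map_val hd) (by
      rw [rc_eq]
      have h2 := hN (ev f (a.map Subtype.val).flatten) (star_val a).mem_Gp _ he
      simp only [List.map_append, List.flatten_append, ev_append]
      have h3 : ev f (a.map Subtype.val).flatten * ev f l'.flatten * ev f (b.map Subtype.val).flatten *
          (ev f (a.map Subtype.val).flatten * ev f (m.map Subtype.val).flatten *
            ev f (b.map Subtype.val).flatten)⁻¹ =
          (1 * ev f (a.map Subtype.val).flatten * 1⁻¹) *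
            (ev f l'.flatten * (ev f (m.map Subtype.val).flatten)⁻¹) *
            (1 * ev f (a.map Subtype.val).flatten * 1⁻¹)⁻¹ := by group
      rw [h3]
      exact h2)
  simp only [List.map_append, List.length_append, List.length_map] at h1 ⊢
  omega

lemma Gc_ends (hN : NormC Y (Gp f Δ) 1) {a m : List {d // d ∈ Δ}}
    (h : Gc f Δ Y (a ++ m)) : Gc f Δ Y m :=
  Gc_factor hN (b := []) (by rw [List.append_nil]; exact h)

lemma Gc_starts (hN : NormC Y (Gp f Δ) 1) {m b : List {d // d ∈ Δ}}
    (h : Gc f Δ Y (m ++ b)) : Gc f Δ Y m :=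
  Gc_factor hN (a := []) (by rw [List.nil_append]; exact h)

/-- the states -/
def Q (f : A → G) (Δ : Finset (List A)) (Y : Subgroup G) (R : ℕ) : Type :=
  {q : List {d // d ∈ Δ} // q.length = R ∧ Gc f Δ Y q}

instance (R : ℕ) : Finite (Q f Δ Y R) := by
  unfold Q
  have h1 : ({q : List {d // d ∈ Δ} | q.length = R}).Finite := List.finite_length_eq _ R
  exact (h1.subset fun q hq => hq.1 : ({q : List {d // d ∈ Δ} | q.length = R ∧ Gc f Δ Y q}).Finite)

/-- the steps -/
def stp (f : A → G) (Δ : Finset (List A)) (Y : Subgroup G) (R : ℕ) (q : Q f Δ Y R)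
    (x : {d // d ∈ Δ}) (q' : Q f Δ Y R) : Prop := q'.1 = (q.1 ++ [x]).drop 1

lemma pth_win {R : ℕ} {q q' : Q f Δ Y R} {w : List {d // d ∈ Δ}}
    (h : Pth (stp f Δ Y R) q w q') : ∀ a m b, q.1 ++ w = a ++ m ++ b → m.length = R →
    Gc f Δ Y m := by
  induction h with
  | nil q =>
    intro a m b he hm
    rw [List.append_nil] at he
    have h1 : a = [] ∧ b = [] := by
      have h2 := congrArg List.length he
      simp only [List.length_append] at h2
      have h3 := q.2.1
      constructor
      · exact List.length_eq_zero_iff.mp (by omega)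
      · exact List.length_eq_zero_iff.mp (by omega)
    rw [h1.1, h1.2, List.nil_append, List.append_nil] at he
    rw [← he]
    exact q.2.2
  | @cons q q₁ q₂ x w hs _ ih =>
    intro a m b he hm
    cases a with
    | nil =>
      have h1 : m = q.1 := by
        have h2 := congrArg (List.take R) he
        rw [List.nil_append] at h2
        rw [List.take_append_of_le_length (by rw [q.2.1]),
          List.take_append_of_le_length (by rw [hm]),
          List.take_of_length_le (by rw [q.2.1]), List.take_of_length_le (by rw [hm])] at h2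
        exact h2.symm
      rw [h1]
      exact q.2.2
    | cons a0 a' =>
      apply ih a' m b _ hm
      unfold stp at hs
      rw [hs]
      have h2 := congrArg (List.drop 1) he
      have h3 : q.1 ++ x :: w = (q.1 ++ [x]) ++ w := by simp
      rw [h3, List.drop_append_of_le_length (by simp)] at h2
      rw [h2]
      simp

lemma exists_pth (hN : NormC Y (Gp f Δ) 1) {R : ℕ} : ∀ (m : List {d // d ∈ Δ}) (q : Q f Δ Y R),
    Gc f Δ Y (q.1 ++ m) → ∃ q', Pth (stp f Δ Y R) q m q' := by
  intro m
  induction m with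
  | nil =>
    intro q _
    exact ⟨q, Pth.nil q⟩
  | cons x m ih =>
    intro q hq
    have h3 : q.1 ++ x :: m = (q.1 ++ [x]) ++ m := by simp
    have h4 : (q.1 ++ [x]) = (q.1 ++ [x]).take 1 ++ (q.1 ++ [x]).drop 1 :=
      (List.take_append_drop 1 _).symm
    rw [h3] at hq
    have h5 : Gc f Δ Y ((q.1 ++ [x]).drop 1) := by
      have h6 := Gc_starts hN hq
      rw [h4] at h6
      exact Gc_ends hN h6
    have h7 : Gc f Δ Y ((q.1 ++ [x]).drop 1 ++ m) := by
      rw [h4, List.append_assoc] at hq
      exact Gc_ends hN hq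
    obtain ⟨q₁, hq₁⟩ : ∃ q₁ : Q f Δ Y R, q₁.1 = (q.1 ++ [x]).drop 1 := ⟨⟨(q.1 ++ [x]).drop 1, by
      rw [List.length_drop, List.length_append, q.2.1]; simp, h5⟩, rfl⟩
    rw [← hq₁] at h7
    obtain ⟨q', hq'⟩ := ih q₁ h7
    exact ⟨q', Pth.cons hq₁ hq'⟩

lemma pth_append {Q A : Type} {step : Q → A → Q → Prop} {q q' q'' : Q} {u v : List A}
    (h : Pth step q u q') (h' : Pth step q' v q'') : Pth step q (u ++ v) q'' := by
  induction h with
  | nil q => exact h'
  | cons hs _ ih => exact Pth.cons hs (ih h')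

lemma pth_flatten {Q A : Type} {step : Q → A → Q → Prop} {q : Q} (L : List (List A))
    (h : ∀ l ∈ L, Pth step q l q) : Pth step q L.flatten q := by
  induction L with
  | nil => exact Pth.nil q
  | cons l L ih =>
    rw [List.flatten_cons]
    exact pth_append (h l (by simp)) (ih fun l' hl' => h l' (by simp [hl']))

/-- all the short factors of a loop are geodesic -/
lemma loop_geo (hN : NormC Y (Gp f Δ) 1) {R : ℕ} {q q' : Q f Δ Y R} {l : List {d // d ∈ Δ}}
    (h : Pth (stp f Δ Y R) q l q') {a m b : List {d // d ∈ Δ}} (he : l = a ++ m ++ b)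
    (hm : m.length ≤ R) : Gc f Δ Y m := by
  have h1 : q.1 ++ l = (q.1 ++ a ++ m).take ((q.1 ++ a ++ m).length - R) ++
      (q.1 ++ a ++ m).drop ((q.1 ++ a ++ m).length - R) ++ b := by
    rw [List.take_append_drop, he]
    simp
  have h2 : R ≤ (q.1 ++ a ++ m).length := by
    rw [List.length_append, List.length_append, q.2.1]
    omega
  have h3 := pth_win h _ _ _ h1 (by rw [List.length_drop]; omega)
  have h4 : (q.1 ++ a ++ m).drop ((q.1 ++ a ++ m).length - R) =
      (q.1 ++ a).drop ((q.1 ++ a ++ m).length - R) ++ m := by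
    rw [List.drop_append_of_le_length]
    rw [List.length_append (as := q.1 ++ a)]
    omega
  rw [h4] at h3
  exact Gc_ends hN h3

/-- long geodesics -/
lemma exists_geo (hG : Tors G) (hN : NormC Y (Gp f Δ) 1) (hI : ¬ FinOrb Y (Gp f Δ) 1) (n : ℕ) :
    ∃ l : List {d // d ∈ Δ}, l.length = n ∧ Gc f Δ Y l := by
  have hfin : ({c : Set G | ∃ l : List {d // d ∈ Δ}, l.length < n ∧
      c = rc Y (ev f (l.map Subtype.val).flatten)}).Finite := by
    have h1 : ({l : List {d // d ∈ Δ} | l.length < n}).Finite := List.finite_length_lt _ n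
    refine (h1.image fun l => rc Y (ev f (l.map Subtype.val).flatten)).subset ?_
    rintro c ⟨l, hl, rfl⟩
    exact ⟨l, hl, rfl⟩
  have h2 : ({c : Set G | ∃ h ∈ Gp f Δ, c = rc Y (1 * h)}).Infinite := hI
  obtain ⟨c, ⟨h, hh, hc⟩, hc'⟩ := h2.exists_notMem_finite hfin
  obtain ⟨w, ⟨lw, hlw, hlw'⟩, hw⟩ := exists_word hG hh
  -- lists with this coset
  have hex : ∃ k : ℕ, ∃ l : List {d // d ∈ Δ}, l.length = k ∧
      rc Y (ev f (l.map Subtype.val).flatten) = c := by
    refine ⟨_, lw.attachWith (fun d => d ∈ Δ) hlw, rfl, ?_⟩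
    have h5 : (lw.attachWith (fun d => d ∈ Δ) hlw).map Subtype.val = lw :=
      List.attachWith_map_subtype_val hlw
    rw [h5, hlw', hw, hc, one_mul]
  classical
  obtain ⟨l, hl, hlc⟩ := Nat.find_spec hex
  have hgeo : Gc f Δ Y l := by
    intro l' hl' he
    have h6 := Nat.find_min' hex ⟨l'.attachWith (fun d => d ∈ Δ) hl', rfl, by
      rw [List.attachWith_map_subtype_val hl', he, hlc]⟩
    rw [List.length_attachWith] at h6
    rw [List.length_map, hl]
    exact h6
  have hlen : n ≤ l.length := by
    by_contra hcon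
    exact hc' ⟨l, by omega, hlc.symm⟩
  refine ⟨l.take n, by rw [List.length_take]; omega, ?_⟩
  rw [← List.take_append_drop n l] at hgeo
  exact Gc_starts hN hgeo

lemma Gc_length {l l' : List {d // d ∈ Δ}} (h : Gc f Δ Y l) (h' : Gc f Δ Y l')
    (he : rc Y (ev f (l.map Subtype.val).flatten) = rc Y (ev f (l'.map Subtype.val).flatten)) :
    l.length = l'.length := by
  have h1 := h (l'.map Subtype.val) (fun d hd => mem_map_val hd) he.symm
  have h2 := h' (l.map Subtype.val) (fun d hd => mem_map_val hd) he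
  simp only [List.length_map] at h1 h2
  omega

end Cor

open Cor in
/-- CORE -/
theorem core (hL : S_LOOP) : S_CORE := by
  intro A G _ hG f Y Δ hΔ hN hI R
  classical
  have hH : Gp f Δ ≤ Subgroup.normalizer (Y : Set G) := by
    have key : ∀ h ∈ Gp f Δ, ∀ n ∈ Y, h * n * h⁻¹ ∈ Y := by
      intro h hh n hn
      have := hN h hh n hn
      simpa using this
    intro h hh
    rw [Subgroup.mem_normalizer_iff]
    intro n
    constructor
    · exact key h hh n
    · intro hn
      have := key h⁻¹ (Subgroup.inv_mem _ hh) _ hn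
      have h2 : h⁻¹ * (h * n * h⁻¹) * h⁻¹⁻¹ = n := by group
      rw [h2] at this
      exact this
  set K := Subgroup.normalizer (Y : Set G) ⧸ Y.subgroupOf (Subgroup.normalizer (Y : Set G)) with hK
  have hmk : ∀ x y : Subgroup.normalizer (Y : Set G), (QuotientGroup.mk x : K) = QuotientGroup.mk y ↔
      rc Y x.1 = rc Y y.1 := by
    intro x y
    rw [rc_eq, QuotientGroup.eq_iff_div_mem, Subgroup.mem_subgroupOf]
    rw [div_eq_mul_inv]
    rfl
  let ψ : {d // d ∈ Δ} → K := fun d =>
    QuotientGroup.mk ⟨ev f d.1, hH (Star.of_mem d.2).mem_Gp⟩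
  have hψ : ∀ l : List {d // d ∈ Δ}, (l.map ψ).prod =
      (QuotientGroup.mk ⟨ev f (l.map Subtype.val).flatten, hH (star_val l).mem_Gp⟩ : K) := by
    intro l
    induction l with
    | nil => rfl
    | cons x l ih =>
      rw [List.map_cons, List.prod_cons, ih, ← QuotientGroup.mk_mul]
      congr 1
      apply Subtype.ext
      simp
  -- infinitely many values
  have hinf : {k | ∃ q w q', Pth (stp f Δ Y R) q w q' ∧ k = (w.map ψ).prod}.Infinite := by
    have h1 : ∀ n : ℕ, ∃ (q : Q f Δ Y R) (w : List {d // d ∈ Δ}) (q' : Q f Δ Y R),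
        Pth (stp f Δ Y R) q w q' ∧ w.length = n ∧ Gc f Δ Y w := by
      intro n
      obtain ⟨l, hl, hgl⟩ := exists_geo hG hN hI (R + n)
      have h2 := hgl
      rw [← List.take_append_drop R l] at h2
      obtain ⟨q', hq'⟩ := exists_pth hN (l.drop R)
        (⟨l.take R, by rw [List.length_take]; omega, Gc_starts hN h2⟩ : Q f Δ Y R) h2
      exact ⟨_, _, q', hq', by rw [List.length_drop]; omega, Gc_ends hN h2⟩
    choose q w q' hp hlen hgl using h1
    refine Set.infinite_of_injective_forall_mem (f := fun n => ((w n).map ψ).prod) ?_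
      (fun n => ⟨q n, w n, q' n, hp n, rfl⟩)
    intro n n' he
    have h2 : ((w n).map ψ).prod = ((w n').map ψ).prod := he
    rw [hψ, hψ, hmk] at h2
    have h3 := Gc_length (hgl n) (hgl n') h2
    rw [hlen, hlen] at h3
    exact h3
  obtain ⟨q, Λ, hΛ, hcl⟩ := hL (Q f Δ Y R) {d // d ∈ Δ} K (stp f Δ Y R) ψ hinf
  set Δ' : Finset (List A) := (Λ.filter fun l => l ≠ []).image
    fun l => (l.map Subtype.val).flatten with hΔ'
  refine ⟨Δ', ⟨?_, ?_⟩, ?_, ?_⟩
  · intro d hd
    rw [hΔ', Finset.mem_image] at hd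
    obtain ⟨l, hl, rfl⟩ := hd
    rw [Finset.mem_filter] at hl
    intro he
    rw [List.flatten_eq_nil_iff] at he
    obtain ⟨x, l', hxl⟩ := List.exists_cons_of_ne_nil hl.2
    have h1 := he x.1 (by rw [hxl]; simp)
    exact hΔ x.1 x.2 h1
  · intro d hd
    rw [hΔ', Finset.mem_image] at hd
    obtain ⟨l, hl, rfl⟩ := hd
    exact star_val l
  · -- infinite orbit
    intro hfin
    apply hcl
    -- elements of the closure come from `Gp f Δ'`
    have h1 : ∀ k ∈ (Submonoid.closure {k | ∃ w ∈ Λ, k = (w.map ψ).prod} : Submonoid K),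
        ∃ x : Subgroup.normalizer (Y : Set G), x.1 ∈ Gp f Δ' ∧ k = QuotientGroup.mk x := by
      intro k hk
      induction hk using Submonoid.closure_induction with
      | mem k hk =>
        obtain ⟨w, hw, rfl⟩ := hk
        refine ⟨⟨ev f (w.map Subtype.val).flatten, hH (star_val w).mem_Gp⟩, ?_, hψ w⟩
        by_cases hw0 : w = []
        · rw [hw0]
          exact Subgroup.one_mem _
        · apply Star.mem_Gp
          apply Star.of_mem
          rw [hΔ', Finset.mem_image]
          exact ⟨w, Finset.mem_filter.mpr ⟨hw, hw0⟩, rfl⟩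
      | one => exact ⟨1, Subgroup.one_mem _, rfl⟩
      | mul x y _ _ hx hy =>
        obtain ⟨x', hx', rfl⟩ := hx
        obtain ⟨y', hy', rfl⟩ := hy
        exact ⟨x' * y', Subgroup.mul_mem _ hx' hy', (QuotientGroup.mk_mul _ _ _).symm⟩
    refine Set.Finite.of_injOn (f := fun k : K => rc Y (Quotient.out k).1)
      (t := {c : Set G | ∃ h ∈ Gp f Δ', c = rc Y (1 * h)}) ?_ ?_ hfin
    · intro k hk
      obtain ⟨x, hx, hkx⟩ := h1 k hk
      refine ⟨x.1, hx, ?_⟩
      rw [one_mul]
      apply (hmk _ _).mp
      rw [← hkx]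
      exact Quotient.out_eq k
    · intro k _ k' _ he
      have h2 := (hmk _ _).mpr he
      have e1 : (QuotientGroup.mk (Quotient.out k) : K) = k := Quotient.out_eq k
      have e2 : (QuotientGroup.mk (Quotient.out k') : K) = k' := Quotient.out_eq k'
      rw [e1, e2] at h2
      exact h2
  · intro w hw
    obtain ⟨L, hL', rfl⟩ := hw
    -- lift to lists of loops
    have h1 : ∃ M : List (List {d // d ∈ Δ}), (∀ l ∈ M, l ∈ Λ) ∧
        M.map (fun l => (l.map Subtype.val).flatten) = L := by
      induction L with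
      | nil => exact ⟨[], by simp, rfl⟩
      | cons d L ih =>
        obtain ⟨M, hM, hM'⟩ := ih fun d' hd' => hL' d' (by simp [hd'])
        have h2 := hL' d (by simp)
        rw [hΔ', Finset.mem_image] at h2
        obtain ⟨l, hl, hl'⟩ := h2
        refine ⟨l :: M, ?_, by rw [List.map_cons, hM', hl']⟩
        intro x hx
        rw [List.mem_cons] at hx
        rcases hx with rfl | hx
        · exact (Finset.mem_filter.mp hl).1
        · exact hM x hx
    obtain ⟨M, hM, hM'⟩ := h1
    have h3 := pth_flatten M fun l hl => hΛ l (hM l hl)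
    refine ⟨M.flatten.map Subtype.val, fun d hd => mem_map_val hd, ?_, ?_⟩
    · rw [← hM']
      clear hM hM' h3 hL'
      induction M with
      | nil => rfl
      | cons l M ih =>
        rw [List.flatten_cons, List.map_append, List.flatten_append, ih, List.map_cons,
          List.flatten_cons]
    · intro a m b he hm
      -- lift the decomposition
      rw [List.append_assoc] at he
      obtain ⟨a', r', e1, e2, e3⟩ := List.map_eq_append_iff.mp he
      obtain ⟨m', b', e4, e5, e6⟩ := List.map_eq_append_iff.mp e3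
      have h4 : M.flatten = a' ++ m' ++ b' := by rw [e1, e4, List.append_assoc]
      have h5 := loop_geo hN h3 h4 (by rw [← e5, List.length_map] at hm; exact hm)
      unfold Gc at h5
      rw [e5] at h5
      exact h5

end Pool.Agent.L0h34.CW
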