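import Pool.Agent.L0h34.CW.Basics

/-! Project CW, module CRS: while the right end stays in a periodic gap, the left end does not
cross the word `E`. -/

set_option autoImplicit false

namespace Pool.Agent.L0h34.CW.CRSaux

section
variable {A G : Type} [Group G]

/-- The values of the suffixes of the words `v ^ T`. -/
noncomputable def vals (f : A → G) (m₀ : ℕ) (v : List A) : Finset G :=
  open Classical in
  (Finset.range (v.length + 1) ×ˢ Finset.range m₀).image
    fun a => ev f (v.drop a.1) * ev f v ^ a.2

theorem mem_vals {f : A → G} {m₀ : ℕ} {v : List A} (hm : 0 < m₀) (hv : ev f v ^ m₀ = 1)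
    (T : ℕ) : ∀ a, ev f ((List.replicate T v).flatten.drop a) ∈ vals f m₀ v := by
  classical
  induction T with
  | zero =>
    intro a
    refine Finset.mem_image.2 ⟨(v.length, 0), ?_, ?_⟩
    · simp [hm]
    · simp
  | succ T ih =>
    intro a
    rw [List.replicate_succ, List.flatten_cons, List.drop_append]
    rcases le_or_gt a v.length with ha | ha
    · refine Finset.mem_image.2 ⟨(a, T % m₀), ?_, ?_⟩
      · simp only [Finset.mem_product, Finset.mem_range]
        exact ⟨by omega, Nat.mod_lt _ hm⟩
      · have h0 : a - v.length = 0 := by omega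
        rw [h0, List.drop_zero, ev_append, ev_replicate_flatten]
        dsimp only
        rw [← pow_eq_pow_mod T hv]
    · rw [List.drop_eq_nil_of_le (by omega : v.length ≤ a), List.nil_append]
      exact ih _

theorem find_sample {i κ a : ℕ} {p : ℕ → ℕ} (ha : p i ≤ a) :
    ∀ j, i ≤ j → (∀ k < j, p (k + 1) ≤ p k + κ) → a ≤ p j →
      ∃ k, i ≤ k ∧ k ≤ j ∧ p k ≤ a ∧ a ≤ p k + κ := by
  intro j hij
  induction j, hij using Nat.le_induction with
  | base =>
    intro _ h
    exact ⟨i, le_rfl, le_rfl, ha, by omega⟩
  | succ j hij ih =>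
    intro h1 h2
    rcases le_or_gt a (p j) with h | h
    · obtain ⟨k, hk1, hk2, hk3⟩ := ih (fun k hk => h1 k (by omega)) h
      exact ⟨k, hk1, by omega, hk3⟩
    · have := h1 j (by omega)
      exact ⟨j, hij, by omega, h.le, by omega⟩

end

end Pool.Agent.L0h34.CW.CRSaux

namespace Pool.Agent.L0h34.CW

open CRSaux

theorem crs : S_CRS := by
  classical
  intro A G _ _ f 𝓗 c κ m₀ r Δ v hm hv
  have hWfin : {w : List A | w.length ≤ κ}.Finite := List.finite_length_le A κ
  set WF : Finset (List A) := hWfin.toFinset with hWF
  refine ⟨(Finset.range c ×ˢ vals f m₀ v ×ˢ WF).card + 1, ?_⟩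
  intro E hE x b y w₁ w₂ w₃ w₄ T hxby hw hw₁ hw' hfo hnc n t p q hch i j hij hjn h1 h2 h3 h4
  have hqle : ∀ i ≤ n, q i ≤ b.length := by
    obtain ⟨_, h2, h3, _⟩ := hch
    intro i
    induction i with
    | zero => intro _; exact h2.le
    | succ i ih =>
      intro hi
      exact ((h3 i (by omega)).2.2.1).trans (ih (by omega))
  obtain ⟨c1, c2, c3, c4, c5, c6, c7⟩ := hch
  have hk := hE x (b ++ y) (by rw [← List.append_assoc]; exact hxby) hfo hnc _ hw₁.mem_Gp
  -- the values of the right ends
  have hqa : ∀ k, i ≤ k → k ≤ j → q k ≤ q i := by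
    intro k hk
    induction k, hk using Nat.le_induction with
    | base => intro _; exact le_rfl
    | succ k hk ih =>
      intro hk'
      have := c3 k (by omega)
      have := ih (by omega)
      omega
  have hqb : ∀ k, i ≤ k → k ≤ j → q j ≤ q k := by
    have key : ∀ d k, k + d = j → q j ≤ q k := by
      intro d
      induction d with
      | zero => intro k hk; simp at hk; rw [hk]
      | succ d ih =>
        intro k hk
        have := c3 k (by omega)
        have := ih (k + 1) (by omega)
        omega
    intro k _ hkj
    exact key (j - k) k (by omega)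
  have hval : ∀ k, i ≤ k → k ≤ j → ev f (b.drop (q k)) * ev f y * (ev f w₄)⁻¹ ∈ vals f m₀ v := by
    intro k hk1 hk2
    have a1 := hqa k hk1 hk2
    have a2 := hqb k hk1 hk2
    have a3 := hqle k (by omega)
    have hlen : (List.replicate T v).flatten.length = T * v.length := by simp
    have e1 : (x ++ b ++ y).drop (x.length + q k) = b.drop (q k) ++ y := by
      rw [List.append_assoc, List.drop_append, List.drop_eq_nil_of_le (by omega),
        List.nil_append, Nat.add_sub_cancel_left, List.drop_append,
        show q k - b.length = 0 by omega, List.drop_zero]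
    have e2 : (w₃ ++ (List.replicate T v).flatten ++ w₄).drop (x.length + q k) =
        (List.replicate T v).flatten.drop (x.length + q k - w₃.length) ++ w₄ := by
      rw [List.append_assoc, List.drop_append, List.drop_eq_nil_of_le (by omega),
        List.nil_append, List.drop_append,
        show x.length + q k - w₃.length - (List.replicate T v).flatten.length = 0 by
          rw [hlen]; omega, List.drop_zero]
    have e3 : ev f (b.drop (q k)) * ev f y =
        ev f ((List.replicate T v).flatten.drop (x.length + q k - w₃.length)) * ev f w₄ := by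
      rw [← ev_append, ← ev_append, ← e1, ← e2, hw']
    rw [e3, mul_inv_cancel_right]
    exact mem_vals hm hv T _
  -- equal types and equal right values give equal left classes
  have hsame : ∀ k l, k ≤ n → l ≤ n → t k = t l → ev f (b.drop (q k)) = ev f (b.drop (q l)) →
      ev f (b.take (p k)) * (ev f (b.take (p l)))⁻¹ ∈ N1 𝓗 := by
    intro k l hk hl ht hv'
    have a1 := c7 k hk
    have a2 := c7 l hl
    rw [ht, hv'] at a1
    have a3 := 𝓗.mul_mem a1 (𝓗.inv_mem a2)
    rw [mem_N1]
    simpa using a3
  -- chosen samples
  let P : ℕ → G → Prop := fun τ ω => ∃ k, i ≤ k ∧ k ≤ j ∧ t k = τ ∧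
    ev f (b.drop (q k)) * ev f y * (ev f w₄)⁻¹ = ω
  let idx : ℕ → G → ℕ := fun τ ω => if h : P τ ω then h.choose else 0
  have hidx : ∀ τ ω, P τ ω → i ≤ idx τ ω ∧ idx τ ω ≤ j ∧ t (idx τ ω) = τ ∧
      ev f (b.drop (q (idx τ ω))) * ev f y * (ev f w₄)⁻¹ = ω := by
    intro τ ω h
    have e : idx τ ω = h.choose := by
      simp only [idx]
      rw [dif_pos h]
    rw [e]
    exact h.choose_spec
  let Φ : ℕ × G × List A → Set G := fun a =>
    rc (N1 𝓗) (ev f (b.take (p (idx a.1 a.2.1))) * ev f a.2.2)
  have hsub : {c : Set G | ∃ i ≤ E.length, c = rc (N1 𝓗) ((ev f x)⁻¹ * ev f w₁ *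
      ev f (E.take i))} ⊆ ↑((Finset.range c ×ˢ vals f m₀ v ×ˢ WF).image Φ) := by
    rintro d ⟨s, hs, rfl⟩
    have hpj : p j ≤ b.length := (c4 j hjn).trans (hqle j hjn)
    -- the position in `b`
    obtain ⟨k, hk1, hk2, hk3, hk4⟩ := find_sample (κ := κ) (a := w₁.length + s - x.length)
      (p := p) (i := i) (by omega) j hij (fun k hk => (c3 k (by omega)).2.1) (by omega)
    have e1 : ev f x * ev f (b.take (w₁.length + s - x.length)) =
        ev f w₁ * ev f (E.take s) := by
      have e2 : (x ++ b ++ y).take (w₁.length + s) = x ++ b.take (w₁.length + s - x.length) := by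
        rw [List.append_assoc, List.take_append, List.take_of_length_le (by omega),
          List.take_append, show w₁.length + s - x.length - b.length = 0 by omega,
          List.take_zero, List.append_nil]
      have e3 : (w₁ ++ E ++ w₂).take (w₁.length + s) = w₁ ++ E.take s := by
        rw [List.append_assoc, List.take_append, List.take_of_length_le (by omega),
          Nat.add_sub_cancel_left, List.take_append, show s - E.length = 0 by omega,
          List.take_zero, List.append_nil]
      rw [← ev_append, ← ev_append, ← e2, ← e3, hw]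
    have e4 : b.take (w₁.length + s - x.length) = b.take (p k) ++
        (b.drop (p k)).take (w₁.length + s - x.length - p k) := by
      rw [← List.take_add]
      congr 1
      omega
    have e5 : (ev f x)⁻¹ * ev f w₁ * ev f (E.take s) = ev f (b.take (p k)) *
        ev f ((b.drop (p k)).take (w₁.length + s - x.length - p k)) := by
      rw [← ev_append, ← e4, mul_assoc, ← e1, inv_mul_cancel_left]
    rw [e5]
    have hP : P (t k) (ev f (b.drop (q k)) * ev f y * (ev f w₄)⁻¹) := ⟨k, hk1, hk2, rfl, rfl⟩
    obtain ⟨b1, b2, b3, b4⟩ := hidx _ _ hP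
    rw [Finset.coe_image]
    refine ⟨(t k, ev f (b.drop (q k)) * ev f y * (ev f w₄)⁻¹,
      (b.drop (p k)).take (w₁.length + s - x.length - p k)), ?_, ?_⟩
    · rw [Finset.mem_coe, Finset.mem_product, Finset.mem_product]
      refine ⟨Finset.mem_range.2 (c6 k (by omega)), hval k hk1 hk2, ?_⟩
      rw [hWF, Set.Finite.mem_toFinset]
      change (List.take _ _).length ≤ κ
      rw [List.length_take]
      omega
    · simp only [Φ]
      rw [rc_eq]
      have h7 := hsame (idx (t k) (ev f (b.drop (q k)) * ev f y * (ev f w₄)⁻¹)) k
        (by omega) (by omega) b3 (by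
          have := b4
          exact mul_right_cancel (mul_right_cancel this))
      have e6 : ∀ u u' g : G, u * g * (u' * g)⁻¹ = u * u'⁻¹ := by
        intro u u' g
        group
      rw [e6]
      exact h7
  have hcard := Set.ncard_le_ncard hsub (Finset.finite_toSet _)
  rw [Set.ncard_coe_finset] at hcard
  have hcard' := hcard.trans Finset.card_image_le
  omega

end Pool.Agent.L0h34.CW
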