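import Pool.Agent.L0h34.CW.CLS

/-! Project CW: the structure of expansive components. -/

set_option autoImplicit false

namespace Pool.Agent.L0h34.CW

open MulOpposite

section
variable {A G : Type} [Group G] {g : BG A} {f : A → G}

theorem Lk.child_left {B C C1 C2 : g.N} {u v w : List A} (h : Lk g B C u v)
    (hp : g.pair C C1 C2) (hw : Dv g C2 w) : Lk g B C1 u (w ++ v) := by
  have := h.trans (Lk.left hp (Lk.refl C1) hw)
  simpa using this

theorem Lk.child_right {B C C1 C2 : g.N} {u v w : List A} (h : Lk g B C u v)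
    (hp : g.pair C C1 C2) (hw : Dv g C1 w) : Lk g B C2 (u ++ w) v := by
  have := h.trans (Lk.right hp hw (Lk.refl C2))
  simpa using this

/-- The positions of the thin derivations. -/
theorem pos_mem {B : g.N} {K : ℕ} {Δ : Finset (List A)} {H : Subgroup G}
    (hK : LowK g f Δ H B K) {r m : g.N → G}
    (hr : ∀ C u v, Rch g C B → Lk g B C u v → ev f u * (r C)⁻¹ ∈ U1 (HB g f B))
    (hm : ∀ C u v b, Rch g C B → Lk g B C u v → Dv g C b →
      ev f u * m C * (ev f (u ++ b))⁻¹ ∈ N1 (HB g f B))
    {C : g.N} {x' : G} {b : List A} (h : TD g f H C x' b) :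
    ∀ z y u v, x' = ev f z → Star Δ (z ++ b ++ y) → Rch g C B → Lk g B C u v →
      ∀ i ≤ b.length, ∃ C' : g.N, ∃ t : List A, t.length ≤ K + 1 ∧
        (rc (U1 (HB g f B)) (ev f (u ++ b.take i)) = rc (U1 (HB g f B)) (r C' * ev f t) ∨
          rc (U1 (HB g f B)) (ev f (u ++ b.take i)) =
            rc (U1 (HB g f B)) (r C' * m C' * (ev f t)⁻¹)) := by
  induction h with
  | @term C x' w hw _ =>
    intro z y u v _ _ hCB hl i _
    refine ⟨C, w.take i, ?_, Or.inl ?_⟩
    · have := g.short _ _ hw
      rw [List.length_take]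
      omega
    · rw [rc_eq, ev_append]
      have e : ev f u * ev f (w.take i) * (r C * ev f (w.take i))⁻¹ = ev f u * (r C)⁻¹ := by group
      rw [e]
      exact hr C u v hCB hl
  | @pair C C1 C2 x' u' v' hp h1 h2 _ ih1 ih2 =>
    intro z y u v hz hst hCB hl i hi
    have hBC : Rch g B C := ⟨u, v, hl⟩
    by_cases hi' : i ≤ u'.length
    · rw [List.take_append_of_le_length hi']
      have hl1 := hl.child_left hp h2.dv
      have hst1 : Star Δ (z ++ u' ++ (v' ++ y)) := by
        simpa [List.append_assoc] using hst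
      by_cases hC1 : Rch g C1 B
      · exact ih1 z (v' ++ y) u (v' ++ v) hz hst1 hC1 hl1 i hi'
      · have hlen := hK C1 ⟨_, _, hl1⟩ hC1 z u' (v' ++ y) hst1 (hz ▸ h1)
        refine ⟨C, u'.take i, ?_, Or.inl ?_⟩
        · rw [List.length_take]
          omega
        · rw [rc_eq, ev_append]
          have e : ev f u * ev f (u'.take i) * (r C * ev f (u'.take i))⁻¹ =
            ev f u * (r C)⁻¹ := by group
          rw [e]
          exact hr C u v hCB hl
    · push Not at hi'
      rw [List.length_append] at hi
      have et : (u' ++ v').take i = u' ++ v'.take (i - u'.length) := by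
        rw [List.take_append, List.take_of_length_le hi'.le]
      rw [et]
      have hl2 := hl.child_right hp h1.dv
      have hst2 : Star Δ ((z ++ u') ++ v' ++ y) := by
        simpa [List.append_assoc] using hst
      have hz2 : x' * ev f u' = ev f (z ++ u') := by rw [ev_append, hz]
      by_cases hC2 : Rch g C2 B
      · have := ih2 (z ++ u') y (u ++ u') v hz2 hst2 hC2 hl2 (i - u'.length) (by omega)
        rw [List.append_assoc] at this
        exact this
      · have hlen := hK C2 ⟨_, _, hl2⟩ hC2 (z ++ u') v' y hst2 (hz2 ▸ h2)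
        refine ⟨C, v'.drop (i - u'.length), ?_, Or.inr ?_⟩
        · rw [List.length_drop]
          omega
        · have h3 := (normIn1 (HB g f B)).1 (hm C u v (u' ++ v') hCB hl (Dv.pair hp h1.dv h2.dv))
          have h4 := hr C u v hCB hl
          rw [rc_eq]
          have h5 := (U1 (HB g f B)).mul_mem ((U1 (HB g f B)).inv_mem h3) h4
          have e : ev f (u ++ (u' ++ v'.take (i - u'.length))) *
              (r C * m C * (ev f (v'.drop (i - u'.length)))⁻¹)⁻¹ =
              (ev f u * m C * (ev f (u ++ (u' ++ v')))⁻¹)⁻¹ * (ev f u * (r C)⁻¹) := by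
            have e1 : ev f v' = ev f (v'.take (i - u'.length)) * ev f (v'.drop (i - u'.length)) := by
              rw [← ev_append, List.take_append_drop]
            simp only [ev_append]
            rw [e1]
            group
          rw [e]
          exact h5

/-- Descent to a node of length in `(l, 2 l]`. -/
theorem descend {B : g.N} {K : ℕ} {Δ : Finset (List A)} {H : Subgroup G}
    (hK : LowK g f Δ H B K) {m : g.N → G}
    (hm : ∀ C u v b, Rch g C B → Lk g B C u v → Dv g C b →
      ev f u * m C * (ev f (u ++ b))⁻¹ ∈ N1 (HB g f B)) {l : ℕ} (hl : K < l)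
    {C : g.N} {x' : G} {b : List A} (h : TD g f H C x' b) :
    ∀ z y u v, x' = ev f z → Star Δ (z ++ b ++ y) → Rch g C B → Lk g B C u v →
      l < b.length → ∃ i j, i + l < j ∧ j ≤ i + 2 * l ∧ j ≤ b.length ∧
        ∃ C' : g.N, ev f (u ++ b.take i) * m C' * (ev f (u ++ b.take j))⁻¹ ∈ N1 (HB g f B) := by
  induction h with
  | @term C x' w hw _ =>
    intro z y u v _ _ _ _ hlen
    have := g.short _ _ hw
    omega
  | @pair C C1 C2 x' u' v' hp h1 h2 _ ih1 ih2 =>
    intro z y u v hz hst hCB hlk hlen
    by_cases h2l : (u' ++ v').length ≤ 2 * l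
    · refine ⟨0, (u' ++ v').length, by omega, by omega, le_rfl, C, ?_⟩
      rw [List.take_zero, List.append_nil, List.take_length]
      exact hm C u v (u' ++ v') hCB hlk (Dv.pair hp h1.dv h2.dv)
    · rw [List.length_append] at h2l
      have hst1 : Star Δ (z ++ u' ++ (v' ++ y)) := by
        simpa [List.append_assoc] using hst
      have hst2 : Star Δ ((z ++ u') ++ v' ++ y) := by
        simpa [List.append_assoc] using hst
      have hz2 : x' * ev f u' = ev f (z ++ u') := by rw [ev_append, hz]
      have hl1 := hlk.child_left hp h2.dv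
      have hl2 := hlk.child_right hp h1.dv
      by_cases hu : l < u'.length
      · have hC1 : Rch g C1 B := by
          by_contra hC1
          have := hK C1 ⟨_, _, hl1⟩ hC1 z u' (v' ++ y) hst1 (hz ▸ h1)
          omega
        obtain ⟨i, j, hij, hij', hj, C', hC'⟩ :=
          ih1 z (v' ++ y) u (v' ++ v) hz hst1 hC1 hl1 hu
        refine ⟨i, j, hij, hij', by rw [List.length_append]; omega, C', ?_⟩
        rw [List.take_append_of_le_length (by omega), List.take_append_of_le_length hj]
        exact hC'
      · have hv : l < v'.length := by omega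
        have hC2 : Rch g C2 B := by
          by_contra hC2
          have := hK C2 ⟨_, _, hl2⟩ hC2 (z ++ u') v' y hst2 (hz2 ▸ h2)
          omega
        obtain ⟨i, j, hij, hij', hj, C', hC'⟩ :=
          ih2 (z ++ u') y (u ++ u') v hz2 hst2 hC2 hl2 hv
        refine ⟨u'.length + i, u'.length + j, by omega, by omega,
          by rw [List.length_append]; omega, C', ?_⟩
        have et : ∀ k, (u' ++ v').take (u'.length + k) = u' ++ v'.take k := fun k => by
          rw [List.take_append, List.take_of_length_le (by omega), Nat.add_sub_cancel_left]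
        rw [et, et, ← List.append_assoc, ← List.append_assoc]
        exact hC'

end

/-- **EXPG** -/
theorem expg' : S_EXPG := by
  classical
  intro A G _ _ hG g f B K hE
  haveI := g.fin
  obtain ⟨m, hm⟩ := cls' A G hG g f B hE
  set U := U1 (HB g f B) with hU
  let r : g.N → G := fun C => if h : ∃ w : List A × List A, Lk g B C w.1 w.2 then
    ev f h.choose.1 else 1
  have hr : ∀ C u v, Rch g C B → Lk g B C u v → ev f u * (r C)⁻¹ ∈ U := by
    intro C u v hCB hl
    have hw : ∃ w : List A × List A, Lk g B C w.1 w.2 := ⟨(u, v), hl⟩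
    have e : r C = ev f hw.choose.1 := dif_pos hw
    rw [e]
    exact mem_U1.2 ⟨_, link_ratio hCB hl hw.choose_spec⟩
  have hT : {t : List A | t.length ≤ K + 1}.Finite := List.finite_length_le A (K + 1)
  have hP : ((Set.univ : Set g.N) ×ˢ {t : List A | t.length ≤ K + 1}).Finite :=
    Set.finite_univ.prod hT
  refine ⟨(fun p : g.N × List A => rc U (r p.1 * ev f p.2)) ''
      ((Set.univ : Set g.N) ×ˢ {t : List A | t.length ≤ K + 1}) ∪
    (fun p : g.N × List A => rc U (r p.1 * m p.1 * (ev f p.2)⁻¹)) ''
      ((Set.univ : Set g.N) ×ˢ {t : List A | t.length ≤ K + 1}),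
    (Set.finite_range m).toFinset, (hP.image _).union (hP.image _), ?_⟩
  intro Δ H hK x b y hst htd
  constructor
  · intro i hi
    obtain ⟨C, t, ht, h⟩ := pos_mem hK hr hm htd x y [] [] rfl hst (Rch.refl B) (Lk.refl B) i hi
    rw [List.nil_append] at h
    rcases h with h | h
    · exact Or.inl ⟨(C, t), ⟨Set.mem_univ _, ht⟩, h.symm⟩
    · exact Or.inr ⟨(C, t), ⟨Set.mem_univ _, ht⟩, h.symm⟩
  · intro l hl hlen
    obtain ⟨i, j, hij, hij', hj, C, hC⟩ :=
      descend hK hm hl htd x y [] [] rfl hst (Rch.refl B) (Lk.refl B) (by omega)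
    exact ⟨i, j, hij, hij', hj, m C, by simp, by simpa using hC⟩

theorem expg (_ : S_REL) (_ : S_CLS) : S_EXPG := expg'

end Pool.Agent.L0h34.CW
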