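import Pool.Agent.L0h34.CW.Basics

/-! The stage for a linear component, from the one-sided lemmas and the pattern lemma. -/

set_option autoImplicit false

namespace Pool.Agent.L0h34.CW

section
variable {A G : Type} [Group G] {f : A → G} {𝓗 : Subgroup (G × Gᵐᵒᵖ)} {c κ : ℕ}
  {r : ℕ → G × G}

namespace IsChain

variable {b : List A} {n : ℕ} {t p q : ℕ → ℕ}

theorem p_mono (h : IsChain 𝓗 c κ r f b n t p q) : ∀ i j, i ≤ j → j ≤ n → p i ≤ p j := by
  intro i j hij
  induction j, hij using Nat.le_induction with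
  | base => intro _; exact le_rfl
  | succ j hij ih =>
    intro hj
    exact (ih (by omega)).trans (h.2.2.1 j (by omega)).1

theorem q_mono (h : IsChain 𝓗 c κ r f b n t p q) : ∀ i j, i ≤ j → j ≤ n → q j ≤ q i := by
  intro i j hij
  induction j, hij using Nat.le_induction with
  | base => intro _; exact le_rfl
  | succ j hij ih =>
    intro hj
    exact (h.2.2.1 j (by omega)).2.2.1.trans (ih (by omega))

theorem q_le (h : IsChain 𝓗 c κ r f b n t p q) {i : ℕ} (hi : i ≤ n) : q i ≤ b.length := by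
  have := h.q_mono 0 i (Nat.zero_le _) hi
  rwa [h.2.1] at this

theorem p_le (h : IsChain 𝓗 c κ r f b n t p q) {i : ℕ} (hi : i ≤ n) : p i ≤ b.length :=
  (h.2.2.2.1 i hi).trans (h.q_le hi)

/-- sampling -/
theorem sample (h : IsChain 𝓗 c κ r f b n t p q) {i : ℕ} (hi : i ≤ p n) :
    ∃ j ≤ n, p j ≤ i ∧ i ≤ p j + κ := by
  by_contra hcon
  push Not at hcon
  have key : ∀ j ≤ n, p j ≤ i := by
    intro j
    induction j with
    | zero => intro _; rw [h.1]; exact Nat.zero_le _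
    | succ j ih =>
      intro hj
      have h1 := ih (by omega)
      have h2 := hcon j (by omega) h1
      have h3 := (h.2.2.1 j (by omega)).2.1
      omega
  have h1 := key n le_rfl
  have h2 := hcon n le_rfl h1
  omega

/-- comparison of two nodes of the same type -/
theorem rel (h : IsChain 𝓗 c κ r f b n t p q) {i j : ℕ} (hi : i ≤ n) (hj : j ≤ n)
    (hij : t i = t j) :
    (ev f (b.take (p i)) * (ev f (b.take (p j)))⁻¹,
      MulOpposite.op ((ev f (b.drop (q j)))⁻¹ * ev f (b.drop (q i)))) ∈ 𝓗 := by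
  have h1 := h.2.2.2.2.2.2 i hi
  have h2 := h.2.2.2.2.2.2 j hj
  rw [hij] at h1
  have h3 := 𝓗.mul_mem h1 (𝓗.inv_mem h2)
  have e : (ev f (b.take (p i)) * (r (t j)).1⁻¹,
      MulOpposite.op ((r (t j)).2⁻¹ * ev f (b.drop (q i)))) *
      (ev f (b.take (p j)) * (r (t j)).1⁻¹,
      MulOpposite.op ((r (t j)).2⁻¹ * ev f (b.drop (q j))))⁻¹ =
      (ev f (b.take (p i)) * (ev f (b.take (p j)))⁻¹,
      MulOpposite.op ((ev f (b.drop (q j)))⁻¹ * ev f (b.drop (q i)))) := by
    apply Prod.ext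
    · change ev f (b.take (p i)) * (r (t j)).1⁻¹ * (ev f (b.take (p j)) * (r (t j)).1⁻¹)⁻¹ = _
      group
    · apply MulOpposite.unop_injective
      change ((r (t j)).2⁻¹ * ev f (b.drop (q j)))⁻¹ * ((r (t j)).2⁻¹ * ev f (b.drop (q i))) = _
      simp only [MulOpposite.unop_op]
      group
  rwa [e] at h3

end IsChain

theorem chain_stall (hns : S_NS) {b : List A} {n : ℕ} {t p q : ℕ → ℕ}
    (hc : IsChain 𝓗 c κ r f b n t p q) {ρ X : ℕ}
    (hI : Inj f (N1 𝓗) {1} ρ ((ρ + κ + 1) * (c * (X + 1) + 1)) b) :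
    ∀ i j, i ≤ j → j ≤ n → q i ≤ q j + X →
      p j < p i + (ρ + κ + 1) * (c * (X + 1) + 1) := by
  intro i j hij hj hq
  refine hns (Set G) (Set G) (fun a => rc (N1 𝓗) (ev f (b.take a)))
    (fun a => rc (N2 𝓗) (ev f (b.drop (b.length - a)))⁻¹) n c κ X ρ t p
    (fun i => b.length - q i) ?_ (fun i hi => hc.2.2.2.2.2.1 i hi) ?_ ?_ i j hij hj ?_
  · intro i hi
    have h1 := hc.2.2.1 i hi
    refine ⟨h1.1, h1.2.1, ?_⟩
    omega
  · intro i j hi hj hij h
    have hqi := hc.q_le hi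
    have hqj := hc.q_le hj
    rw [show b.length - (b.length - q i) = q i by omega,
      show b.length - (b.length - q j) = q j by omega] at h
    rw [rc_eq] at h ⊢
    rw [mem_N2] at h
    rw [mem_N1]
    have h2 := 𝓗.mul_mem (hc.rel hi hj hij) h
    have e : (ev f (b.take (p i)) * (ev f (b.take (p j)))⁻¹,
        MulOpposite.op ((ev f (b.drop (q j)))⁻¹ * ev f (b.drop (q i)))) *
        ((1 : G), MulOpposite.op ((ev f (b.drop (q i)))⁻¹ * (ev f (b.drop (q j)))⁻¹⁻¹)) =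
        (ev f (b.take (p i)) * (ev f (b.take (p j)))⁻¹, 1) := by
      apply Prod.ext
      · change ev f (b.take (p i)) * (ev f (b.take (p j)))⁻¹ * 1 = _
        rw [mul_one]
      · apply MulOpposite.unop_injective
        change ((ev f (b.drop (q i)))⁻¹ * (ev f (b.drop (q j)))⁻¹⁻¹) *
          ((ev f (b.drop (q j)))⁻¹ * ev f (b.drop (q i))) = 1
        group
    rwa [e] at h2
  · intro a a' h1 h2 h3 h4
    rw [rc_eq] at h4
    refine hI a a' h1 h2 (h3.trans (hc.p_le le_rfl)) 1 (Finset.mem_singleton_self 1) ?_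
    rwa [mul_one]
  · have hqi := hc.q_le (hij.trans hj)
    have hqj := hc.q_le hj
    omega

/-- The bound from the excursion lemma. -/
def SideE (𝓗 : Subgroup (G × Gᵐᵒᵖ)) (c κ : ℕ) (r : ℕ → G × G) (f : A → G) (H : Subgroup G)
    (Δ : Finset (List A)) (K : ℕ) : Prop :=
  ∀ x b y, Star Δ (x ++ b ++ y) → ¬ FinOrb (U1 𝓗) H (ev f x)⁻¹ → ∀ n t p q,
    IsChain 𝓗 c κ r f b n t p q → p n ≤ K

theorem SideE.mono {H : Subgroup G} {Δ Δ' : Finset (List A)} {K : ℕ} (hΔ : Fine Δ' Δ)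
    (h : SideE 𝓗 c κ r f H Δ K) : SideE 𝓗 c κ r f H Δ' K :=
  fun x b y hs => h x b y (Star.of_fine hΔ hs)

theorem exists_sideE [Finite A] (hexc : S_EXC) (hG : Tors G) (Δ : Finset (List A))
    (hΔ : Nice Δ) : ∃ Δ', Fine Δ' Δ ∧ Gp f Δ' = Gp f Δ ∧ ∃ K, SideE 𝓗 c κ r f (Gp f Δ) Δ' K := by
  have hD : {d : Set G | ∃ k < c, ∃ w : List A, w.length ≤ κ ∧
      d = rc (U1 𝓗) ((r k).1 * ev f w)}.Finite := by
    have h1 : ((Finset.range c : Set ℕ) ×ˢ {w : List A | w.length ≤ κ}).Finite :=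
      (Finset.finite_toSet _).prod (List.finite_length_le A κ)
    refine (h1.image fun x => rc (U1 𝓗) ((r x.1).1 * ev f x.2)).subset ?_
    rintro d ⟨k, hk, w, hw, rfl⟩
    exact ⟨(k, w), ⟨by simpa using hk, hw⟩, rfl⟩
  obtain ⟨Δ', h1, h2, K, hK⟩ := hexc A G hG f (U1 𝓗) _ hD Δ hΔ
  refine ⟨Δ', h1, h2, K, ?_⟩
  intro x b y hs hU n t p q hc
  have hp : (b.take (p n)).length = p n := by
    rw [List.length_take]
    exact min_eq_left (hc.p_le le_rfl)
  have h3 := hK x (b.take (p n)) (b.drop (p n) ++ y) (by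
    rw [List.append_assoc, ← List.append_assoc (b.take (p n)), List.take_append_drop,
      ← List.append_assoc]
    exact hs) hU ?_
  · rwa [hp] at h3
  · intro i hi
    rw [hp] at hi
    obtain ⟨j, hj, hj1, hj2⟩ := hc.sample hi
    refine ⟨t j, hc.2.2.2.2.2.1 j hj, (b.drop (p j)).take (i - p j), ?_, ?_⟩
    · rw [List.length_take]
      omega
    · have e : (b.take (p n)).take i = b.take (p j) ++ (b.drop (p j)).take (i - p j) := by
        rw [List.take_take, min_eq_left hi]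
        conv_lhs => rw [show i = p j + (i - p j) by omega]
        rw [List.take_add]
      rw [e, ev_append, rc_eq]
      have h4 := hc.2.2.2.2.2.2 j hj
      have h5 : ev f (b.take (p j)) * (r (t j)).1⁻¹ ∈ U1 𝓗 := mem_U1.2 ⟨_, h4⟩
      convert h5 using 1
      group

/-- Normalization and local injectivity. -/
def SideR (N U : Subgroup G) (f : A → G) (H : Subgroup G) (Rf : ℕ → ℕ)
    (Δ : Finset (List A)) (ρm : ℕ) : Prop :=
  (∀ x y, Star Δ (x ++ y) → FinOrb U H (ev f x)⁻¹ → NormC N (Gp f Δ) (ev f x)⁻¹) ∧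
  ∀ x b y, Star Δ (x ++ b ++ y) → FinOrb U H (ev f x)⁻¹ →
    ¬ FinOrb N (Gp f Δ) (ev f x)⁻¹ → ∃ ρ ≤ ρm, Inj f N {1} ρ (Rf ρ) b

theorem SideR.mono {N U : Subgroup G} {f : A → G} {H H' : Subgroup G} {Rf : ℕ → ℕ}
    {Δ Δ' : Finset (List A)} {ρm : ℕ} (hΔ : Fine Δ' Δ) (hH : H' ≤ H)
    (h : SideR N U f H' Rf Δ ρm) : SideR N U f H Rf Δ' ρm :=
  ⟨fun x y hs hU => (h.1 x y (Star.of_fine hΔ hs) (hU.mono hH)).mono (Gp_mono hΔ),
    fun x b y hs hU hN => h.2 x b y (Star.of_fine hΔ hs) (hU.mono hH)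
      (fun h' => hN (h'.mono (Gp_mono hΔ)))⟩

end

theorem lin (hexc : S_EXC) (hret : S_RET) (hns : S_NS) (hlip : S_LIP) (hpat : S_PAT)
    (hmirc : S_MIRC) : S_LIN := by
  intro A G _ _ hG f 𝓗 c κ r Δ hΔ hinf
  obtain ⟨hm1, hm2, hm3, hm4, hm5⟩ := hmirc A G f 𝓗
  -- excursions
  obtain ⟨Δa, ha1, ha2, Ka, hKa⟩ := exists_sideE (f := f) (𝓗 := 𝓗) (c := c) (κ := κ) (r := r)
    hexc hG Δ hΔ
  obtain ⟨Δb', hb1', hb2', Kb, hKb⟩ := exists_sideE (f := fi f) (𝓗 := sw 𝓗) (c := c) (κ := κ)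
    (r := fun k => ((r k).2⁻¹, (r k).1⁻¹)) hexc hG (mir Δa) (nice_mir.2 ha1.1)
  rw [Gp_mir, ha2] at hb2' hKb
  obtain ⟨Δb, rfl⟩ : ∃ Δb, Δb' = mir Δb := ⟨mir Δb', mir_mir.symm⟩
  rw [Gp_mir] at hb2'
  have hb1 : Fine Δb Δa := fine_mir.1 hb1'
  -- local injectivity
  set X : ℕ := max (max Ka Kb) κ with hX
  set Rf : ℕ → ℕ := fun ρ => (ρ + κ + 1) * (c * (X + 1) + 1) with hRf
  obtain ⟨Δc, hc1, hc2, hc3, ρ1, hc4⟩ := hret A G hG f (N1 𝓗) (U1 𝓗) (normIn1 𝓗) {1} Rf Δb hb1.1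
    (by rw [hb2']; exact hinf)
  rw [hb2'] at hc3 hc4
  have hSc : SideR (N1 𝓗) (U1 𝓗) f (Gp f Δ) Rf Δc ρ1 := ⟨hc3, hc4⟩
  obtain ⟨Δd', hd1', hd2', hd3, ρ2, hd4⟩ := hret A G hG (fi f) (N2 𝓗) (U2 𝓗) (normIn2 𝓗) {1} Rf
    (mir Δc) (nice_mir.2 hc1.1) (by rw [Gp_mir]; exact hc2)
  obtain ⟨Δd, rfl⟩ : ∃ Δd, Δd' = mir Δd := ⟨mir Δd', mir_mir.symm⟩
  have hd1 : Fine Δd Δc := fine_mir.1 hd1'
  have hSd : SideR (N2 𝓗) (U2 𝓗) (fi f) (Gp f Δc) Rf (mir Δd) ρ2 := by
    rw [Gp_mir] at hd3 hd4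
    exact ⟨fun x y => by simpa only [Gp_mir] using hd3 x y, fun x b y => by
      simpa only [Gp_mir] using hd4 x b y⟩
  rw [Gp_mir] at hd2'
  have hdne : Δd.Nonempty := by
    by_contra hemp
    rw [Finset.not_nonempty_iff_eq_empty] at hemp
    apply hd2'
    rw [hemp]
    have : Gp f (∅ : Finset (List A)) = ⊥ := by
      unfold Gp
      rw [Subgroup.closure_eq_bot_iff]
      rintro x ⟨d, hd, _⟩
      simp at hd
    rw [this]
    simp
  set Λ : ℕ := Rf (max ρ1 ρ2) with hΛ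
  have hRfm : ∀ ρ, ρ ≤ max ρ1 ρ2 → Rf ρ ≤ Λ := by
    intro ρ hρ
    simp only [hRf, hΛ]
    exact Nat.mul_le_mul_right _ (by omega)
  obtain ⟨Δe, he1, he2, Ke, hKe⟩ := hpat A G hG f 𝓗 c κ r Δd hd1.1 hdne (Λ + κ)
  have hdb : Fine Δd Δb := hd1.trans hc1
  have heb : Fine Δe Δb := he1.trans hdb
  have hea : Fine Δe Δa := heb.trans hb1
  have heΔ : Fine Δe Δ := hea.trans ha1
  refine ⟨Δe, heΔ, by rw [he2]; exact hd2', max Ke (2 * (X + Λ) + κ), ?_⟩
  intro x b y hs hN1 hN2 n t p q hch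
  have hle : Gp f Δc ≤ Gp f Δ := Gp_mono (hc1.trans (hb1.trans ha1))
  -- the reversed word
  have hmch := hm5 c κ r b n t p q hch
  have hrev : (x ++ b ++ y).reverse = y.reverse ++ b.reverse ++ x.reverse := by
    simp [List.append_assoc]
  have hsr : Star (mir Δe) (y.reverse ++ b.reverse ++ x.reverse) := by
    rw [← hrev]
    exact star_mir.2 hs
  have hyinv : (ev (fi f) y.reverse)⁻¹ = ev f y := by
    rw [ev_fi_reverse, inv_inv]
  have hym : ev f y = (ev f (x ++ b))⁻¹ * ev f (x ++ b ++ y) := by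
    rw [ev_append (x ++ b) y]
    group
  have hSe1 : SideR (N1 𝓗) (U1 𝓗) f (Gp f Δ) Rf Δe ρ1 := hSc.mono (he1.trans hd1) le_rfl
  have hSe2 : SideR (N2 𝓗) (U2 𝓗) (fi f) (Gp f Δ) Rf (mir Δe) ρ2 :=
    hSd.mono (fine_mir.2 he1) hle
  -- left side: bounded, or of finite type
  have hL : p n ≤ X ∨ FinOrb (U1 𝓗) (Gp f Δ) (ev f x)⁻¹ := by
    by_cases h : FinOrb (U1 𝓗) (Gp f Δ) (ev f x)⁻¹
    · exact Or.inr h
    · left
      have := hKa x b y (Star.of_fine hea hs) h n t p q hch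
      omega
  have hR : b.length - q n ≤ X ∨ FinOrb (U2 𝓗) (Gp f Δ) (ev f y) := by
    by_cases h : FinOrb (U2 𝓗) (Gp f Δ) (ev f y)
    · exact Or.inr h
    · left
      have := hKb y.reverse b.reverse x.reverse (Star.of_fine (fine_mir.2 heb) hsr)
        (by rw [hyinv, hm3]; exact h) n t _ _ hmch
      omega
  -- local injectivity on the two sides
  have hN2' : ¬ FinOrb (N2 𝓗) (Gp f Δe) (ev f y) := by
    rw [hym, finOrb_mul hs.mem_Gp]
    exact hN2
  have hIL : FinOrb (U1 𝓗) (Gp f Δ) (ev f x)⁻¹ →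
      ∀ i j, i ≤ j → j ≤ n → q i ≤ q j + X → p j < p i + Λ := by
    intro h i j hij hj hq
    obtain ⟨ρ, hρ, hI⟩ := hSe1.2 x b y hs h hN1
    have h1 := chain_stall hns hch hI i j hij hj hq
    have h2 := hRfm ρ (hρ.trans (le_max_left _ _))
    simp only [hRf] at h2
    omega
  have hIR : FinOrb (U2 𝓗) (Gp f Δ) (ev f y) →
      ∀ i j, i ≤ j → j ≤ n → p j ≤ p i + X → q i < q j + Λ := by
    intro h i j hij hj hq
    obtain ⟨ρ, hρ, hI⟩ := hSe2.2 y.reverse b.reverse x.reverse hsr (by rw [hyinv]; exact h)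
      (by rw [hyinv, Gp_mir]; exact hN2')
    have hI' : Inj (fi f) (N1 (sw 𝓗)) {1} ρ ((ρ + κ + 1) * (c * (X + 1) + 1)) b.reverse := by
      rw [hm1]
      exact hI
    have hqi := hch.q_le (hij.trans hj)
    have hqj := hch.q_le hj
    have hpj := hch.p_le hj
    have hpi := hch.p_le (hij.trans hj)
    have h1 := chain_stall hns hmch hI' i j hij hj (by omega)
    have h2 := hRfm ρ (hρ.trans (le_max_right _ _))
    simp only [hRf] at h2
    omega
  have hp0 : p 0 = 0 := hch.1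
  have hq0 : q 0 = b.length := hch.2.1
  have hqn : q n ≤ p n + κ := hch.2.2.2.2.1
  have hqn' := hch.q_le (le_refl n)
  rcases hL with hL | hL
  · rcases hR with hR | hR
    · apply le_max_of_le_right
      omega
    · have h1 := hIR hR 0 n (Nat.zero_le _) le_rfl (by omega)
      apply le_max_of_le_right
      omega
  · rcases hR with hR | hR
    · have h1 := hIL hL 0 n (Nat.zero_le _) le_rfl (by omega)
      apply le_max_of_le_right
      omega
    · -- both sides of finite type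
      apply le_max_of_le_left
      refine hKe x b y hs ?_ ?_ ?_ ?_ n t p q hch ?_
      · rw [← he2]
        exact hN1
      · rw [← he2]
        exact hN2
      · rw [← he2]
        exact hSe1.1 x (b ++ y) (by rw [← List.append_assoc]; exact hs) hL
      · have h1 := hSe2.1 y.reverse (b.reverse ++ x.reverse)
          (by rw [← List.append_assoc]; exact hsr) (by rw [hyinv]; exact hR)
        rw [hyinv, Gp_mir, hym, normC_mul hs.mem_Gp, he2] at h1
        exact h1
      · intro i j hij hj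
        have h1 := hlip n κ Λ p (fun i => b.length - q i) ?_ ?_ ?_ i j hij hj
        · have hqi := hch.q_le (hij.trans hj)
          have hqj := hch.q_le hj
          have e : b.length - q j - (b.length - q i) = q i - q j := by omega
          simp only [e] at h1
          exact h1
        · intro i hi
          have h1 := hch.2.2.1 i hi
          have hqi := hch.q_le hi.le
          have hqi' := hch.q_le (i := i + 1) hi
          omega
        · intro i j hij hj h1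
          have hqi := hch.q_le (hij.trans hj)
          have hqj := hch.q_le hj
          exact hIL hL i j hij hj (by omega)
        · intro i j hij hj h1
          have hqi := hch.q_le (hij.trans hj)
          have hqj := hch.q_le hj
          have := hIR hR i j hij hj (by omega)
          omega

end Pool.Agent.L0h34.CW
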