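import Pool.Agent.L0h34.CW.Defs

/-! Module LOOP. -/

set_option autoImplicit false

namespace Pool.Agent.L0h34.CW

open Pointwise

/-- nonempty paths whose intermediate states lie in `T` -/
inductive RP {Q A : Type} (step : Q → A → Q → Prop) (T : Set Q) : Q → List A → Q → Prop
  | one {a b : Q} {x : A} : step a x b → RP step T a [x] b
  | cons {a c b : Q} {x : A} {w : List A} :
      step a x c → c ∈ T → RP step T c w b → RP step T a (x :: w) b

theorem RP.pth {Q A : Type} {step : Q → A → Q → Prop} {T : Set Q} {a b : Q} {w : List A}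
    (h : RP step T a w b) : Pth step a w b := by
  induction h with
  | one h => exact .cons h (.nil _)
  | cons h _ _ ih => exact .cons h ih

theorem RP.of_pth {Q A : Type} {step : Q → A → Q → Prop} {a b : Q} {w : List A}
    (h : Pth step a w b) : (w = [] ∧ a = b) ∨ RP step Set.univ a w b := by
  induction h with
  | nil => exact Or.inl ⟨rfl, rfl⟩
  | cons h1 _ ih =>
    right
    rcases ih with ⟨rfl, rfl⟩ | ih
    · exact .one h1
    · exact .cons h1 (Set.mem_univ _) ih

theorem RP.split {Q A : Type} {step : Q → A → Q → Prop} {T : Set Q} {c a b : Q} {w : List A}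
    (h : RP step (insert c T) a w b) : RP step T a w b ∨
      ∃ (u : List A) (ws : List (List A)) (v : List A), RP step T a u c ∧
        (∀ y ∈ ws, RP step T c y c) ∧ RP step T c v b ∧ w = u ++ (ws.flatten ++ v) := by
  induction h with
  | one h => exact Or.inl (.one h)
  | cons h hc _ ih =>
    rcases Set.mem_insert_iff.1 hc with rfl | hc
    · right
      rcases ih with ih | ⟨u, ws, v, hu, hws, hv, rfl⟩
      · exact ⟨_, [], _, .one h, by simp, ih, by simp⟩
      · refine ⟨_, u :: ws, v, .one h, ?_, hv, by simp⟩
        intro y hy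
        rcases List.mem_cons.1 hy with rfl | hy
        · exact hu
        · exact hws y hy
    · rcases ih with ih | ⟨u, ws, v, hu, hws, hv, rfl⟩
      · exact Or.inl (.cons h hc ih)
      · exact Or.inr ⟨_, ws, v, .cons h hc hu, hws, hv, by simp⟩

theorem loop : S_LOOP := by
  intro Q A K _ _ _ step ψ hinf
  by_contra hcon
  push Not at hcon
  have hfin : ∀ (q : Q) (Λ : Finset (List A)), (∀ w ∈ Λ, Pth step q w q) →
      ((Submonoid.closure {k | ∃ w ∈ Λ, k = (w.map ψ).prod} : Submonoid K) : Set K).Finite :=
    hcon
  have hfin' : ∀ (q : Q) (S : Set K), S.Finite → (∀ k ∈ S, ∃ w, Pth step q w q ∧ k = (w.map ψ).prod) →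
      ((Submonoid.closure S : Submonoid K) : Set K).Finite := by
    classical
    intro q S hS h
    choose! W hW1 hW2 using h
    refine (hfin q (hS.toFinset.image W) ?_).subset ?_
    · intro w hw
      obtain ⟨k, hk, rfl⟩ := Finset.mem_image.1 hw
      exact hW1 k (hS.mem_toFinset.1 hk)
    · apply Submonoid.closure_mono
      intro k hk
      exact ⟨W k, Finset.mem_image.2 ⟨k, hS.mem_toFinset.2 hk, rfl⟩, hW2 k hk⟩
  have key : ∀ T : Set Q, T.Finite → ∀ a b : Q,
      {k : K | ∃ w, RP step T a w b ∧ k = (w.map ψ).prod}.Finite := by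
    intro T hT
    induction T, hT using Set.Finite.induction_on with
    | empty =>
      intro a b
      refine (Set.finite_range ψ).subset ?_
      rintro k ⟨w, hw, rfl⟩
      cases hw with
      | @one _ _ x h => exact ⟨x, by simp⟩
      | cons _ h _ => exact h.elim
    | @insert c T _ _ ih =>
      intro a b
      have h1 : ((Submonoid.closure {k : K | ∃ w, RP step T c w c ∧ k = (w.map ψ).prod} :
          Submonoid K) : Set K).Finite := by
        refine hfin' c _ (ih c c) ?_
        rintro k ⟨w, hw, rfl⟩
        exact ⟨w, hw.pth, rfl⟩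
      refine ((ih a b).union ((ih a c).mul (h1.mul (ih c b)))).subset ?_
      rintro k ⟨w, hw, rfl⟩
      rcases hw.split with h | ⟨u, ws, v, hu, hws, hv, rfl⟩
      · exact Or.inl ⟨w, h, rfl⟩
      · right
        rw [List.map_append, List.prod_append, List.map_append, List.prod_append]
        refine Set.mul_mem_mul ⟨u, hu, rfl⟩ (Set.mul_mem_mul ?_ ⟨v, hv, rfl⟩)
        clear hw
        induction ws with
        | nil => simp
        | cons y ws ihw =>
          rw [List.flatten_cons, List.map_append, List.prod_append]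
          exact Submonoid.mul_mem _ (Submonoid.subset_closure ⟨y, hws y (by simp), rfl⟩)
            (ihw fun z hz => hws z (by simp [hz]))
  apply hinf
  have h2 : (⋃ a : Q, ⋃ b : Q, {k : K | ∃ w, RP step Set.univ a w b ∧ k = (w.map ψ).prod}).Finite :=
    Set.finite_iUnion fun a => Set.finite_iUnion fun b => key _ Set.finite_univ a b
  refine (h2.union (Set.finite_singleton (1 : K))).subset ?_
  rintro k ⟨q, w, q', hw, rfl⟩
  rcases RP.of_pth hw with ⟨rfl, rfl⟩ | h
  · right
    simp
  · left
    exact Set.mem_iUnion.2 ⟨q, Set.mem_iUnion.2 ⟨q', w, h, rfl⟩⟩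

end Pool.Agent.L0h34.CW
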