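import Pool.Agent.L0h34.CW.Basics

/-! The induction over the nonterminals and the main theorem, from the module statements. -/

set_option autoImplicit false

namespace Pool.Agent.L0h34.CW

section
variable {A G : Type} [Group G] {f : A → G} {g : BG A}

theorem Bdd.mono {Δ Δ' : Finset (List A)} (hΔ : Fine Δ' Δ) {B : g.N} (h : Bdd g f Δ B) :
    Bdd g f Δ' B := by
  obtain ⟨K, hK⟩ := h
  exact ⟨K, fun x b y hs htd => hK x b y (Star.of_fine hΔ hs) (htd.mono (Gp_mono hΔ))⟩

theorem rank_lt {B C : g.N} (h : Rch g B C) (h' : ¬ Rch g C B) :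
    {D | Rch g C D}.ncard < {D | Rch g B D}.ncard := by
  have hfin : Finite g.N := g.fin
  refine Set.ncard_lt_ncard ?_ (Set.toFinite _)
  refine (Set.ssubset_iff_of_subset ?_).2 ⟨B, Rch.refl B, h'⟩
  intro D hD
  exact h.trans hD

theorem all_bdd [Finite A] (hstage : S_STAGE) (hG : Tors G) (Δ₀ : Finset (List A))
    (h0 : Nice Δ₀) (hinf : (Gp f Δ₀ : Set G).Infinite) :
    ∃ Δ, Nice Δ ∧ (Gp f Δ : Set G).Infinite ∧ ∀ B : g.N, Bdd g f Δ B := by
  classical
  have hfin : Finite g.N := g.fin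
  have key : ∀ t : ℕ, ∃ Δ, Fine Δ Δ₀ ∧ (Gp f Δ : Set G).Infinite ∧
      ∀ B : g.N, {D | Rch g B D}.ncard < t → Bdd g f Δ B := by
    intro t
    induction t with
    | zero => exact ⟨Δ₀, Fine.refl h0, hinf, fun B hB => absurd hB (Nat.not_lt_zero _)⟩
    | succ t ih =>
      obtain ⟨Δ₁, h1, h2, h3⟩ := ih
      have key2 : ∀ T : Finset g.N, (∀ B ∈ T, {D | Rch g B D}.ncard = t) →
          ∃ Δ, Fine Δ Δ₁ ∧ (Gp f Δ : Set G).Infinite ∧ ∀ B ∈ T, Bdd g f Δ B := by
        intro T
        induction T using Finset.induction_on with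
        | empty => intro _; exact ⟨Δ₁, Fine.refl h1.1, h2, fun B hB => by simp at hB⟩
        | insert B T hB ih2 =>
          intro hT
          obtain ⟨Δ₂, h4, h5, h6⟩ := ih2 fun C hC => hT C (Finset.mem_insert_of_mem hC)
          obtain ⟨Δ₃, h7, h8, h9⟩ := hstage A G hG g f Δ₂ h4.1 h5 B (fun C hC hC' =>
            (h3 C ((rank_lt hC hC').trans_eq (hT B (Finset.mem_insert_self _ _)))).mono h4)
          refine ⟨Δ₃, h7.trans h4, h8, ?_⟩
          intro C hC
          rcases Finset.mem_insert.1 hC with rfl | hC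
          · exact h9
          · exact (h6 C hC).mono h7
      have hF := Fintype.ofFinite g.N
      obtain ⟨Δ₂, h4, h5, h6⟩ := key2 (Finset.univ.filter fun B => {D | Rch g B D}.ncard = t)
        (fun B hB => (Finset.mem_filter.1 hB).2)
      refine ⟨Δ₂, h4.trans h1, h5, ?_⟩
      intro B hB
      rcases Nat.lt_succ_iff_lt_or_eq.1 hB with h | h
      · exact (h3 B h).mono h4
      · exact h6 B (Finset.mem_filter.2 ⟨Finset.mem_univ _, h⟩)
  obtain ⟨Δ, h1, h2, h3⟩ := key ((Set.univ : Set g.N).ncard + 1)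
  refine ⟨Δ, h1.1, h2, fun B => h3 B ?_⟩
  exact Nat.lt_succ_of_le (Set.ncard_le_ncard (Set.subset_univ _) (Set.toFinite _))

end

theorem main (hgram : S_GRAM) (hstage : S_STAGE) (hcontra : S_CONTRA) : S_MAIN := by
  intro A G _ _ hG f hf hcf
  classical
  by_contra hinf
  rw [not_finite_iff_infinite] at hinf
  obtain ⟨g, S, hgS⟩ := hgram A _ hcf
  have hF := Fintype.ofFinite A
  let Δ₀ : Finset (List A) := Finset.univ.image fun a => [a]
  have h0 : Nice Δ₀ := by
    intro d hd
    obtain ⟨a, _, rfl⟩ := Finset.mem_image.1 hd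
    simp
  have hall : ∀ w : List A, Star Δ₀ w := by
    intro w
    induction w with
    | nil => exact Star.nil
    | cons a w ih =>
      have : a :: w = [a] ++ w := rfl
      rw [this]
      exact (Star.of_mem (Finset.mem_image.2 ⟨a, Finset.mem_univ _, rfl⟩)).append ih
  have hH : (Gp f Δ₀ : Set G).Infinite := by
    have : (Gp f Δ₀ : Set G) = Set.univ := by
      refine Set.eq_univ_of_forall fun x => ?_
      obtain ⟨w, rfl⟩ := hf x
      exact (hall w).mem_Gp
    rw [this]
    exact Set.infinite_univ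
  obtain ⟨Δ, h1, h2, h3⟩ := all_bdd (g := g) hstage hG Δ₀ h0 hH
  exact hcontra A G hG g f S (fun w => (hgS w).symm.trans Iff.rfl) Δ h1 h2 (h3 S)

end Pool.Agent.L0h34.CW
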