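import Pool.Agent.L0h34.CW.Defs

/-! Module MAT. -/

set_option autoImplicit false

namespace Pool.Agent.L0h34.CW

namespace MatM

theorem up1 {f : ℕ → ℕ} {κ a b x : ℕ} (hab : a ≤ b) :
    (∀ t, a ≤ t → t < b → f t ≤ f (t + 1) ∧ f (t + 1) ≤ f t + κ) → f a ≤ x → x ≤ f b →
    ∃ t, a ≤ t ∧ t ≤ b ∧ x ≤ f t ∧ f t ≤ x + κ := by
  induction b, hab using Nat.le_induction with
  | base => intro _ h1 h2; exact ⟨a, le_rfl, le_rfl, h2, by omega⟩
  | succ b hab ih =>
    intro h h1 h2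
    rcases le_or_gt x (f b) with h3 | h3
    · obtain ⟨t, ht1, ht2, ht3⟩ := ih (fun t g1 g2 => h t g1 (by omega)) h1 h3
      exact ⟨t, ht1, by omega, ht3⟩
    · have := h b hab (by omega)
      exact ⟨b + 1, by omega, le_rfl, h2, by omega⟩

theorem up2 {f : ℕ → ℕ} {κ a b x : ℕ} (hab : a ≤ b) :
    (∀ t, a ≤ t → t < b → f t ≤ f (t + 1) ∧ f (t + 1) ≤ f t + κ) → f a ≤ x → x ≤ f b →
    ∃ t, a ≤ t ∧ t ≤ b ∧ f t ≤ x ∧ x ≤ f t + κ := by
  induction b, hab using Nat.le_induction with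
  | base => intro _ h1 h2; exact ⟨a, le_rfl, le_rfl, h1, by omega⟩
  | succ b hab ih =>
    intro h h1 h2
    rcases le_or_gt x (f b) with h3 | h3
    · obtain ⟨t, ht1, ht2, ht3⟩ := ih (fun t g1 g2 => h t g1 (by omega)) h1 h3
      exact ⟨t, ht1, by omega, ht3⟩
    · have := h b hab (by omega)
      exact ⟨b, hab, by omega, h3.le, by omega⟩

theorem dn1 {f : ℕ → ℕ} {κ a b x : ℕ} (hab : a ≤ b) :
    (∀ t, a ≤ t → t < b → f (t + 1) ≤ f t ∧ f t ≤ f (t + 1) + κ) → x ≤ f a → f b ≤ x →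
    ∃ t, a ≤ t ∧ t ≤ b ∧ x ≤ f t ∧ f t ≤ x + κ := by
  induction b, hab using Nat.le_induction with
  | base => intro _ h1 h2; exact ⟨a, le_rfl, le_rfl, h1, by omega⟩
  | succ b hab ih =>
    intro h h1 h2
    rcases le_or_gt (f b) x with h3 | h3
    · obtain ⟨t, ht1, ht2, ht3⟩ := ih (fun t g1 g2 => h t g1 (by omega)) h1 h3
      exact ⟨t, ht1, by omega, ht3⟩
    · have := h b hab (by omega)
      exact ⟨b, hab, by omega, h3.le, by omega⟩

theorem dn2 {f : ℕ → ℕ} {κ a b x : ℕ} (hab : a ≤ b) :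
    (∀ t, a ≤ t → t < b → f (t + 1) ≤ f t ∧ f t ≤ f (t + 1) + κ) → x ≤ f a → f b ≤ x →
    ∃ t, a ≤ t ∧ t ≤ b ∧ f t ≤ x ∧ x ≤ f t + κ := by
  induction b, hab using Nat.le_induction with
  | base => intro _ h1 h2; exact ⟨a, le_rfl, le_rfl, h2, by omega⟩
  | succ b hab ih =>
    intro h h1 h2
    rcases le_or_gt (f b) x with h3 | h3
    · obtain ⟨t, ht1, ht2, ht3⟩ := ih (fun t g1 g2 => h t g1 (by omega)) h1 h3
      exact ⟨t, ht1, by omega, ht3⟩
    · have := h b hab (by omega)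
      exact ⟨b + 1, by omega, le_rfl, h2, by omega⟩

/-- all hypotheses -/
structure Land (C κ o m n : ℕ) (τ s e P Q : ℕ → ℕ) : Prop where
  s0 : s 0 = 0
  hg : ∀ k < m, e k = s k + τ (k % 3) ∧ e k ≤ s (k + 1) ∧ s (k + 1) ≤ e k + o
  hp : ∀ i < n, P i ≤ P (i + 1) ∧ P (i + 1) ≤ P i + κ ∧ Q (i + 1) ≤ Q i ∧ Q i ≤ Q (i + 1) + κ
  hPQ : P n ≤ Q n
  hQ : Q 0 ≤ s m
  lip : Lip C n P Q
  x1 : ∀ i j, i ≤ j → j ≤ n → ∀ k < m, P i ≤ e k → s (k + 1) ≤ P j → ∀ l < m,
    ¬ (s l ≤ Q j ∧ Q i ≤ e l)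
  x2 : ∀ i j, i ≤ j → j ≤ n → ∀ k < m, Q j ≤ e k → s (k + 1) ≤ Q i → ∀ l < m,
    ¬ (s l ≤ P i ∧ P j ≤ e l)
  big : ∀ k, 2 * κ + C * o + C < τ (k % 3)
  cmp : ∀ k l, l % 3 < k % 3 → 2 * κ + (C * (τ (l % 3) + 2 * o) + C) < τ (k % 3)

variable {C κ o m n : ℕ} {τ s e P Q : ℕ → ℕ}

theorem Land.smono (L : Land C κ o m n τ s e P Q) {k l : ℕ} (h : k ≤ l) (hl : l ≤ m) :
    s k ≤ s l := by
  induction l, h using Nat.le_induction with
  | base => exact le_rfl
  | succ l _ ih =>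
    have := L.hg l (by omega)
    exact (ih (by omega)).trans (by omega)

theorem Land.pmono (L : Land C κ o m n τ s e P Q) {i j : ℕ} (h : i ≤ j) (hj : j ≤ n) :
    P i ≤ P j := by
  induction j, h using Nat.le_induction with
  | base => exact le_rfl
  | succ l _ ih => exact (ih (by omega)).trans (L.hp l (by omega)).1

theorem Land.qanti (L : Land C κ o m n τ s e P Q) {i j : ℕ} (h : i ≤ j) (hj : j ≤ n) :
    Q j ≤ Q i := by
  induction j, h using Nat.le_induction with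
  | base => exact le_rfl
  | succ l _ ih => exact (L.hp l (by omega)).2.2.1.trans (ih (by omega))

theorem Land.locate (L : Land C κ o m n τ s e P Q) {a : ℕ} (ha : a < s m) :
    ∃ l < m, s l ≤ a ∧ a < s (l + 1) := by
  classical
  have hex : ∃ l, a < s l := ⟨m, ha⟩
  have h1 := Nat.find_spec hex
  have h2 : Nat.find hex ≤ m := Nat.find_min' hex ha
  have h3 : Nat.find hex ≠ 0 := by
    intro h0
    rw [h0, L.s0] at h1
    omega
  have h4 := Nat.find_min hex (m := Nat.find hex - 1) (by omega)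
  refine ⟨Nat.find hex - 1, by omega, by omega, ?_⟩
  rwa [Nat.sub_add_cancel (by omega)]

theorem Land.lemA (L : Land C κ o m n τ s e P Q) {a b : ℕ} (hab : a + o < b) (hb : b ≤ s m)
    (hno : ∀ l < m, ¬ (a ≤ e l ∧ s (l + 1) ≤ b)) :
    ∃ l < m, s l ≤ b ∧ a ≤ e l ∧ b ≤ a + (τ (l % 3) + 2 * o) := by
  obtain ⟨l, hl, h1, h2⟩ := L.locate (a := a) (by omega)
  have g := L.hg l hl
  rcases le_or_gt a (e l) with h | h
  · have h3 := hno l hl
    exact ⟨l, hl, by omega, h, by omega⟩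
  · have hlm : l + 1 < m := by
      by_contra hc
      have : l + 1 = m := by omega
      rw [this] at g
      omega
    have g2 := L.hg (l + 1) hlm
    have h3 := hno (l + 1) hlm
    exact ⟨l + 1, hlm, by omega, by omega, by omega⟩

theorem Land.t1 (L : Land C κ o m n τ s e P Q) {i j k : ℕ} (hij : i ≤ j) (hj : j ≤ n) (hk : k < m)
    (h1 : s k ≤ P i) (h2 : P j ≤ e k) (h3 : τ (k % 3) + P i ≤ P j + 2 * κ) :
    ∃ l < m, ∃ t, i ≤ t ∧ t ≤ j ∧ s l ≤ Q t ∧ Q t ≤ e l ∧ k % 3 ≤ l % 3 := by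
  have hl := (L.lip i j hij hj).1
  have hb := L.big k
  have hPij := L.pmono hij hj
  have hQij := L.qanti hij hj
  have hgap : Q j + o < Q i := by
    by_contra hc
    have h4 : C * (Q i - Q j) ≤ C * o := Nat.mul_le_mul_left C (by omega)
    omega
  have hQi : Q i ≤ s m := (L.qanti (Nat.zero_le i) (hij.trans hj)).trans L.hQ
  obtain ⟨l, hlm, g1, g2, g3⟩ := L.lemA hgap hQi fun l hl hc =>
    L.x2 i j hij hj l hl hc.1 hc.2 k hk ⟨h1, h2⟩
  have gl := L.hg l hlm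
  have hbl := L.big l
  have hcl : k % 3 ≤ l % 3 := by
    by_contra hc
    have h4 := L.cmp k l (by omega)
    have h5 : C * (Q i - Q j) ≤ C * (τ (l % 3) + 2 * o) := Nat.mul_le_mul_left C (by omega)
    omega
  rcases le_or_gt (s l) (Q j) with h | h
  · exact ⟨l, hlm, j, hij, le_rfl, h, g2, hcl⟩
  · obtain ⟨t, t1, t2, t3, t4⟩ := dn1 (f := Q) (κ := κ) (x := s l) hij
      (fun t _ ht => ⟨(L.hp t (by omega)).2.2.1, (L.hp t (by omega)).2.2.2⟩) g1 h.le
    exact ⟨l, hlm, t, t1, t2, t3, by omega, hcl⟩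

theorem Land.t2 (L : Land C κ o m n τ s e P Q) {i j l : ℕ} (hij : i ≤ j) (hj : j ≤ n) (hl : l < m)
    (h1 : s l ≤ Q j) (h2 : Q i ≤ e l) (h3 : τ (l % 3) + Q j ≤ Q i + 2 * κ) :
    ∃ k < m, ∃ t, i ≤ t ∧ t ≤ j ∧ s k ≤ P t ∧ P t ≤ e k ∧ l % 3 ≤ k % 3 := by
  have hl' := (L.lip i j hij hj).2
  have hb := L.big l
  have hPij := L.pmono hij hj
  have hQij := L.qanti hij hj
  have hgap : P i + o < P j := by
    by_contra hc
    have h4 : C * (P j - P i) ≤ C * o := Nat.mul_le_mul_left C (by omega)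
    omega
  have hPj : P j ≤ s m := by
    have a1 := L.pmono hj le_rfl
    have a2 := L.qanti (Nat.zero_le n) le_rfl
    have a3 := L.hPQ
    have a4 := L.hQ
    omega
  obtain ⟨k, hkm, g1, g2, g3⟩ := L.lemA hgap hPj fun k hk hc =>
    L.x1 i j hij hj k hk hc.1 hc.2 l hl ⟨h1, h2⟩
  have gk := L.hg k hkm
  have hbk := L.big k
  have hck : l % 3 ≤ k % 3 := by
    by_contra hc
    have h4 := L.cmp l k (by omega)
    have h5 : C * (P j - P i) ≤ C * (τ (k % 3) + 2 * o) := Nat.mul_le_mul_left C (by omega)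
    omega
  rcases le_or_gt (s k) (P i) with h | h
  · exact ⟨k, hkm, i, le_rfl, hij, h, g2, hck⟩
  · obtain ⟨t, t1, t2, t3, t4⟩ := up1 (f := P) (κ := κ) (x := s k) hij
      (fun t _ ht => ⟨(L.hp t (by omega)).1, (L.hp t (by omega)).2.1⟩) h.le g1
    exact ⟨k, hkm, t, t1, t2, t3, by omega, hck⟩

theorem Land.b1 (L : Land C κ o m n τ s e P Q) {a b k : ℕ} (hab : a ≤ b) (hb : b ≤ n) (hk : k < m)
    (h1 : P a ≤ s k) (h2 : e k ≤ P b) :
    ∃ i j, a ≤ i ∧ i ≤ j ∧ j ≤ b ∧ s k ≤ P i ∧ P j ≤ e k ∧ τ (k % 3) + P i ≤ P j + 2 * κ := by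
  have gk := L.hg k hk
  have hbk := L.big k
  obtain ⟨i, i1, i2, i3, i4⟩ := up1 (f := P) (κ := κ) (x := s k) hab
    (fun t _ ht => ⟨(L.hp t (by omega)).1, (L.hp t (by omega)).2.1⟩) h1 (by omega)
  obtain ⟨j, j1, j2, j3, j4⟩ := up2 (f := P) (κ := κ) (x := e k) i2
    (fun t _ ht => ⟨(L.hp t (by omega)).1, (L.hp t (by omega)).2.1⟩) (by omega) h2
  exact ⟨i, j, i1, j1, j2, i3, j3, by omega⟩

theorem Land.b2 (L : Land C κ o m n τ s e P Q) {a b l : ℕ} (hab : a ≤ b) (hb : b ≤ n) (hl : l < m)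
    (h1 : e l ≤ Q a) (h2 : Q b ≤ s l) :
    ∃ i j, a ≤ i ∧ i ≤ j ∧ j ≤ b ∧ s l ≤ Q j ∧ Q i ≤ e l ∧ τ (l % 3) + Q j ≤ Q i + 2 * κ := by
  have gk := L.hg l hl
  have hbk := L.big l
  obtain ⟨i, i1, i2, i3, i4⟩ := dn2 (f := Q) (κ := κ) (x := e l) hab
    (fun t _ ht => ⟨(L.hp t (by omega)).2.2.1, (L.hp t (by omega)).2.2.2⟩) h1 (by omega)
  obtain ⟨j, j1, j2, j3, j4⟩ := dn1 (f := Q) (κ := κ) (x := s l) i2
    (fun t _ ht => ⟨(L.hp t (by omega)).2.2.1, (L.hp t (by omega)).2.2.2⟩) (by omega) h2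
  exact ⟨i, j, i1, j1, j2, j3, i3, by omega⟩

/-- at the time `t` the left point is in gap `k` and the right point in gap `l` -/
def Tch (s e P Q : ℕ → ℕ) (n k l t : ℕ) : Prop :=
  t ≤ n ∧ s k ≤ P t ∧ P t ≤ e k ∧ s l ≤ Q t ∧ Q t ≤ e l

theorem Land.u1 (L : Land C κ o m n τ s e P Q) {k k' l t t' : ℕ} (hk' : k' < m)
    (hl : l < m) (h : Tch s e P Q n k l t) (h' : Tch s e P Q n k' l t') (hkk : k < k') : False := by
  obtain ⟨a1, a2, a3, a4, a5⟩ := h
  obtain ⟨b1, b2, b3, b4, b5⟩ := h'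
  have gk := L.hg k (by omega)
  have hs := L.smono (k := k + 1) (l := k') hkk hk'.le
  rcases le_total t t' with htt | htt
  · exact L.x1 t t' htt b1 k (by omega) a3 (by omega) l hl ⟨b4, a5⟩
  · have := L.pmono htt a1
    exact L.x1 t' t' le_rfl b1 k (by omega) (by omega) (by omega) l hl ⟨b4, b5⟩

theorem Land.u2 (L : Land C κ o m n τ s e P Q) {k l l' t t' : ℕ} (hk : k < m)
    (hl' : l' < m) (h : Tch s e P Q n k l t) (h' : Tch s e P Q n k l' t') (hll : l < l') :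
    False := by
  obtain ⟨a1, a2, a3, a4, a5⟩ := h
  obtain ⟨b1, b2, b3, b4, b5⟩ := h'
  have gl := L.hg l (by omega)
  have hs := L.smono (k := l + 1) (l := l') hll hl'.le
  rcases le_total t' t with htt | htt
  · exact L.x2 t' t htt a1 l (by omega) a5 (by omega) k hk ⟨b2, a3⟩
  · have := L.qanti htt b1
    exact L.x2 t' t' le_rfl b1 l (by omega) (by omega) (by omega) k hk ⟨b2, b3⟩

/-- the order of the times -/
theorem Land.time (L : Land C κ o m n τ s e P Q) {k k' l l' t t' : ℕ} (hk' : k' < m) (hl : l < m)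
    (h : Tch s e P Q n k l t) (h' : Tch s e P Q n k' l' t') (hkk : k < k') : t ≤ t' := by
  by_contra hc
  obtain ⟨a1, a2, a3, a4, a5⟩ := h
  obtain ⟨b1, b2, b3, b4, b5⟩ := h'
  have gk := L.hg k (by omega)
  have hs := L.smono (k := k + 1) (l := k') hkk hk'.le
  have := L.pmono (by omega : t' ≤ t) a1
  exact L.x1 t t le_rfl a1 k (by omega) a3 (by omega) l hl ⟨a4, a5⟩

theorem Land.step (L : Land C κ o m n τ s e P Q) {k l l' t t' : ℕ} (hk : k + 1 < m)
    (hl : l < m) (hl' : l' < m) (h : Tch s e P Q n k l t) (h' : Tch s e P Q n (k + 1) l' t') :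
    l = l' + 1 := by
  have htt := L.time hk hl h h' (by omega)
  have h0 := h
  have h0' := h'
  obtain ⟨a1, a2, a3, a4, a5⟩ := h
  obtain ⟨b1, b2, b3, b4, b5⟩ := h'
  rcases lt_trichotomy l l' with hll | hll | hll
  · exfalso
    have gl := L.hg l (by omega)
    have hs := L.smono (k := l + 1) (l := l') hll hl'.le
    have := L.qanti htt b1
    exact L.x2 t t le_rfl a1 l (by omega) (by omega) (by omega) k (by omega) ⟨a2, a3⟩
  · exfalso
    subst hll
    exact L.u1 hk hl h0 h0' (by omega)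
  · by_contra hne
    have hg : l - 1 < m := by omega
    have g1 := L.hg (l - 1) hg
    rw [Nat.sub_add_cancel (by omega : 1 ≤ l)] at g1
    have g2 := L.hg l' hl'
    have g3 := L.smono (k := l' + 1) (l := l - 1) (by omega) hg.le
    obtain ⟨i, j, i1, i2, i3, i4, i5, i6⟩ := L.b2 htt b1 hg (by omega) (by omega)
    obtain ⟨k'', hk'', t'', t1, t2, t3, t4, _⟩ := L.t2 i2 (by omega) hg i4 i5 i6
    have q1 : Q t'' ≤ Q i := L.qanti t1 (by omega)
    have q2 : Q j ≤ Q t'' := L.qanti t2 (by omega)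
    have p1 : P t ≤ P t'' := L.pmono (by omega) (by omega)
    have p2 : P t'' ≤ P t' := L.pmono (by omega) b1
    have hT : Tch s e P Q n k'' (l - 1) t'' := ⟨by omega, t3, t4, by omega, by omega⟩
    rcases lt_trichotomy k'' k with h5 | h5 | h5
    · have g4 := L.hg k'' hk''
      have g5 := L.smono (k := k'' + 1) (l := k) h5 (by omega)
      exact L.x1 t'' t'' le_rfl (by omega) k'' hk'' t4 (by omega) (l - 1) hg
        ⟨by omega, by omega⟩
    · subst h5
      exact L.u2 hk'' hl hT h0 (by omega)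
    · rcases Nat.lt_or_ge (k + 1) k'' with h6 | h6
      · have g4 := L.hg (k + 1) hk
        have g5 := L.smono (k := k + 1 + 1) (l := k'') h6 hk''.le
        exact L.x1 t'' t'' le_rfl (by omega) (k + 1) hk (by omega) (by omega) (l - 1) hg
          ⟨by omega, by omega⟩
      · have h7 : k'' = k + 1 := by omega
        subst h7
        exact L.u2 hk'' hg h0' hT (by omega)

theorem Land.main (L : Land C κ o m n τ s e P Q) {k : ℕ} (hk : k + 4 ≤ m) (h1 : P 0 ≤ s k)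
    (h2 : e (k + 3) ≤ P n) : False := by
  have hT : ∀ r, r ≤ 3 → ∃ l < m, ∃ t, Tch s e P Q n (k + r) l t ∧ (k + r) % 3 ≤ l % 3 := by
    intro r hr
    have g1 := L.smono (k := k) (l := k + r) (by omega) (by omega)
    have g2 : e (k + r) ≤ e (k + 3) := by
      rcases Nat.lt_or_ge r 3 with h | h
      · have g3 := L.hg (k + r) (by omega)
        have g4 := L.hg (k + 3) (by omega)
        have g5 := L.smono (k := k + r + 1) (l := k + 3) (by omega) (by omega)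
        omega
      · have : r = 3 := by omega
        rw [this]
    obtain ⟨i, j, i1, i2, i3, i4, i5, i6⟩ := L.b1 (Nat.zero_le n) le_rfl
      (by omega : k + r < m) (by omega) (by omega)
    obtain ⟨l, hl, t, t1, t2, t3, t4, t5⟩ := L.t1 i2 i3 (by omega : k + r < m) i4 i5 i6
    have p1 : P i ≤ P t := L.pmono t1 (by omega)
    have p2 : P t ≤ P j := L.pmono t2 (by omega)
    exact ⟨l, hl, t, ⟨by omega, by omega, by omega, t3, t4⟩, t5⟩
  obtain ⟨l0, hl0, t0, T0, c0⟩ := hT 0 (by omega)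
  obtain ⟨l1, hl1, t1, T1, c1⟩ := hT 1 (by omega)
  obtain ⟨l2, hl2, t2, T2, c2⟩ := hT 2 (by omega)
  obtain ⟨l3, hl3, t3, T3, c3⟩ := hT 3 (by omega)
  have e01 := L.step (k := k) (by omega) hl0 hl1 T0 T1
  have e12 := L.step (k := k + 1) (by omega) hl1 hl2 T1 T2
  have e23 := L.step (k := k + 2) (by omega) hl2 hl3 T2 T3
  -- the middle gaps are fully traversed on the right
  have mid : ∀ {ka kb a b g t t' : ℕ} (_ : g < m) (_ : a < m) (_ : b < m) (_ : a = g + 1)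
      (_ : g = b + 1) (_ : Tch s e P Q n ka a t) (_ : Tch s e P Q n kb b t') (kg : ℕ) (_ : kg < m)
      (tg : ℕ) (_ : Tch s e P Q n kg g tg), g % 3 ≤ kg % 3 := by
    intro ka kb a b g t t' hg ha hb e1 e2 Ta Tb kg hkg tg Tg
    obtain ⟨a1, _, _, a4, _⟩ := Ta
    obtain ⟨b1, _, _, _, b5⟩ := Tb
    have g1 := L.hg g hg
    rw [← e1] at g1
    have g2 := L.hg b hb
    rw [← e2] at g2
    have q1 : Q t ≤ Q 0 := L.qanti (Nat.zero_le _) a1
    have q2 : Q n ≤ Q t' := L.qanti b1 le_rfl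
    obtain ⟨i, j, i1, i2, i3, i4, i5, i6⟩ := L.b2 (Nat.zero_le n) le_rfl hg (by omega) (by omega)
    obtain ⟨k'', hk'', t'', u1, u2, u3, u4, u5⟩ := L.t2 i2 i3 hg i4 i5 i6
    have v1 : Q t'' ≤ Q i := L.qanti u1 (by omega)
    have v2 : Q j ≤ Q t'' := L.qanti u2 (by omega)
    have hT : Tch s e P Q n k'' g t'' := ⟨by omega, u3, u4, by omega, by omega⟩
    rcases lt_trichotomy k'' kg with h5 | h5 | h5
    · exact (L.u1 hkg hg hT Tg h5).elim
    · rw [← h5]; exact u5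
    · exact (L.u1 hk'' hg Tg hT h5).elim
  have m1 := mid hl1 hl0 hl2 e01 e12 T0 T2 (k + 1) (by omega) t1 T1
  have m2 := mid hl2 hl1 hl3 e12 e23 T1 T3 (k + 2) (by omega) t2 T2
  omega

end MatM

open MatM in
theorem mat : S_MAT := by
  intro C κ o
  refine ⟨fun x => (C + 1) * (x + 2 * o + 1) + 2 * κ, ?_⟩
  intro τ h0 h1 h2
  refine ⟨5 * (τ 2 + o), ?_⟩
  intro m s e hs0 hg n P Q hp hPQ hQ hlip hx1 hx2
  have hF : ∀ x, 2 * κ + (C * (x + 2 * o) + C) < (C + 1) * (x + 2 * o + 1) + 2 * κ := by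
    intro x; ring_nf; omega
  have hFx : ∀ x, x ≤ (C + 1) * (x + 2 * o + 1) + 2 * κ := by
    intro x
    nlinarith [Nat.zero_le (C * (x + 2 * o + 1))]
  have hFm : ∀ x y, x ≤ y → (C + 1) * (x + 2 * o + 1) + 2 * κ ≤ (C + 1) * (y + 2 * o + 1) + 2 * κ := by
    intro x y hxy
    have : (C + 1) * (x + 2 * o + 1) ≤ (C + 1) * (y + 2 * o + 1) := Nat.mul_le_mul_left _ (by omega)
    omega
  simp only at h0 h1 h2
  have a0 : 2 * κ + C * o + C < τ 0 := by
    have := hF 0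
    have h3 : C * o ≤ C * (0 + 2 * o) := Nat.mul_le_mul_left C (by omega)
    omega
  have a01 : τ 0 ≤ τ 1 := (hFx _).trans h1
  have a12 : τ 1 ≤ τ 2 := (hFx _).trans h2
  have L : Land C κ o m n τ s e P Q := by
    refine ⟨hs0, hg, hp, hPQ, hQ, hlip, hx1, hx2, ?_, ?_⟩
    · intro k
      have : k % 3 = 0 ∨ k % 3 = 1 ∨ k % 3 = 2 := by omega
      rcases this with h | h | h <;> rw [h] <;> omega
    · intro k l hkl
      have hk : k % 3 = 0 ∨ k % 3 = 1 ∨ k % 3 = 2 := by omega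
      have hl : l % 3 = 0 ∨ l % 3 = 1 ∨ l % 3 = 2 := by omega
      have f0 := hF (τ 0)
      have f1 := hF (τ 1)
      have f01 := hFm _ _ a01
      rcases hk with h | h | h <;> rcases hl with h' | h' | h' <;> rw [h, h'] at hkl ⊢ <;>
        first
          | exact absurd hkl (by omega)
          | omega
  have hT : ∀ k < m, s (k + 1) ≤ s k + (τ 2 + o) := by
    intro k hk
    have g := hg k hk
    have : k % 3 = 0 ∨ k % 3 = 1 ∨ k % 3 = 2 := by omega
    rcases this with h | h | h <;> rw [h] at g <;> omega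
  by_contra hc
  push Not at hc
  have hPn : P n ≤ s m := by
    have := L.qanti (Nat.zero_le n) le_rfl
    omega
  obtain ⟨l, hl, l1, l2⟩ := L.locate (a := P 0) (by omega)
  have b1 := hT l hl
  have hlm : l + 5 ≤ m := by
    by_contra hcon
    have hbound : ∀ r, l + 1 + r ≤ m → s (l + 1 + r) ≤ s (l + 1) + r * (τ 2 + o) := by
      intro r
      induction r with
      | zero => intro _; simp
      | succ r ih =>
        intro hr
        have h3 := ih (by omega)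
        have h4 := hT (l + 1 + r) (by omega)
        have h5 : (r + 1) * (τ 2 + o) = r * (τ 2 + o) + (τ 2 + o) := by ring
        have h6 : l + 1 + (r + 1) = l + 1 + r + 1 := by ring
        rw [h6, h5]
        omega
    have h3 := hbound (m - (l + 1)) (by omega)
    rw [Nat.add_sub_cancel' (by omega : l + 1 ≤ m)] at h3
    have h4 : (m - (l + 1)) * (τ 2 + o) ≤ 3 * (τ 2 + o) := Nat.mul_le_mul_right _ (by omega)
    omega
  refine L.main (k := l + 1) (by omega) l2.le ?_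
  have c1 := hT (l + 1) (by omega)
  have c2 := hT (l + 1 + 1) (by omega)
  have c3 := hT (l + 1 + 2) (by omega)
  have c4 := hT (l + 1 + 3) (by omega)
  have c5 := hg (l + 1 + 3) (by omega)
  have e1 : l + 1 + 1 + 1 = l + 1 + 2 := by ring
  have e2 : l + 1 + 2 + 1 = l + 1 + 3 := by ring
  rw [e1] at c2
  rw [e2] at c3
  omega

end Pool.Agent.L0h34.CW
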