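import Pool.Agent.L0h34.CW.Basics

/-! Project CW, module MIRC: chains read backwards. -/

set_option autoImplicit false

namespace Pool.Agent.L0h34.CW

section
variable {A G : Type} [Group G]

theorem N1_sw (𝓗 : Subgroup (G × Gᵐᵒᵖ)) : N1 (sw 𝓗) = N2 𝓗 := by
  ext g
  rfl

theorem N2_sw (𝓗 : Subgroup (G × Gᵐᵒᵖ)) : N2 (sw 𝓗) = N1 𝓗 := by
  ext g
  rfl

theorem U1_sw (𝓗 : Subgroup (G × Gᵐᵒᵖ)) : U1 (sw 𝓗) = U2 𝓗 := by
  ext g
  rw [mem_U1, mem_U2]
  rfl

theorem U2_sw (𝓗 : Subgroup (G × Gᵐᵒᵖ)) : U2 (sw 𝓗) = U1 𝓗 := by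
  ext g
  rw [mem_U1, mem_U2]
  rfl

theorem IsChain.le_length {𝓗 : Subgroup (G × Gᵐᵒᵖ)} {c κ : ℕ} {r : ℕ → G × G} {f : A → G}
    {b : List A} {n : ℕ} {t p q : ℕ → ℕ} (h : IsChain 𝓗 c κ r f b n t p q) :
    ∀ i ≤ n, q i ≤ b.length := by
  obtain ⟨_, h2, h3, _⟩ := h
  intro i
  induction i with
  | zero => intro _; exact h2.le
  | succ i ih =>
    intro hi
    exact ((h3 i (by omega)).2.2.1).trans (ih (by omega))

end

theorem mirc : S_MIRC := by
  intro A G _ f 𝓗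
  refine ⟨N1_sw 𝓗, N2_sw 𝓗, U1_sw 𝓗, U2_sw 𝓗, ?_⟩
  intro c κ r b n t p q h
  have hle := h.le_length
  obtain ⟨h1, h2, h3, h4, h5, h6, h7⟩ := h
  refine ⟨?_, ?_, ?_, ?_, ?_, h6, ?_⟩
  · simp [h2]
  · simp [h1]
  · intro i hi
    have a1 := h3 i hi
    have a2 := hle i (by omega)
    have a3 := hle (i + 1) (by omega)
    have a4 := h4 i (by omega)
    have a5 := h4 (i + 1) (by omega)
    dsimp only
    omega
  · intro i hi
    have a2 := hle i hi
    have a4 := h4 i hi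
    dsimp only
    omega
  · have a2 := hle n le_rfl
    have a4 := h4 n le_rfl
    dsimp only
    omega
  · intro i hi
    have a2 := hle i hi
    have a4 := h4 i hi
    have e1 : b.reverse.take (b.length - q i) = (b.drop (q i)).reverse := by
      rw [List.reverse_drop]
    have e2 : b.reverse.drop (b.length - p i) = (b.take (p i)).reverse := by
      rw [List.reverse_take]
    dsimp only
    rw [e1, e2, ev_fi_reverse, ev_fi_reverse, mem_sw]
    have h8 := 𝓗.inv_mem (h7 i hi)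
    simpa using h8

end Pool.Agent.L0h34.CW
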