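import Pool.Agent.L0h34.CW.CRS
import Pool.Agent.L0h34.CW.MIRC

/-! Project CW, module PAT: both sides of finite type. -/

set_option autoImplicit false

namespace Pool.Agent.L0h34.CW.PATaux

section
variable {A G : Type} [Group G]

/-- One piece: a gap, the word `E`, and a letter of `Δ` or nothing. -/
def pc (v E : List A) (T : ℕ → ℕ) (D : ℕ → List A) (k : ℕ) : List A :=
  (List.replicate (T (k % 3)) v).flatten ++ (E ++ D k)

/-- The first `k` pieces. -/
def wd (v E : List A) (T : ℕ → ℕ) (D : ℕ → List A) : ℕ → List A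
  | 0 => []
  | k + 1 => wd v E T D k ++ pc v E T D k

theorem wd_congr {v E : List A} {T : ℕ → ℕ} {D D' : ℕ → List A} :
    ∀ k, (∀ i < k, D i = D' i) → wd v E T D k = wd v E T D' k := by
  intro k
  induction k with
  | zero => intro _; rfl
  | succ k ih =>
    intro h
    rw [wd, wd, ih (fun i hi => h i (by omega)), pc, pc, h k (by omega)]

theorem star_pc {v E : List A} {T : ℕ → ℕ} {D : ℕ → List A} {Δ : Finset (List A)}
    (hv : v ∈ Δ) (hE : Star Δ E) (hD : ∀ k, D k = [] ∨ D k ∈ Δ) (k : ℕ) :
    Star Δ (pc v E T D k) := by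
  refine ((Star.of_mem hv).replicate _).append (hE.append ?_)
  rcases hD k with h | h
  · rw [h]
    exact Star.nil
  · exact Star.of_mem h

theorem star_wd {v E : List A} {T : ℕ → ℕ} {D : ℕ → List A} {Δ : Finset (List A)}
    (hv : v ∈ Δ) (hE : Star Δ E) (hD : ∀ k, D k = [] ∨ D k ∈ Δ) (k : ℕ) :
    Star Δ (wd v E T D k) := by
  induction k with
  | zero => exact Star.nil
  | succ k ih => exact ih.append (star_pc hv hE hD k)

theorem wd_split {v E : List A} {T : ℕ → ℕ} {D : ℕ → List A} {Δ : Finset (List A)}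
    (hv : v ∈ Δ) (hE : Star Δ E) (hD : ∀ k, D k = [] ∨ D k ∈ Δ) {k m : ℕ} (hk : k ≤ m) :
    ∃ R, Star Δ R ∧ wd v E T D m = wd v E T D k ++ R := by
  induction m, hk using Nat.le_induction with
  | base => exact ⟨[], Star.nil, by simp⟩
  | succ m hm ih =>
    obtain ⟨R, hR, h⟩ := ih
    refine ⟨R ++ pc v E T D m, hR.append (star_pc hv hE hD m), ?_⟩
    rw [wd, h, List.append_assoc]

/-- The new words. -/
def nw (v E : List A) (T : ℕ → ℕ) (δ : List A) : List A :=
  (List.replicate (T 0) v).flatten ++ (E ++ ((List.replicate (T 1) v).flatten ++ (E ++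
    ((List.replicate (T 2) v).flatten ++ (E ++ δ)))))

theorem flatten_eq_wd {v E : List A} {T : ℕ → ℕ} {S : Set (List A)} (l : List (List A))
    (hl : ∀ d ∈ l, ∃ δ ∈ S, d = nw v E T δ) :
    ∃ D : ℕ → List A, (∀ k, D k = [] ∨ D k ∈ S) ∧ l.flatten = wd v E T D (3 * l.length) := by
  induction l using List.reverseRecOn with
  | nil => exact ⟨fun _ => [], fun _ => Or.inl rfl, rfl⟩
  | append_singleton l d ih =>
    obtain ⟨D, hD, hD'⟩ := ih (fun e he => hl e (by simp [he]))
    obtain ⟨δ, hδ, rfl⟩ := hl d (by simp)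
    refine ⟨fun k => if k < 3 * l.length then D k else if k = 3 * l.length + 2 then δ else [],
      ?_, ?_⟩
    · intro k
      dsimp only
      split_ifs
      · exact hD k
      · exact Or.inr hδ
      · exact Or.inl rfl
    · have e1 : wd v E T (fun k => if k < 3 * l.length then D k else
          if k = 3 * l.length + 2 then δ else []) (3 * l.length) = l.flatten := by
        rw [hD']
        apply wd_congr
        intro i hi
        simp [hi]
      rw [List.length_append, List.length_singleton, Nat.mul_add, Nat.mul_one,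
        show 3 * l.length + 3 = 3 * l.length + 1 + 1 + 1 by ring, wd, wd, wd, e1, pc, pc, pc]
      have m0 : 3 * l.length % 3 = 0 := by omega
      have m1 : (3 * l.length + 1) % 3 = 1 := by omega
      have m2 : (3 * l.length + 1 + 1) % 3 = 2 := by omega
      rw [m0, m1, m2]
      simp [nw, List.append_assoc]

/-- A longer word visits more vertices. -/
theorem visit_prefix {f : A → G} {N : Subgroup G} {z : G} {E₁ E₂ : List A} {k : ℕ}
    (h : k ≤ {c : Set G | ∃ i ≤ E₁.length, c = rc N (z * ev f (E₁.take i))}.ncard) :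
    k ≤ {c : Set G | ∃ i ≤ (E₁ ++ E₂).length,
      c = rc N (z * ev f ((E₁ ++ E₂).take i))}.ncard := by
  refine h.trans (Set.ncard_le_ncard ?_ ?_)
  · rintro c ⟨i, hi, rfl⟩
    refine ⟨i, by rw [List.length_append]; omega, ?_⟩
    rw [List.take_append, show i - E₁.length = 0 by omega, List.take_zero, List.append_nil]
  · refine ((Set.finite_Iic (E₁ ++ E₂).length).image
      fun i => rc N (z * ev f ((E₁ ++ E₂).take i))).subset ?_
    rintro c ⟨i, hi, rfl⟩
    exact ⟨i, hi, rfl⟩

theorem replicate_flatten_reverse (T : ℕ) (v : List A) :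
    (List.replicate T v).flatten.reverse = (List.replicate T v.reverse).flatten := by
  rw [List.reverse_flatten, List.map_replicate, List.reverse_replicate]

end

end Pool.Agent.L0h34.CW.PATaux

namespace Pool.Agent.L0h34.CW

open PATaux

theorem pat (hVIS : S_VIS) (hMAT : S_MAT) : S_PAT := by
  classical
  intro A G _ _ hG f 𝓗 c κ r Δ hΔ hne C
  obtain ⟨v, hv⟩ := hne
  obtain ⟨m₀, hm₀, hvm⟩ := hG (ev f v)
  obtain ⟨k1, hk1⟩ := crs A G f 𝓗 c κ m₀ r Δ v hm₀ hvm
  obtain ⟨k2, hk2⟩ := crs A G (fi f) (sw 𝓗) c κ m₀ (fun k => ((r k).2⁻¹, (r k).1⁻¹)) (mir Δ)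
    v.reverse hm₀ (by rw [ev_fi_reverse, inv_pow, hvm, inv_one])
  obtain ⟨EL, hEL, hEL'⟩ := hVIS A G hG f (N1 𝓗) Δ k1
  obtain ⟨ER, hER, hER'⟩ := hVIS A G hG (fi f) (N1 (sw 𝓗)) (mir Δ) k2
  set E : List A := EL ++ ER.reverse with hEdef
  have hE : Star Δ E := hEL.append (star_mir'.1 hER)
  have hErev : E.reverse = ER ++ EL.reverse := by
    rw [hEdef, List.reverse_append, List.reverse_reverse]
  -- visiting conditions
  have hvis1 : ∀ x y, Star Δ (x ++ y) → ¬ FinOrb (N1 𝓗) (Gp f Δ) (ev f x)⁻¹ →
      NormC (N1 𝓗) (Gp f Δ) (ev f x)⁻¹ → ∀ h ∈ Gp f Δ,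
      k1 ≤ {c : Set G | ∃ i ≤ E.length, c = rc (N1 𝓗) ((ev f x)⁻¹ * h * ev f (E.take i))}.ncard :=
    fun x y h1 h2 h3 h hh => visit_prefix (hEL' x y h1 h2 h3 h hh)
  have hvis2 : ∀ x y, Star (mir Δ) (x ++ y) →
      ¬ FinOrb (N1 (sw 𝓗)) (Gp (fi f) (mir Δ)) (ev (fi f) x)⁻¹ →
      NormC (N1 (sw 𝓗)) (Gp (fi f) (mir Δ)) (ev (fi f) x)⁻¹ → ∀ h ∈ Gp (fi f) (mir Δ),
      k2 ≤ {c : Set G | ∃ i ≤ E.reverse.length, c = rc (N1 (sw 𝓗))
        ((ev (fi f) x)⁻¹ * h * ev (fi f) (E.reverse.take i))}.ncard := by
    intro x y h1 h2 h3 h hh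
    rw [hErev]
    exact visit_prefix (hER' x y h1 h2 h3 h hh)
  replace hk1 := hk1 E hvis1
  replace hk2 := hk2 E.reverse hvis2
  -- parameters of the pattern
  obtain ⟨F, hF⟩ := hMAT C κ (E.length + Δ.sup List.length)
  let T : ℕ → ℕ := fun a => Nat.rec (m₀ * (F 0 + 1)) (fun _ t => m₀ * (F (t * v.length) + 1)) a
  have hT0 : T 0 = m₀ * (F 0 + 1) := rfl
  have hTs : ∀ a, T (a + 1) = m₀ * (F (T a * v.length) + 1) := fun a => rfl
  have hvl : 0 < v.length := List.length_pos_iff.2 (hΔ v hv)
  have hbig : ∀ z : ℕ, z ≤ m₀ * (z + 1) * v.length := by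
    intro z
    calc z ≤ z + 1 := Nat.le_succ z
      _ = 1 * (z + 1) * 1 := by ring
      _ ≤ m₀ * (z + 1) * v.length := by gcongr <;> omega
  obtain ⟨Z, hZ⟩ := hF (fun a => T a * v.length) (by
      rw [hT0]; exact hbig _) (by
      have h := hbig (F (T 0 * v.length)); rw [← hTs 0] at h; exact h) (by
      have h := hbig (F (T 1 * v.length)); rw [← hTs 1] at h; exact h)
  have hTpow : ∀ a, ev f (List.replicate (T a) v).flatten = 1 := by
    intro a
    rw [ev_replicate_flatten]
    cases a with
    | zero => rw [hT0, pow_mul, hvm, one_pow]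
    | succ a => rw [hTs, pow_mul, hvm, one_pow]
  have hTpos : 0 < T 0 := by
    rw [hT0]
    positivity
  set Δ' : Finset (List A) := (insert [] Δ).image (nw v E T) with hΔ'
  have hstarv : ∀ a, Star Δ (List.replicate (T a) v).flatten :=
    fun a => (Star.of_mem hv).replicate _
  have hfine : Fine Δ' Δ := by
    constructor
    · intro d hd
      rw [hΔ', Finset.mem_image] at hd
      obtain ⟨δ, hδ, rfl⟩ := hd
      intro h
      have h1 := congrArg List.length h
      simp only [nw, List.length_append, List.length_nil] at h1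
      have h2 : (List.replicate (T 0) v).flatten.length = T 0 * v.length := by simp
      have h3 : 0 < T 0 * v.length := by positivity
      omega
    · intro d hd
      rw [hΔ', Finset.mem_image] at hd
      obtain ⟨δ, hδ, rfl⟩ := hd
      have hδ' : Star Δ δ := by
        rcases Finset.mem_insert.1 hδ with rfl | h
        · exact Star.nil
        · exact Star.of_mem h
      exact (hstarv 0).append (hE.append ((hstarv 1).append (hE.append ((hstarv 2).append
        (hE.append hδ')))))
  have hnwval : ∀ δ, ev f (nw v E T δ) = ev f E * ev f E * ev f E * ev f δ := by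
    intro δ
    simp only [nw, ev_append, hTpow, one_mul]
    group
  have hGp : Gp f Δ' = Gp f Δ := by
    apply le_antisymm (Gp_mono hfine)
    refine (Subgroup.closure_le _).2 ?_
    rintro g ⟨δ, hδ, rfl⟩
    have h1 : ev f (nw v E T []) ∈ Gp f Δ' := Subgroup.subset_closure
      ⟨_, Finset.mem_image_of_mem _ (Finset.mem_insert_self _ _), rfl⟩
    have h2 : ev f (nw v E T δ) ∈ Gp f Δ' := Subgroup.subset_closure
      ⟨_, Finset.mem_image_of_mem _ (Finset.mem_insert_of_mem hδ), rfl⟩
    have h3 := Subgroup.mul_mem _ (Subgroup.inv_mem _ h1) h2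
    rw [hnwval, hnwval, ev_nil, mul_one, inv_mul_cancel_left] at h3
    exact h3
  refine ⟨Δ', hfine, hGp, Z + κ + C * Z + C, ?_⟩
  intro x b y hxby' hfo1 hfo2 hnc1 hnc2 n t p q hch hlip
  have hxby : Star Δ (x ++ b ++ y) := Star.of_fine hfine hxby'
  have hchR := (mirc A G f 𝓗).2.2.2.2 c κ r b n t p q hch
  have hqle := hch.le_length
  have hchain := hch
  obtain ⟨c1, c2, c3, c4, c5, c6, c7⟩ := hch
  -- the landscape
  obtain ⟨l, hl, hl'⟩ := hxby'
  obtain ⟨D, hD, hw⟩ := flatten_eq_wd (v := v) (E := E) (T := T) (S := (↑Δ ∪ {[]} : Set (List A)))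
    l (by
      intro d hd
      have := hl d hd
      rw [hΔ', Finset.mem_image] at this
      obtain ⟨δ, hδ, rfl⟩ := this
      refine ⟨δ, ?_, rfl⟩
      rcases Finset.mem_insert.1 hδ with rfl | h
      · exact Or.inr rfl
      · exact Or.inl h)
  replace hD : ∀ k, D k = [] ∨ D k ∈ Δ := by
    intro k
    rcases hD k with h | h | h
    · exact Or.inl h
    · exact Or.inr h
    · exact Or.inl h
  have hDlen : ∀ k, (D k).length ≤ Δ.sup List.length := by
    intro k
    rcases hD k with h | h
    · rw [h]; simp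
    · exact Finset.le_sup (f := List.length) h
  set m := 3 * l.length with hm
  have hww : x ++ b ++ y = wd v E T D m := by rw [← hl', hw]
  have hslen : ∀ k, (wd v E T D (k + 1)).length =
      (wd v E T D k).length + T (k % 3) * v.length + (E.length + (D k).length) := by
    intro k
    rw [wd, pc, List.length_append, List.length_append, List.length_append]
    simp only [List.length_flatten, List.map_replicate, List.sum_replicate, smul_eq_mul]
    ring
  -- decompositions of the word
  have hdec : ∀ k < m, ∃ R, Star Δ R ∧ x ++ b ++ y =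
      wd v E T D k ++ (List.replicate (T (k % 3)) v).flatten ++ E ++ R := by
    intro k hk
    obtain ⟨R, hR, h⟩ := wd_split (T := T) hv hE hD (show k + 1 ≤ m by omega)
    refine ⟨D k ++ R, ?_, ?_⟩
    · rcases hD k with h | h
      · rw [h]; exact hR
      · exact (Star.of_mem h).append hR
    · rw [hww, h, wd, pc]
      simp only [List.append_assoc]
  have hwlen : x.length + b.length + y.length = (wd v E T D m).length := by
    rw [← hww, List.length_append, List.length_append]
  have hH : ev f (x ++ b ++ y) ∈ Gp f Δ := hxby.mem_Gp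
  have hyval : ev f y = (ev f (x ++ b))⁻¹ * ev f (x ++ b ++ y) := by
    rw [ev_append (x ++ b) y, inv_mul_cancel_left]
  have key := hZ m (fun k => (wd v E T D k).length)
    (fun k => (wd v E T D k).length + T (k % 3) * v.length) rfl (by
      intro k _
      have := hslen k
      have := hDlen k
      refine ⟨rfl, ?_, ?_⟩ <;> omega) n (fun i => x.length + p i) (fun i => x.length + q i) (by
      intro i hi
      have := c3 i hi
      omega) (by
      have := c4 n le_rfl
      omega) (by
      omega) (by
      intro i j hij hjn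
      have := hlip i j hij hjn
      rw [Nat.add_sub_add_left, Nat.add_sub_add_left]
      exact this) ?_ ?_
  · have h1 := hlip 0 n (Nat.zero_le _) le_rfl
    have h2 : p n - p 0 ≤ Z := by omega
    have h3 : C * (p n - p 0) ≤ C * Z := Nat.mul_le_mul_left _ h2
    omega
  · -- X1
    intro i j hij hjn k hk ha hb l₁ hl₁ hc
    obtain ⟨R, hR, hdR⟩ := hdec k hk
    obtain ⟨R', hR', hdR'⟩ := hdec l₁ hl₁
    have h1 := hslen k
    refine hk1 x b y (wd v E T D k ++ (List.replicate (T (k % 3)) v).flatten) R
      (wd v E T D l₁) (E ++ R') (T (l₁ % 3)) hxby hdR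
      ((star_wd hv hE hD k).append (hstarv _)) (by rw [hdR']; simp only [List.append_assoc])
      hfo1 hnc1 n t p q hchain i j hij hjn ?_ ?_ ?_ ?_
    · rw [List.length_append]
      simp only [List.length_flatten, List.map_replicate, List.sum_replicate, smul_eq_mul]
      exact ha
    · rw [List.length_append]
      simp only [List.length_flatten, List.map_replicate, List.sum_replicate, smul_eq_mul]
      omega
    · exact hc.1
    · exact hc.2
  · -- X2
    intro i j hij hjn k hk ha hb l₁ hl₁ hc
    obtain ⟨R, hR, hdR⟩ := hdec k hk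
    obtain ⟨R', hR', hdR'⟩ := hdec l₁ hl₁
    have h1 := hslen k
    have hlenR := congrArg List.length hdR
    have hlenR' := congrArg List.length hdR'
    simp only [List.length_append, List.length_flatten, List.map_replicate, List.sum_replicate,
      smul_eq_mul] at hlenR hlenR'
    have hrev : y.reverse ++ b.reverse ++ x.reverse = (x ++ b ++ y).reverse := by
      simp [List.reverse_append, List.append_assoc]
    have hqi := hqle i (by omega)
    have hqj := hqle j (by omega)
    have hpi := c4 i (by omega)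
    have hpj := c4 j (by omega)
    have hyv : (ev (fi f) y.reverse)⁻¹ = (ev f (x ++ b))⁻¹ * ev f (x ++ b ++ y) := by
      rw [ev_fi_reverse, inv_inv, hyval]
    refine hk2 y.reverse b.reverse x.reverse R.reverse
      (wd v E T D k ++ (List.replicate (T (k % 3)) v).flatten).reverse
      (E ++ R').reverse (wd v E T D l₁).reverse (T (l₁ % 3)) ?_ ?_ ?_ ?_ ?_ ?_ n t _ _ hchR i j
      hij hjn ?_ ?_ ?_ ?_
    · rw [hrev]
      exact star_mir.2 hxby
    · rw [hrev, hdR]
      simp only [List.reverse_append, List.append_assoc]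
    · exact star_mir.2 hR
    · rw [hrev, hdR', ← replicate_flatten_reverse]
      simp only [List.reverse_append, List.append_assoc]
    · rw [hyv, Gp_mir, N1_sw, finOrb_mul hH]
      exact hfo2
    · rw [hyv, Gp_mir, N1_sw, normC_mul hH]
      exact hnc2
    · rw [List.length_reverse, List.length_reverse]
      omega
    · rw [List.length_reverse, List.length_reverse, List.length_reverse]
      omega
    · rw [List.length_reverse, List.length_reverse, List.length_append]
      omega
    · rw [List.length_reverse, List.length_reverse, List.length_append, List.length_reverse]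
      omega

end Pool.Agent.L0h34.CW
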