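import Pool.Agent.L0h34.CW.Basics

/-! Project CW: the links of a nonterminal with itself form a group; comparison of links. -/

set_option autoImplicit false

namespace Pool.Agent.L0h34.CW

open MulOpposite

theorem tors_prod {G : Type} [Group G] (hG : Tors G) (x : G × Gᵐᵒᵖ) :
    ∃ n : ℕ, 0 < n ∧ x ^ n = 1 := by
  obtain ⟨a, b⟩ := x
  obtain ⟨n, hn, ha⟩ := hG a
  obtain ⟨m, hm, hb⟩ := hG b.unop
  refine ⟨n * m, Nat.mul_pos hn hm, ?_⟩
  have hb' : b ^ m = 1 := by
    apply MulOpposite.unop_injective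
    rw [MulOpposite.unop_pow, hb, MulOpposite.unop_one]
  rw [Prod.pow_mk, Prod.mk_eq_one]
  constructor
  · rw [pow_mul, ha, one_pow]
  · rw [mul_comm, pow_mul, hb', one_pow]

section
variable {A G : Type} [Group G] {g : BG A} {f : A → G}

/-- the pairs of the links of `B` with itself -/
def LP (g : BG A) (f : A → G) (B : g.N) : Set (G × Gᵐᵒᵖ) :=
  {x | ∃ u v, Lk g B B u v ∧ x = (ev f u, op (ev f v))}

theorem LP.one (B : g.N) : (1 : G × Gᵐᵒᵖ) ∈ LP g f B := ⟨[], [], Lk.refl B, rfl⟩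

theorem LP.mul {B : g.N} {x y : G × Gᵐᵒᵖ} (hx : x ∈ LP g f B) (hy : y ∈ LP g f B) :
    x * y ∈ LP g f B := by
  obtain ⟨u, v, h, rfl⟩ := hx
  obtain ⟨u', v', h', rfl⟩ := hy
  refine ⟨u ++ u', v' ++ v, h.trans h', ?_⟩
  rw [Prod.mk_mul_mk, ev_append, ev_append, op_mul]

theorem LP.pow {B : g.N} {x : G × Gᵐᵒᵖ} (hx : x ∈ LP g f B) (n : ℕ) : x ^ n ∈ LP g f B := by
  induction n with
  | zero => rw [pow_zero]; exact LP.one B
  | succ n ih => rw [pow_succ]; exact LP.mul ih hx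

theorem mem_HB (hG : Tors G) {B : g.N} {x : G × Gᵐᵒᵖ} :
    x ∈ HB g f B ↔ ∃ u v, Lk g B B u v ∧ x = (ev f u, op (ev f v)) := by
  constructor
  · intro h
    change x ∈ LP g f B
    induction h using Subgroup.closure_induction with
    | mem x hx => exact hx
    | one => exact LP.one B
    | mul x y _ _ hx hy => exact LP.mul hx hy
    | inv x _ hx =>
      obtain ⟨n, hn, hn'⟩ := tors_prod hG x
      have e : x⁻¹ = x ^ (n - 1) := by
        symm
        apply eq_inv_of_mul_eq_one_left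
        rw [← pow_succ, Nat.sub_add_cancel hn, hn']
      rw [e]
      exact LP.pow hx _
  · rintro ⟨u, v, h, rfl⟩
    exact Subgroup.subset_closure ⟨u, v, h, rfl⟩

theorem link_ratio {B C : g.N} {u v u' v' : List A} (hr : Rch g C B) (h : Lk g B C u v)
    (h' : Lk g B C u' v') : (ev f u * (ev f u')⁻¹, op ((ev f v')⁻¹ * ev f v)) ∈ HB g f B := by
  obtain ⟨p, q, hpq⟩ := hr
  have h1 : (ev f (u ++ p), op (ev f (q ++ v))) ∈ HB g f B :=
    Subgroup.subset_closure ⟨_, _, h.trans hpq, rfl⟩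
  have h2 : (ev f (u' ++ p), op (ev f (q ++ v'))) ∈ HB g f B :=
    Subgroup.subset_closure ⟨_, _, h'.trans hpq, rfl⟩
  have h3 := (HB g f B).mul_mem h1 ((HB g f B).inv_mem h2)
  have e : (ev f (u ++ p), op (ev f (q ++ v))) * (ev f (u' ++ p), op (ev f (q ++ v')))⁻¹ =
      (ev f u * (ev f u')⁻¹, op ((ev f v')⁻¹ * ev f v)) := by
    rw [Prod.inv_mk, Prod.mk_mul_mk, ← op_inv, ← op_mul, ev_append, ev_append, ev_append,
      ev_append]
    congr 1
    · group
    · congr 1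
      group
  rwa [e] at h3

end

/-- **REL** -/
theorem rel : S_REL := by
  intro A G _ hG g f
  exact ⟨fun B x => mem_HB hG, fun B C u v u' v' hr h h' => link_ratio hr h h'⟩

end Pool.Agent.L0h34.CW
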