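import Pool.Agent.L0h34.CW.Basics

/-! Project CW, module RET: local injectivity on one side. -/

set_option autoImplicit false

namespace Pool.Agent.L0h34.CW

namespace Ret

variable {A G : Type} [Group G] {f : A → G} {Δ : Finset (List A)}

theorem mem_conj {N : Subgroup G} {z y : G} :
    y ∈ N.map (MulAut.conj z⁻¹).toMonoidHom ↔ z * y * z⁻¹ ∈ N := by
  rw [Subgroup.mem_map]
  constructor
  · rintro ⟨n, hn, rfl⟩
    have e : z * ((MulAut.conj z⁻¹).toMonoidHom n) * z⁻¹ = n := by
      simp [mul_assoc]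
    rw [e]
    exact hn
  · intro h
    refine ⟨_, h, ?_⟩
    simp [mul_assoc]

/-- If `z h z⁻¹` normalizes `N`, then the orbits of `z` and of `z h⁻¹` have the same size. -/
theorem finOrb_shift {N H : Subgroup G} {z h : G}
    (hn : ∀ n, n ∈ N ↔ (z * h * z⁻¹) * n * (z * h * z⁻¹)⁻¹ ∈ N) :
    FinOrb N H (z * h⁻¹) ↔ FinOrb N H z := by
  rw [← finOrb_conj (z := z * h⁻¹), ← finOrb_conj (z := z)]
  have e : N.map (MulAut.conj (z * h⁻¹)⁻¹).toMonoidHom = N.map (MulAut.conj z⁻¹).toMonoidHom := by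
    ext y
    rw [mem_conj, mem_conj, hn]
    have e : z * h * z⁻¹ * (z * h⁻¹ * y * (z * h⁻¹)⁻¹) * (z * h * z⁻¹)⁻¹ = z * y * z⁻¹ := by group
    rw [e]
  rw [e]

theorem conj_iff {N U : Subgroup G} (hNU : NormIn N U) {u : G} (hu : u ∈ U) (n : G) :
    n ∈ N ↔ u * n * u⁻¹ ∈ N := by
  constructor
  · intro h
    exact hNU.2 u hu n h
  · intro h
    have := hNU.2 u⁻¹ (U.inv_mem hu) _ h
    have e : u⁻¹ * (u * n * u⁻¹) * u⁻¹⁻¹ = n := by group
    rwa [e] at this

end Ret

open Ret in
/-- RET -/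
theorem ret (hFIX : S_FIX) (hRETA : S_RETA) : S_RET := by
  intro A G _ hG f N U hNU M Rf Δ hΔ hinf
  classical
  obtain ⟨Δ₁, hΔ₁, hinf₁, hfix⟩ := hFIX A G hG f U Δ hΔ
  have hinf₁ := hinf₁ hinf
  obtain ⟨P, hP⟩ := exists_prefixes Δ₁
  have hGp : Gp f Δ₁ ≤ Gp f Δ := Gp_mono hΔ₁
  have main : ∀ P : Finset (List A), ∃ Δ', Fine Δ' Δ₁ ∧ (Gp f Δ' : Set G).Infinite ∧
      ∃ ρm : ℕ, ∀ p ∈ P, (∃ s, Star Δ₁ (p ++ s)) → ∀ x b y, Star Δ' (x ++ b ++ y) →
        (∃ h ∈ Gp f Δ₁, ev f x = h * ev f p) → FinOrb U (Gp f Δ) (ev f x)⁻¹ →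
        ¬ FinOrb N (Gp f Δ') (ev f x)⁻¹ → ∃ ρ ≤ ρm, Inj f N M ρ (Rf ρ) b := by
    intro P
    induction P using Finset.induction_on with
    | empty => exact ⟨Δ₁, Fine.refl hΔ₁.1, hinf₁, 0, by simp⟩
    | insert p P hp ih =>
      obtain ⟨Δ', hΔ', hinf', ρm, ih⟩ := ih
      -- if the claim for `p` is empty
      by_cases hemp : ∀ x b y, (∃ s, Star Δ₁ (p ++ s)) → Star Δ' (x ++ b ++ y) →
          (∃ h ∈ Gp f Δ₁, ev f x = h * ev f p) → FinOrb U (Gp f Δ) (ev f x)⁻¹ →
          ¬ FinOrb N (Gp f Δ') (ev f x)⁻¹ → False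
      · refine ⟨Δ', hΔ', hinf', ρm, ?_⟩
        intro q hq hq1 x b y hx hh hU hN
        rcases Finset.mem_insert.1 hq with rfl | hq
        · exact (hemp x b y hq1 hx hh hU hN).elim
        · exact ih q hq hq1 x b y hx hh hU hN
      · push Not at hemp
        obtain ⟨x₀, b₀, y₀, ⟨s₀, hs₀⟩, hx₀, ⟨h₀, hh₀, hxp⟩, hU₀, hN₀, -⟩ := hemp
        have hx₀' : (ev f x₀)⁻¹ = (ev f p)⁻¹ * h₀⁻¹ := by rw [hxp, mul_inv_rev]
        have hUp : FinOrb U (Gp f Δ) (ev f p)⁻¹ := by
          rw [hx₀', finOrb_mul (hGp ((Gp f Δ₁).inv_mem hh₀))] at hU₀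
          exact hU₀
        set z := (ev f p)⁻¹ with hz
        have hzU : ∀ h ∈ Gp f Δ₁, z * h * z⁻¹ ∈ U := by
          intro h hh
          have := hfix p s₀ (Star.of_fine hΔ₁ hs₀) hUp 1 (Gp f Δ).one_mem h hh
          rwa [mul_one] at this
        have hNp : ¬ FinOrb N (Gp f Δ') z := by
          rw [hx₀', finOrb_shift (fun n => conj_iff hNU (hzU _ hh₀) n)] at hN₀
          exact hN₀
        set Y := N.map (MulAut.conj z⁻¹).toMonoidHom with hY
        have hY1 : ¬ FinOrb Y (Gp f Δ') 1 := by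
          rw [hY, finOrb_conj]
          exact hNp
        have hYn : ∀ h ∈ Gp f Δ₁, ∀ n ∈ Y, h * n * h⁻¹ ∈ Y := by
          intro h hh n hn
          rw [hY, mem_conj] at hn ⊢
          have e : z * (h * n * h⁻¹) * z⁻¹ = (z * h * z⁻¹) * (z * n * z⁻¹) * (z * h * z⁻¹)⁻¹ := by
            group
          rw [e]
          exact hNU.2 _ (hzU h hh) _ hn
        have hGp' : Gp f Δ' ≤ Gp f Δ₁ := Gp_mono hΔ'
        have hYC : NormC Y (Gp f Δ') 1 := by
          intro h hh n hn
          rw [one_mul, inv_one, mul_one]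
          exact hYn h (hGp' hh) n hn
        obtain ⟨ρ, hρ⟩ := hRETA A G hG f Y M Δ' hΔ'.1 hYC hY1
        obtain ⟨Δ'', hΔ'', hfin'', hinj⟩ := hρ (Rf ρ)
        refine ⟨Δ'', hΔ''.trans hΔ', ?_, max ρm ρ, ?_⟩
        · intro hfin
          exact hfin'' (finOrb_of_finite hfin 1)
        · intro q hq hq1 x b y hx hh hU hN
          rcases Finset.mem_insert.1 hq with rfl | hq
          · refine ⟨ρ, le_max_right _ _, ?_⟩
            obtain ⟨h1, hh1, hxe⟩ := hh
            intro i j hij hjR hjb m hm hmem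
            have hsplit : (x ++ b.take i) ++ (b.drop i).take (j - i) ++ (b.drop j ++ y) =
                x ++ b ++ y := by
              have e1 : b.take i ++ (b.drop i).take (j - i) = b.take j := by
                have : j = i + (j - i) := by omega
                conv_rhs => rw [this]
                rw [List.take_add]
              rw [List.append_assoc x, e1, List.append_assoc x, ← List.append_assoc (b.take j),
                List.take_append_drop, List.append_assoc]
            have hs : ev f (b.take j) = ev f (b.take i) * ev f ((b.drop i).take (j - i)) := by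
              rw [← ev_append]
              congr 1
              have : j = i + (j - i) := by omega
              conv_lhs => rw [this]
              rw [List.take_add]
            have hlen : ((b.drop i).take (j - i)).length = j - i := by
              rw [List.length_take, List.length_drop]
              omega
            refine hinj (x ++ b.take i) ((b.drop i).take (j - i)) (b.drop j ++ y)
              (by rw [hsplit]; exact hx) (by rw [hlen]; omega) (by rw [hlen]; omega) m hm ?_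
            have e2 : ev f (x ++ b.take i) * m * (ev f ((b.drop i).take (j - i)))⁻¹ *
                (ev f (x ++ b.take i))⁻¹ = h1 * (z⁻¹ * (ev f (b.take i) * m *
                (ev f (b.take j))⁻¹) * z) * h1⁻¹ := by
              rw [hs, ev_append, hxe, hz]
              group
            rw [e2]
            refine hYn h1 hh1 _ ?_
            rw [hY, mem_conj]
            have e3 : z * (z⁻¹ * (ev f (b.take i) * m * (ev f (b.take j))⁻¹) * z) * z⁻¹ =
                ev f (b.take i) * m * (ev f (b.take j))⁻¹ := by group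
            rw [e3]
            exact hmem
          · obtain ⟨ρ', hρ', hI⟩ := ih q hq hq1 x b y (Star.of_fine hΔ'' hx) hh hU
              (fun h => hN (h.mono (Gp_mono hΔ'')))
            exact ⟨ρ', hρ'.trans (le_max_left _ _), hI⟩
  obtain ⟨Δ', hΔ', hinf', ρm, hmain⟩ := main P
  refine ⟨Δ', hΔ'.trans hΔ₁, hinf', ?_, ρm, ?_⟩
  · intro x y hxy hU h hh n hn
    have := hfix x y (Star.of_fine (hΔ'.trans hΔ₁) hxy) hU 1 (Gp f Δ).one_mem h
      (Gp_mono hΔ' hh)
    rw [mul_one] at this
    exact hNU.2 _ this n hn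
  · intro x b y hxy hU hN
    have h1 : Star Δ₁ (x ++ (b ++ y)) := by
      rw [← List.append_assoc]
      exact Star.of_fine hΔ' hxy
    obtain ⟨p, hp, hps, x₁, hx₁, hx⟩ := hP x (b ++ y) h1
    exact hmain p hp hps x b y hxy ⟨ev f x₁, hx₁.mem_Gp, by rw [hx, ev_append]⟩ hU hN

end Pool.Agent.L0h34.CW
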