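import Pool.Agent.L0h34.CW.Basics

/-! Project CW, module RETA (helper71): local injectivity for one subgroup `Y`. -/

set_option autoImplicit false

namespace Pool.Agent.L0h34.CW

namespace Rta

variable {A G : Type} [Group G]

/-- cutting a concatenation -/
lemma cut1 : ∀ (l : List (List A)) (X z : List A), l.flatten = X ++ z →
    ∃ a c p, l = a ++ c ∧ X = a.flatten ++ p ∧ c.flatten = p ++ z ∧
      (p = [] ∨ ∃ d ∈ l, p <+: d) := by
  intro l
  induction l with
  | nil =>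
    intro X z h
    have h1 := List.append_eq_nil_iff.mp (by simpa using h.symm : X ++ z = [])
    exact ⟨[], [], [], rfl, by simp [h1.1], by simp [h1.2], Or.inl rfl⟩
  | cons d l ih =>
    intro X z h
    rw [List.flatten_cons, List.append_eq_append_iff] at h
    rcases h with ⟨a', h1, h2⟩ | ⟨c', h1, h2⟩
    · obtain ⟨a, c, p, e1, e2, e3, e4⟩ := ih a' z h2
      refine ⟨d :: a, c, p, by rw [e1]; rfl, ?_, e3, ?_⟩
      · rw [h1, e2, List.flatten_cons, List.append_assoc]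
      · rcases e4 with e4 | ⟨d', hd', e4⟩
        · exact Or.inl e4
        · exact Or.inr ⟨d', List.mem_cons_of_mem _ hd', e4⟩
    · refine ⟨[], d :: l, X, rfl, by simp, ?_, Or.inr ⟨d, List.mem_cons_self, ?_⟩⟩
      · rw [List.flatten_cons, h1, h2, List.append_assoc]
      · rw [h1]
        exact List.prefix_append _ _

lemma length_le_flatten (l : List (List A)) (h : ∀ d ∈ l, d ≠ []) :
    l.length ≤ l.flatten.length := by
  induction l with
  | nil => simp
  | cons d l ih =>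
    have h1 := ih fun d' hd' => h d' (List.mem_cons_of_mem _ hd')
    have h2 : 0 < d.length := List.length_pos_iff.mpr (h d List.mem_cons_self)
    rw [List.length_cons, List.flatten_cons, List.length_append]
    omega

lemma flatten_length_le (L : ℕ) (l : List (List A)) (h : ∀ d ∈ l, d.length ≤ L) :
    l.flatten.length ≤ L * l.length := by
  induction l with
  | nil => simp
  | cons d l ih =>
    have h1 := ih fun d' hd' => h d' (List.mem_cons_of_mem _ hd')
    have h2 := h d List.mem_cons_self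
    rw [List.length_cons, List.flatten_cons, List.length_append, mul_add, mul_one]
    omega

end Rta

open Rta in
/-- RETA -/
theorem reta (hC : S_CORE) : S_RETA := by
  intro A G _ hG f Y M Δ hΔ hN hI
  classical
  obtain ⟨L, hL0, hL⟩ : ∃ L : ℕ, 0 < L ∧ ∀ d ∈ Δ, d.length ≤ L :=
    ⟨Δ.sup List.length + 1, Nat.succ_pos _, fun d hd => (Finset.le_sup hd).trans (Nat.le_succ _)⟩
  obtain ⟨P, hP0, hP⟩ : ∃ P : Finset (List A), [] ∈ P ∧ ∀ d ∈ Δ, ∀ p, p <+: d → p ∈ P := by
    refine ⟨(Δ.biUnion fun d => d.inits.toFinset) ∪ {[]}, by simp, fun d hd p hp => ?_⟩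
    rw [Finset.mem_union, Finset.mem_biUnion]
    exact Or.inl ⟨d, hd, by rw [List.mem_toFinset, List.mem_inits]; exact hp⟩
  -- the bound for the short representatives
  obtain ⟨lam, hlam⟩ : ∃ lam : ℕ, ∀ p ∈ P, ∀ p' ∈ P, ∀ m ∈ M,
      (∃ l : List (List A), (∀ d ∈ l, d ∈ Δ) ∧
        ev f l.flatten * (ev f p' * m⁻¹ * (ev f p)⁻¹) ∈ Y) →
      ∃ l : List (List A), (∀ d ∈ l, d ∈ Δ) ∧ l.length ≤ lam ∧
        ev f l.flatten * (ev f p' * m⁻¹ * (ev f p)⁻¹) ∈ Y := by
    have h1 : ∀ t : List A × List A × G, ∃ z : List (List A),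
        (∃ l : List (List A), (∀ d ∈ l, d ∈ Δ) ∧
          ev f l.flatten * (ev f t.2.1 * t.2.2⁻¹ * (ev f t.1)⁻¹) ∈ Y) →
        (∀ d ∈ z, d ∈ Δ) ∧ ev f z.flatten * (ev f t.2.1 * t.2.2⁻¹ * (ev f t.1)⁻¹) ∈ Y := by
      intro t
      by_cases h : ∃ l : List (List A), (∀ d ∈ l, d ∈ Δ) ∧
          ev f l.flatten * (ev f t.2.1 * t.2.2⁻¹ * (ev f t.1)⁻¹) ∈ Y
      · obtain ⟨l, hl⟩ := h
        exact ⟨l, fun _ => hl⟩
      · exact ⟨[], fun h' => absurd h' h⟩
    choose z hz using h1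
    refine ⟨(P ×ˢ P ×ˢ M).sup fun t => (z t).length, fun p hp p' hp' m hm h => ?_⟩
    have h2 := hz (p, p', m) h
    refine ⟨z (p, p', m), h2.1, ?_, h2.2⟩
    exact Finset.le_sup (f := fun t => (z t).length)
      (Finset.mem_product.mpr ⟨hp, Finset.mem_product.mpr ⟨hp', hm⟩⟩)
  refine ⟨(lam + 3) * L, fun R => ?_⟩
  obtain ⟨Δ', hF, hI', hgeo⟩ := hC A G hG f Y Δ hΔ hN hI (R + L)
  refine ⟨Δ', hF, hI', fun X s y hst hs1 hs2 m hm hmem => ?_⟩
  obtain ⟨l, hl, hlf, hlg⟩ := hgeo _ hst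
  rw [List.append_assoc] at hlf
  obtain ⟨a, c, p, e1, e2, e3, e4⟩ := cut1 l X (s ++ y) hlf
  rw [← List.append_assoc] at e3
  obtain ⟨m', b, p', k1, k2, k3, k4⟩ := cut1 c (p ++ s) y e3
  have hcl : ∀ d ∈ c, d ∈ Δ := fun d hd => hl d (by rw [e1]; exact List.mem_append_right _ hd)
  have hml : ∀ d ∈ m', d ∈ Δ := fun d hd => hcl d (by rw [k1]; exact List.mem_append_left _ hd)
  have hal : ∀ d ∈ a, d ∈ Δ := fun d hd => hl d (by rw [e1]; exact List.mem_append_left _ hd)
  have hpP : p ∈ P ∧ p.length ≤ L := by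
    rcases e4 with e4 | ⟨d, hd, e4⟩
    · rw [e4]
      exact ⟨hP0, Nat.zero_le _⟩
    · exact ⟨hP d (hl d hd) p e4, e4.length_le.trans (hL d (hl d hd))⟩
  have hpP' : p' ∈ P ∧ p'.length ≤ L := by
    rcases k4 with k4 | ⟨d, hd, k4⟩
    · rw [k4]
      exact ⟨hP0, Nat.zero_le _⟩
    · exact ⟨hP d (hcl d hd) p' k4, k4.length_le.trans (hL d (hcl d hd))⟩
  -- lengths
  have hlen := congrArg List.length k2
  rw [List.length_append, List.length_append] at hlen
  have hm1 := length_le_flatten m' fun d hd => hΔ d (hml d hd)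
  have hm2 := flatten_length_le L m' fun d hd => hL d (hml d hd)
  have hgm : Geo f Δ Y m' := by
    refine hlg a m' b (by rw [e1, k1, List.append_assoc]) ?_
    omega
  have hbig : lam < m'.length := by
    by_contra hcon
    have h1 : L * m'.length ≤ L * lam := Nat.mul_le_mul_left _ (not_lt.mp hcon)
    have h2 : (lam + 3) * L = L * lam + 3 * L := by ring
    omega
  -- the values
  have hh : ev f a.flatten ∈ Gp f Δ := Star.mem_Gp ⟨a, hal, rfl⟩
  have hX : ev f X = ev f a.flatten * ev f p := by rw [e2, ev_append]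
  have hs : ev f p * ev f s = ev f m'.flatten * ev f p' := by
    rw [← ev_append, ← ev_append, k2]
  have hs' : ev f s = (ev f p)⁻¹ * (ev f m'.flatten * ev f p') := by
    rw [← hs]
    group
  have h1 := hN (ev f a.flatten)⁻¹ (Subgroup.inv_mem _ hh) _ hmem
  have h2 : (1 * (ev f a.flatten)⁻¹ * 1⁻¹) *
      (ev f X * m * (ev f s)⁻¹ * (ev f X)⁻¹) * (1 * (ev f a.flatten)⁻¹ * 1⁻¹)⁻¹ =
      (ev f m'.flatten * (ev f p' * m⁻¹ * (ev f p)⁻¹))⁻¹ := by
    rw [hX, hs']
    group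
  rw [h2, inv_mem_iff] at h1
  obtain ⟨l', hl', hl'len, hl'Y⟩ := hlam p hpP.1 p' hpP'.1 m hm ⟨m', hml, h1⟩
  have h3 := hgm l' hl' (by
    rw [rc_eq]
    have h4 := Subgroup.mul_mem _ hl'Y (Subgroup.inv_mem _ h1)
    have h5 : ev f l'.flatten * (ev f p' * m⁻¹ * (ev f p)⁻¹) *
        (ev f m'.flatten * (ev f p' * m⁻¹ * (ev f p)⁻¹))⁻¹ =
        ev f l'.flatten * (ev f m'.flatten)⁻¹ := by group
    rw [h5] at h4
    exact h4)
  omega

end Pool.Agent.L0h34.CW
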