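import Pool.Agent.L0h34.CW.Basics
import Pool.Agent.Helper79.Comap

/-! Inverse morphisms. -/

set_option autoImplicit false

namespace Pool.Agent.L0h34.CW

theorem subg : S_SUBG := by
  intro A B G _ _ _ f h hcf
  have hB := Fintype.ofFinite B
  obtain ⟨g, hg⟩ := hcf
  have h1 := Pool.Agent.Helper79.Trans.isContextFree_comap_inter h
    (⟨fun _ _ => (), (), Set.univ⟩ : DFA B Unit) g
  rw [hg] at h1
  have e : ({w : List B | ev f (w.flatMap h) ≠ 1} : Language B) =
      {w : List B | w.flatMap h ∈ ({w : List A | ev f w ≠ 1} : Language A) ∧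
        w ∈ (⟨fun _ _ => (), (), Set.univ⟩ : DFA B Unit).accepts} := by
    apply Set.ext
    intro w
    constructor
    · intro hw
      exact ⟨hw, Set.mem_univ _⟩
    · intro hw
      exact hw.1
  rw [e]
  exact h1

end Pool.Agent.L0h34.CW
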