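import Pool.Agent.L0h34.CW.Basics

/-! Project CW, module VIS: words which visit many vertices. -/

set_option autoImplicit false

namespace Pool.Agent.L0h34.CW

namespace Vis

variable {A G : Type} [Group G] {f : A → G} {Δ : Finset (List A)}

/-- The cosets visited on the path of `E` from `z`. -/
def V (f : A → G) (N : Subgroup G) (z : G) (E : List A) : Set (Set G) :=
  {c : Set G | ∃ i ≤ E.length, c = rc N (z * ev f (E.take i))}

theorem V_finite (N : Subgroup G) (z : G) (E : List A) : (V f N z E).Finite := by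
  refine ((Set.finite_Iic E.length).image fun i => rc N (z * ev f (E.take i))).subset ?_
  rintro c ⟨i, hi, rfl⟩
  exact ⟨i, hi, rfl⟩

theorem V_left (N : Subgroup G) (z : G) (E E' : List A) : V f N z E ⊆ V f N z (E ++ E') := by
  rintro c ⟨i, hi, rfl⟩
  refine ⟨i, by rw [List.length_append]; omega, ?_⟩
  rw [List.take_append_of_le_length hi]

theorem V_right (N : Subgroup G) (z : G) (E E' : List A) :
    V f N (z * ev f E) E' ⊆ V f N z (E ++ E') := by
  rintro c ⟨i, hi, rfl⟩
  refine ⟨E.length + i, by rw [List.length_append]; omega, ?_⟩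
  rw [List.take_length_add_append, ev_append, mul_assoc]

theorem V_shift {N H : Subgroup G} {z h : G} (hn : NormC N H z) (hh : h ∈ H) (E : List A) :
    (V f N z E).ncard = (V f N (z * h) E).ncard := by
  have hconj : ∀ x : G, x ∈ N ↔ (z * h * z⁻¹) * x * (z * h * z⁻¹)⁻¹ ∈ N := by
    intro x
    constructor
    · intro hx
      exact hn h hh x hx
    · intro hx
      have := hn h⁻¹ (H.inv_mem hh) _ hx
      have e : z * h⁻¹ * z⁻¹ * (z * h * z⁻¹ * x * (z * h * z⁻¹)⁻¹) * (z * h⁻¹ * z⁻¹)⁻¹ = x := by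
        group
      rwa [e] at this
  have key : ∀ a : G, (fun y => (z * h * z⁻¹) * y) '' rc N (z * a) = rc N (z * h * a) := by
    intro a
    ext y
    constructor
    · rintro ⟨x, hx, rfl⟩
      change z * h * z⁻¹ * x * (z * h * a)⁻¹ ∈ N
      have e : z * h * z⁻¹ * x * (z * h * a)⁻¹ =
          (z * h * z⁻¹) * (x * (z * a)⁻¹) * (z * h * z⁻¹)⁻¹ := by group
      rw [e]
      exact (hconj _).1 hx
    · intro hy
      refine ⟨(z * h * z⁻¹)⁻¹ * y, ?_, mul_inv_cancel_left _ _⟩
      change (z * h * z⁻¹)⁻¹ * y * (z * a)⁻¹ ∈ N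
      rw [hconj]
      have e : z * h * z⁻¹ * ((z * h * z⁻¹)⁻¹ * y * (z * a)⁻¹) * (z * h * z⁻¹)⁻¹ =
          y * (z * h * a)⁻¹ := by group
      rw [e]
      exact hy
  have hinj : Function.Injective (fun c : Set G => (fun y => (z * h * z⁻¹) * y) '' c) :=
    Set.image_injective.2 (mul_right_injective _)
  have e : V f N (z * h) E = (fun c : Set G => (fun y => (z * h * z⁻¹) * y) '' c) '' V f N z E := by
    ext c
    constructor
    · rintro ⟨i, hi, rfl⟩
      exact ⟨_, ⟨i, hi, rfl⟩, key _⟩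
    · rintro ⟨_, ⟨i, hi, rfl⟩, rfl⟩
      exact ⟨i, hi, key _⟩
  rw [e, Set.ncard_image_of_injective _ hinj]

theorem exists_long (hG : Tors G) {N : Subgroup G} {z : G} (hz : ¬ FinOrb N (Gp f Δ) z) (k : ℕ) :
    ∃ E, Star Δ E ∧ k ≤ (V f N z E).ncard := by
  induction k with
  | zero => exact ⟨[], Star.nil, Nat.zero_le _⟩
  | succ k ih =>
    obtain ⟨E, hE, hk⟩ := ih
    have h1 : ∃ h ∈ Gp f Δ, rc N (z * h) ∉ V f N z E := by
      by_contra hcon
      push Not at hcon
      refine hz ((V_finite (f := f) N z E).subset ?_)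
      rintro c ⟨h, hh, rfl⟩
      exact hcon h hh
    obtain ⟨h, hh, hnot⟩ := h1
    obtain ⟨w, hw, hwe⟩ := exists_word hG
      ((Gp f Δ).mul_mem ((Gp f Δ).inv_mem hE.mem_Gp) hh)
    refine ⟨E ++ w, hE.append hw, ?_⟩
    have hsub : insert (rc N (z * h)) (V f N z E) ⊆ V f N z (E ++ w) := by
      rw [Set.insert_subset_iff]
      refine ⟨⟨(E ++ w).length, le_rfl, ?_⟩, V_left N z E w⟩
      rw [List.take_length, ev_append, hwe]
      congr 1
      group
    have h2 := Set.ncard_le_ncard hsub (V_finite N z _)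
    rw [Set.ncard_insert_of_notMem hnot (V_finite N z E)] at h2
    omega

end Vis

open Vis in
/-- VIS -/
theorem vis : S_VIS := by
  intro A G _ hG f N Δ k
  classical
  obtain ⟨P, hP⟩ := exists_prefixes Δ
  have main : ∀ P : Finset (List A), ∃ E, Star Δ E ∧ ∀ p ∈ P, ¬ FinOrb N (Gp f Δ) (ev f p)⁻¹ →
      NormC N (Gp f Δ) (ev f p)⁻¹ → ∀ h ∈ Gp f Δ, k ≤ (V f N ((ev f p)⁻¹ * h) E).ncard := by
    intro P
    induction P using Finset.induction_on with
    | empty => exact ⟨[], Star.nil, by simp⟩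
    | insert p P hp ih =>
      obtain ⟨E, hE, ih⟩ := ih
      by_cases hz : FinOrb N (Gp f Δ) (ev f p)⁻¹
      · refine ⟨E, hE, ?_⟩
        intro q hq hq1 hq2 h hh
        rcases Finset.mem_insert.1 hq with rfl | hq
        · exact absurd hz hq1
        · exact ih q hq hq1 hq2 h hh
      · obtain ⟨E', hE', hk⟩ := exists_long hG hz k
        refine ⟨E' ++ E, hE'.append hE, ?_⟩
        intro q hq hq1 hq2 h hh
        rcases Finset.mem_insert.1 hq with rfl | hq
        · refine hk.trans ?_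
          rw [V_shift hq2 hh]
          exact Set.ncard_le_ncard (V_left N _ E' E) (V_finite N _ _)
        · refine (ih q hq hq1 hq2 (h * ev f E') ((Gp f Δ).mul_mem hh hE'.mem_Gp)).trans ?_
          rw [← mul_assoc]
          exact Set.ncard_le_ncard (V_right N _ E' E) (V_finite N _ _)
  obtain ⟨E, hE, hmain⟩ := main P
  refine ⟨E, hE, ?_⟩
  intro x y hxy h1 h2 h hh
  obtain ⟨p, hp, -, x₁, hx₁, rfl⟩ := hP x y hxy
  have hx₁' : (ev f x₁)⁻¹ ∈ Gp f Δ := (Gp f Δ).inv_mem hx₁.mem_Gp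
  rw [ev_append, mul_inv_rev] at h1 h2 ⊢
  rw [finOrb_mul hx₁'] at h1
  rw [normC_mul hx₁'] at h2
  have := hmain p hp h1 h2 ((ev f x₁)⁻¹ * h) ((Gp f Δ).mul_mem hx₁' hh)
  rw [← mul_assoc] at this
  exact this

end Pool.Agent.L0h34.CW
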