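import Pool.Agent.L0h34.CW.GRAM
import Pool.Agent.L0h34.CW.REL
import Pool.Agent.L0h34.CW.CLS
import Pool.Agent.L0h34.CW.EXPG
import Pool.Agent.L0h34.CW.LOOP
import Pool.Agent.L0h34.CW.CORE
import Pool.Agent.L0h34.CW.RETA
import Pool.Agent.L0h34.CW.RET
import Pool.Agent.L0h34.CW.VIS
import Pool.Agent.L0h34.CW.MAT
import Pool.Agent.L0h34.CW.MIRC
import Pool.Agent.L0h34.CW.CRS
import Pool.Agent.L0h34.CW.PAT
import Pool.Agent.L0h34.CW.SUBG
import Pool.Agent.L0h34.CW.LIN
import Pool.Agent.L0h34.CW.STAGE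
import Pool.Agent.L0h34.CW.MAIN
import Pool.Agent.L0h28.CW.NS
import Pool.Agent.L0h28.CW.LIP
import Pool.Agent.L0h28.CW.EXP
import Pool.Agent.L0h28.CW.FIX
import Pool.Agent.L0h28.CW.LING
import Pool.Agent.L0h9.CW.CONTRA
import Pool.Agent.L0h9.CW.EXC

/-! All modules together. -/

set_option autoImplicit false

namespace Pool.Agent.L0h34.CW

theorem all_main : S_MAIN := by
  have hret : S_RET := ret fix (reta (core loop))
  exact main gram (stage (lin Pool.Agent.L0h9.CW.exc hret ns lip (pat vis mat) mirc)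
    (exp Pool.Agent.L0h9.CW.exc hret) (ling rel) expg') (Pool.Agent.L0h9.CW.contra rel)

end Pool.Agent.L0h34.CW
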