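import Pool.Agent.L0h34.CW.Defs

/-! Basic facts for project CW. -/

set_option autoImplicit false

namespace Pool.Agent.L0h34.CW

section
variable {A G : Type} [Group G] {f : A → G} {Δ Δ' Δ'' : Finset (List A)}

@[simp] theorem ev_nil : ev f [] = 1 := rfl

@[simp] theorem ev_append (u v : List A) : ev f (u ++ v) = ev f u * ev f v := by
  simp [ev]

@[simp] theorem ev_cons (a : A) (v : List A) : ev f (a :: v) = f a * ev f v := by
  simp [ev]

theorem ev_singleton (a : A) : ev f [a] = f a := by simp [ev]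

theorem ev_replicate_flatten (n : ℕ) (v : List A) :
    ev f (List.replicate n v).flatten = ev f v ^ n := by
  induction n with
  | zero => simp
  | succ n ih => rw [List.replicate_succ, List.flatten_cons, ev_append, ih, pow_succ']

/-! ### `Star` -/

theorem Star.nil : Star Δ [] := ⟨[], by simp, rfl⟩

theorem Star.append {u v : List A} (hu : Star Δ u) (hv : Star Δ v) : Star Δ (u ++ v) := by
  obtain ⟨l, hl, rfl⟩ := hu
  obtain ⟨m, hm, rfl⟩ := hv
  refine ⟨l ++ m, ?_, by simp⟩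
  intro d hd
  rcases List.mem_append.1 hd with h | h
  · exact hl d h
  · exact hm d h

theorem Star.of_mem {d : List A} (h : d ∈ Δ) : Star Δ d := ⟨[d], by simpa using h, by simp⟩

theorem Star.flatten {l : List (List A)} (h : ∀ d ∈ l, Star Δ d) : Star Δ l.flatten := by
  induction l with
  | nil => exact Star.nil
  | cons a l ih =>
    rw [List.flatten_cons]
    exact (h a (by simp)).append (ih fun d hd => h d (by simp [hd]))

theorem Star.replicate {v : List A} (h : Star Δ v) (n : ℕ) :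
    Star Δ (List.replicate n v).flatten :=
  Star.flatten fun d hd => by rw [List.eq_of_mem_replicate hd]; exact h

theorem Star.of_fine (h : Fine Δ' Δ) {w : List A} (hw : Star Δ' w) : Star Δ w := by
  obtain ⟨l, hl, rfl⟩ := hw
  exact Star.flatten fun d hd => h.2 d (hl d hd)

theorem Fine.trans (h' : Fine Δ'' Δ') (h : Fine Δ' Δ) : Fine Δ'' Δ :=
  ⟨h'.1, fun d hd => Star.of_fine h (h'.2 d hd)⟩

theorem Fine.refl (h : Nice Δ) : Fine Δ Δ := ⟨h, fun _ hd => Star.of_mem hd⟩

/-- Cutting a word of `Δ*` at a position. -/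
theorem Star.split {x y : List A} (h : Star Δ (x ++ y)) :
    ∃ x₁ p s y₁, x = x₁ ++ p ∧ y = s ++ y₁ ∧ Star Δ x₁ ∧ Star Δ y₁ ∧
      ((p = [] ∧ s = []) ∨ p ++ s ∈ Δ) := by
  obtain ⟨l, hl, h⟩ := h
  induction l generalizing x y with
  | nil =>
    have h1 : x ++ y = [] := by simpa using h.symm
    have hx : x = [] := (List.append_eq_nil_iff.1 h1).1
    have hy : y = [] := (List.append_eq_nil_iff.1 h1).2
    subst hx
    subst hy
    exact ⟨[], [], [], [], rfl, rfl, Star.nil, Star.nil, Or.inl ⟨rfl, rfl⟩⟩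
  | cons a l ih =>
    rw [List.flatten_cons] at h
    have ha : a ∈ Δ := hl a (by simp)
    have hl' : ∀ d ∈ l, d ∈ Δ := fun d hd => hl d (by simp [hd])
    rcases List.append_eq_append_iff.1 h with ⟨c, hc1, hc2⟩ | ⟨c, hc1, hc2⟩
    · -- x = a ++ c, l.flatten = c ++ y
      obtain ⟨x₁, p, s, y₁, h1, h2, h3, h4, h5⟩ := ih hl' hc2
      refine ⟨a ++ x₁, p, s, y₁, ?_, h2, (Star.of_mem ha).append h3, h4, h5⟩
      rw [hc1, h1, List.append_assoc]
    · -- a = x ++ c, y = c ++ l.flatten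
      refine ⟨[], x, c, l.flatten, rfl, hc2, Star.nil, ⟨l, hl', rfl⟩, Or.inr ?_⟩
      rw [← hc1]
      exact ha

/-- Long factors contain full letters. -/
theorem exists_letter (Δ : Finset (List A)) : ∃ L : ℕ, 0 < L ∧ (∀ d ∈ Δ, d.length ≤ L) ∧
    ∀ x b y, Star Δ (x ++ b ++ y) → 2 * L ≤ b.length →
      ∃ s d t, b = s ++ d ++ t ∧ d ∈ Δ ∧ Star Δ (x ++ s) ∧ Star Δ (t ++ y) ∧ s.length ≤ L := by
  have hL : ∀ d ∈ Δ, d.length ≤ Δ.sup List.length + 1 := fun d hd =>
    (Finset.le_sup (f := List.length) hd).trans (Nat.le_succ _)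
  refine ⟨Δ.sup List.length + 1, Nat.succ_pos _, hL, ?_⟩
  intro x b y h hb
  rw [List.append_assoc] at h
  obtain ⟨x₁, p, s, y₁, hx, hby, hx₁, hy₁, hps⟩ := h.split
  have hxs : Star Δ (x ++ s) := by
    rw [hx, List.append_assoc]
    refine hx₁.append ?_
    rcases hps with ⟨rfl, rfl⟩ | hps
    · exact Star.nil
    · exact Star.of_mem hps
  have hs : s.length ≤ Δ.sup List.length + 1 := by
    rcases hps with ⟨rfl, rfl⟩ | hps
    · simp
    · have := hL _ hps
      rw [List.length_append] at this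
      omega
  -- b ++ y = s ++ y₁, s shorter than b
  have hsb : ∃ b₁, b = s ++ b₁ ∧ y₁ = b₁ ++ y := by
    rcases List.append_eq_append_iff.1 hby with ⟨c, hc1, hc2⟩ | ⟨c, hc1, hc2⟩
    · -- s = b ++ c
      have : b.length ≤ s.length := by rw [hc1]; simp
      have hc : c = [] := by
        have h1 := congrArg List.length hc1
        rw [List.length_append] at h1
        exact List.length_eq_zero_iff.1 (by omega)
      subst hc
      refine ⟨[], by simpa using hc1.symm, by simpa using hc2.symm⟩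
    · exact ⟨c, hc1, hc2⟩
  obtain ⟨b₁, hb₁, hy₁'⟩ := hsb
  obtain ⟨l, hl, hl'⟩ := hy₁
  have hb₁len : Δ.sup List.length + 1 ≤ b₁.length := by
    have := congrArg List.length hb₁
    rw [List.length_append] at this
    omega
  cases l with
  | nil =>
    rw [List.flatten_nil] at hl'
    rw [hy₁'] at hl'
    have := congrArg List.length hl'
    simp at this
    omega
  | cons d l =>
    rw [List.flatten_cons, hy₁'] at hl'
    have hd : d ∈ Δ := hl d (by simp)
    have hdl := hL d hd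
    rcases List.append_eq_append_iff.1 hl' with ⟨c, hc1, hc2⟩ | ⟨c, hc1, hc2⟩
    · -- b₁ = d ++ c, l.flatten = c ++ y
      refine ⟨s, d, c, ?_, hd, hxs, ?_, hs⟩
      · rw [hb₁, hc1, List.append_assoc]
      · rw [← hc2]
        exact ⟨l, fun e he => hl e (by simp [he]), rfl⟩
    · -- d = b₁ ++ c
      have h1 := congrArg List.length hc1
      rw [List.length_append] at h1
      have hc : c = [] := List.length_eq_zero_iff.1 (by omega)
      subst hc
      rw [List.append_nil] at hc1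
      rw [List.nil_append] at hc2
      refine ⟨s, d, [], ?_, hd, hxs, ?_, hs⟩
      · rw [hb₁, hc1, List.append_nil]
      · rw [List.nil_append, hc2]
        exact ⟨l, fun e he => hl e (by simp [he]), rfl⟩

/-! ### Groups of values -/

theorem Star.mem_Gp {w : List A} (h : Star Δ w) : ev f w ∈ Gp f Δ := by
  obtain ⟨l, hl, rfl⟩ := h
  induction l with
  | nil => exact (Gp f Δ).one_mem
  | cons a l ih =>
    rw [List.flatten_cons, ev_append]
    exact (Gp f Δ).mul_mem (Subgroup.subset_closure ⟨a, hl a (by simp), rfl⟩)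
      (ih fun d hd => hl d (by simp [hd]))

theorem exists_word (hG : Tors G) {h : G} (hh : h ∈ Gp f Δ) : ∃ w, Star Δ w ∧ ev f w = h := by
  induction hh using Subgroup.closure_induction with
  | mem x hx =>
    obtain ⟨d, hd, rfl⟩ := hx
    exact ⟨d, Star.of_mem hd, rfl⟩
  | one => exact ⟨[], Star.nil, rfl⟩
  | mul x y _ _ hx hy =>
    obtain ⟨u, hu, rfl⟩ := hx
    obtain ⟨v, hv, rfl⟩ := hy
    exact ⟨u ++ v, hu.append hv, ev_append u v⟩
  | inv x _ hx =>
    obtain ⟨u, hu, rfl⟩ := hx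
    obtain ⟨n, hn, hn'⟩ := hG (ev f u)
    refine ⟨(List.replicate (n - 1) u).flatten, hu.replicate _, ?_⟩
    rw [ev_replicate_flatten]
    refine eq_inv_of_mul_eq_one_left ?_
    rw [← pow_succ, Nat.sub_add_cancel hn, hn']

theorem Gp_mono (h : Fine Δ' Δ) : Gp f Δ' ≤ Gp f Δ := by
  refine (Subgroup.closure_le _).2 ?_
  rintro x ⟨d, hd, rfl⟩
  exact (h.2 d hd).mem_Gp

/-- The left ends of the factors of words of `Δ*` lie in finitely many cosets `H (ev f p)`. -/
theorem exists_prefixes (Δ : Finset (List A)) : ∃ P : Finset (List A), ∀ x y, Star Δ (x ++ y) →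
    ∃ p ∈ P, (∃ s, Star Δ (p ++ s)) ∧ ∃ x₁, Star Δ x₁ ∧ x = x₁ ++ p := by
  classical
  refine ⟨insert [] (Δ.biUnion fun d => d.inits.toFinset), ?_⟩
  intro x y h
  obtain ⟨x₁, p, s, y₁, hx, hy, hx₁, hy₁, hps⟩ := h.split
  rcases hps with ⟨rfl, rfl⟩ | hps
  · exact ⟨[], Finset.mem_insert_self _ _, ⟨[], Star.nil⟩, x₁, hx₁, by simpa using hx⟩
  · refine ⟨p, Finset.mem_insert_of_mem (Finset.mem_biUnion.2 ⟨p ++ s, hps, ?_⟩),
      ⟨s, Star.of_mem hps⟩, x₁, hx₁, hx⟩
    simp

/-! ### Cosets -/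

theorem rc_eq {N : Subgroup G} {x y : G} : rc N x = rc N y ↔ x * y⁻¹ ∈ N := by
  constructor
  · intro h
    have : x ∈ rc N y := by
      rw [← h]
      change x * x⁻¹ ∈ N
      rw [mul_inv_cancel]
      exact N.one_mem
    exact this
  · intro h
    ext z
    change z * x⁻¹ ∈ N ↔ z * y⁻¹ ∈ N
    have e : z * y⁻¹ = z * x⁻¹ * (x * y⁻¹) := by group
    rw [e]
    exact (N.mul_mem_cancel_right h).symm

theorem FinOrb.mono {N H H' : Subgroup G} {z : G} (hH : H' ≤ H) (h : FinOrb N H z) :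
    FinOrb N H' z := by
  refine Set.Finite.subset h ?_
  rintro c ⟨k, hk, rfl⟩
  exact ⟨k, hH hk, rfl⟩

theorem FinOrb.mono_left {N U H : Subgroup G} {z : G} (hN : N ≤ U) (h : FinOrb N H z) :
    FinOrb U H z := by
  have h1 : {c : Set G | ∃ k ∈ H, c = rc U (z * k)} ⊆
      (fun c : Set G => {y | ∃ x ∈ c, y * x⁻¹ ∈ U}) '' {c : Set G | ∃ k ∈ H, c = rc N (z * k)} := by
    rintro c ⟨k, hk, rfl⟩
    refine ⟨rc N (z * k), ⟨k, hk, rfl⟩, ?_⟩
    ext y
    constructor
    · rintro ⟨x, hx, hy⟩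
      change y * (z * k)⁻¹ ∈ U
      have e : y * (z * k)⁻¹ = (y * x⁻¹) * (x * (z * k)⁻¹) := by group
      rw [e]
      exact U.mul_mem hy (hN hx)
    · intro hy
      refine ⟨z * k, ?_, hy⟩
      change z * k * (z * k)⁻¹ ∈ N
      rw [mul_inv_cancel]
      exact N.one_mem
  exact (h.image _).subset h1

theorem finOrb_mul {N H : Subgroup G} {z h : G} (hh : h ∈ H) :
    FinOrb N H (z * h) ↔ FinOrb N H z := by
  have e : {c : Set G | ∃ k ∈ H, c = rc N (z * h * k)} = {c : Set G | ∃ k ∈ H, c = rc N (z * k)} := by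
    ext c
    constructor
    · rintro ⟨k, hk, rfl⟩
      exact ⟨h * k, H.mul_mem hh hk, by rw [mul_assoc]⟩
    · rintro ⟨k, hk, rfl⟩
      exact ⟨h⁻¹ * k, H.mul_mem (H.inv_mem hh) hk, by congr 1; group⟩
  unfold FinOrb
  rw [e]

theorem finOrb_of_finite {N H : Subgroup G} (hH : (H : Set G).Finite) (z : G) : FinOrb N H z := by
  refine (hH.image fun k => rc N (z * k)).subset ?_
  rintro c ⟨k, hk, rfl⟩
  exact ⟨k, hk, rfl⟩

/-- `z⁻¹ N z` -/
theorem finOrb_conj {N H : Subgroup G} {z : G} :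
    FinOrb (N.map (MulAut.conj z⁻¹).toMonoidHom) H 1 ↔ FinOrb N H z := by
  have key : ∀ k : G, rc (N.map (MulAut.conj z⁻¹).toMonoidHom) (1 * k) =
      (fun y => z⁻¹ * y) '' rc N (z * k) := by
    intro k
    ext y
    constructor
    · intro hy
      obtain ⟨n, hn, hn'⟩ := Subgroup.mem_map.1 hy
      refine ⟨z * y, ?_, by simp⟩
      change z * y * (z * k)⁻¹ ∈ N
      have e : z * y * (z * k)⁻¹ = n := by
        have h1 : z⁻¹ * n * z = y * (1 * k)⁻¹ := by simpa using hn'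
        have h2 : y = z⁻¹ * n * z * k := by rw [h1]; group
        rw [h2]
        group
      rw [e]
      exact hn
    · rintro ⟨x, hx, rfl⟩
      change z⁻¹ * x * (1 * k)⁻¹ ∈ N.map (MulAut.conj z⁻¹).toMonoidHom
      refine Subgroup.mem_map.2 ⟨x * (z * k)⁻¹, hx, ?_⟩
      simp [mul_assoc]
  have hinj : Function.Injective (fun c : Set G => (fun y => z⁻¹ * y) '' c) :=
    Set.image_injective.2 (mul_right_injective z⁻¹)
  have e : {c : Set G | ∃ k ∈ H, c = rc (N.map (MulAut.conj z⁻¹).toMonoidHom) (1 * k)} =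
      (fun c : Set G => (fun y => z⁻¹ * y) '' c) '' {c : Set G | ∃ k ∈ H, c = rc N (z * k)} := by
    ext c
    constructor
    · rintro ⟨k, hk, rfl⟩
      exact ⟨_, ⟨k, hk, rfl⟩, (key k).symm⟩
    · rintro ⟨_, ⟨k, hk, rfl⟩, rfl⟩
      exact ⟨k, hk, (key k).symm⟩
  unfold FinOrb
  rw [e]
  exact ⟨fun h => Set.Finite.of_finite_image h hinj.injOn, fun h => h.image _⟩

/-- Finite orbits and indices. -/
theorem finOrb_iff {N H : Subgroup G} {z : G} :
    FinOrb N H z ↔ (N.map (MulAut.conj z⁻¹).toMonoidHom).relIndex H ≠ 0 := by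
  rw [← finOrb_conj]
  set Y := N.map (MulAut.conj z⁻¹).toMonoidHom with hY
  have key : ∀ a b : H, (QuotientGroup.rightRel (Y.subgroupOf H)).r a b ↔
      rc Y (1 * (a : G)) = rc Y (1 * (b : G)) := by
    intro a b
    rw [rc_eq]
    change (QuotientGroup.rightRel (Y.subgroupOf H)) a b ↔ _
    rw [QuotientGroup.rightRel_apply, Subgroup.mem_subgroupOf]
    have e : ((b * a⁻¹ : H) : G) = (1 * (a : G) * (1 * (b : G))⁻¹)⁻¹ := by simp
    rw [e]
    exact Y.inv_mem_iff
  have hequiv : Nonempty ({c : Set G | ∃ k ∈ H, c = rc Y (1 * k)} ≃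
      Quotient (QuotientGroup.rightRel (Y.subgroupOf H))) := by
    refine ⟨(Equiv.ofBijective (Quotient.lift (fun a : H =>
      (⟨rc Y (1 * (a : G)), a, a.2, rfl⟩ : {c : Set G | ∃ k ∈ H, c = rc Y (1 * k)}))
      (fun a b h => Subtype.ext ((key a b).1 h))) ⟨?_, ?_⟩).symm⟩
    · intro a b
      induction a using Quotient.inductionOn
      induction b using Quotient.inductionOn
      intro h
      exact Quotient.sound ((key _ _).2 (congrArg Subtype.val h))
    · rintro ⟨c, k, hk, rfl⟩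
      exact ⟨Quotient.mk _ ⟨k, hk⟩, rfl⟩
  obtain ⟨e⟩ := hequiv
  rw [Subgroup.relIndex, Subgroup.index]
  rw [← Nat.card_congr (QuotientGroup.quotientRightRelEquivQuotientLeftRel (Y.subgroupOf H)),
    ← Nat.card_congr e]
  unfold FinOrb
  constructor
  · intro h
    have : Finite {c : Set G | ∃ k ∈ H, c = rc Y (1 * k)} := h
    have hne : Nonempty {c : Set G | ∃ k ∈ H, c = rc Y (1 * k)} := ⟨⟨_, 1, H.one_mem, rfl⟩⟩
    exact Nat.card_pos.ne'
  · intro h
    have : Finite {c : Set G | ∃ k ∈ H, c = rc Y (1 * k)} := Nat.finite_of_card_ne_zero h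
    exact Set.toFinite _

theorem NormC.mono {N H H' : Subgroup G} {z : G} (hH : H' ≤ H) (h : NormC N H z) :
    NormC N H' z := fun k hk n hn => h k (hH hk) n hn

theorem normC_mul {N H : Subgroup G} {z h : G} (hh : h ∈ H) :
    NormC N H (z * h) ↔ NormC N H z := by
  constructor
  · intro H1 k hk n hn
    have := H1 (h⁻¹ * k * h) (H.mul_mem (H.mul_mem (H.inv_mem hh) hk) hh) n hn
    have e : z * h * (h⁻¹ * k * h) * (z * h)⁻¹ = z * k * z⁻¹ := by group
    rwa [e] at this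
  · intro H1 k hk n hn
    have := H1 (h * k * h⁻¹) (H.mul_mem (H.mul_mem hh hk) (H.inv_mem hh)) n hn
    have e : z * (h * k * h⁻¹) * z⁻¹ = z * h * k * (z * h)⁻¹ := by group
    rwa [e] at this

/-! ### Reading backwards -/

@[simp] theorem fi_fi : fi (fi f) = f := by
  funext a
  simp [fi]

theorem ev_fi_reverse (w : List A) : ev (fi f) w.reverse = (ev f w)⁻¹ := by
  induction w with
  | nil => simp
  | cons a w ih =>
    rw [List.reverse_cons, ev_append, ih, ev_singleton, ev_cons, mul_inv_rev]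
    rfl

@[simp] theorem mem_mir {w : List A} : w ∈ mir Δ ↔ w.reverse ∈ Δ := by
  unfold mir
  rw [Finset.mem_map]
  constructor
  · rintro ⟨a, ha, rfl⟩
    simpa using ha
  · intro h
    exact ⟨w.reverse, h, List.reverse_reverse w⟩

@[simp] theorem mir_mir : mir (mir Δ) = Δ := by
  ext w
  simp

theorem star_mir_aux {Δ : Finset (List A)} {w : List A} (h : Star Δ w) :
    Star (mir Δ) w.reverse := by
  obtain ⟨l, hl, rfl⟩ := h
  refine ⟨(l.map List.reverse).reverse, ?_, ?_⟩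
  · intro d hd
    rw [List.mem_reverse, List.mem_map] at hd
    obtain ⟨e, he, rfl⟩ := hd
    rw [mem_mir, List.reverse_reverse]
    exact hl e he
  · rw [List.reverse_flatten]

theorem star_mir {w : List A} : Star (mir Δ) w.reverse ↔ Star Δ w := by
  constructor
  · intro h
    have := star_mir_aux h
    rwa [mir_mir, List.reverse_reverse] at this
  · exact star_mir_aux

theorem star_mir' {w : List A} : Star (mir Δ) w ↔ Star Δ w.reverse := by
  have h := star_mir (Δ := Δ) (w := w.reverse)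
  rwa [List.reverse_reverse] at h

theorem nice_mir : Nice (mir Δ) ↔ Nice Δ := by
  constructor
  · intro h d hd h0
    refine h d.reverse (by rw [mem_mir, List.reverse_reverse]; exact hd) ?_
    rw [h0, List.reverse_nil]
  · intro h d hd h0
    refine h d.reverse (mem_mir.1 hd) ?_
    rw [h0, List.reverse_nil]

theorem fine_mir_aux {Δ Δ' : Finset (List A)} (h : Fine Δ' Δ) : Fine (mir Δ') (mir Δ) :=
  ⟨nice_mir.2 h.1, fun d hd => star_mir'.2 (h.2 _ (mem_mir.1 hd))⟩

theorem fine_mir : Fine (mir Δ') (mir Δ) ↔ Fine Δ' Δ := by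
  constructor
  · intro h
    have := fine_mir_aux h
    rwa [mir_mir, mir_mir] at this
  · exact fine_mir_aux

theorem Gp_mir : Gp (fi f) (mir Δ) = Gp f Δ := by
  unfold Gp
  apply le_antisymm
  · refine (Subgroup.closure_le _).2 ?_
    rintro x ⟨d, hd, rfl⟩
    have h1 := ev_fi_reverse (f := f) d.reverse
    rw [List.reverse_reverse] at h1
    rw [h1]
    exact Subgroup.inv_mem _ (Subgroup.subset_closure ⟨d.reverse, mem_mir.1 hd, rfl⟩)
  · refine (Subgroup.closure_le _).2 ?_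
    rintro x ⟨d, hd, rfl⟩
    have h1 := ev_fi_reverse (f := f) d
    have h2 : ev f d = (ev (fi f) d.reverse)⁻¹ := by rw [h1, inv_inv]
    rw [h2]
    exact Subgroup.inv_mem _ (Subgroup.subset_closure
      ⟨d.reverse, by rw [mem_mir, List.reverse_reverse]; exact hd, rfl⟩)

/-! ### Subgroups of `G × Gᵐᵒᵖ` -/

theorem mem_N1 {𝓗 : Subgroup (G × Gᵐᵒᵖ)} {g : G} : g ∈ N1 𝓗 ↔ (g, 1) ∈ 𝓗 := Iff.rfl

theorem mem_N2 {𝓗 : Subgroup (G × Gᵐᵒᵖ)} {g : G} : g ∈ N2 𝓗 ↔ (1, MulOpposite.op g) ∈ 𝓗 :=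
  Iff.rfl

theorem mem_U1 {𝓗 : Subgroup (G × Gᵐᵒᵖ)} {g : G} :
    g ∈ U1 𝓗 ↔ ∃ v : G, (g, MulOpposite.op v) ∈ 𝓗 := by
  unfold U1
  rw [Subgroup.mem_map]
  constructor
  · rintro ⟨⟨a, b⟩, h, rfl⟩
    exact ⟨b.unop, h⟩
  · rintro ⟨v, h⟩
    exact ⟨_, h, rfl⟩

theorem mem_U2 {𝓗 : Subgroup (G × Gᵐᵒᵖ)} {g : G} :
    g ∈ U2 𝓗 ↔ ∃ u : G, (u, MulOpposite.op g) ∈ 𝓗 := by
  unfold U2
  rw [Subgroup.mem_unop, Subgroup.mem_map]
  constructor
  · rintro ⟨⟨a, b⟩, h, h'⟩
    refine ⟨a, ?_⟩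
    have h2 : b = MulOpposite.op g := h'
    rw [← h2]
    exact h
  · rintro ⟨u, h⟩
    exact ⟨_, h, rfl⟩

theorem mem_sw {𝓗 : Subgroup (G × Gᵐᵒᵖ)} {x : G × Gᵐᵒᵖ} :
    x ∈ sw 𝓗 ↔ (x.2.unop, MulOpposite.op x.1) ∈ 𝓗 := Iff.rfl

theorem normIn1 (𝓗 : Subgroup (G × Gᵐᵒᵖ)) : NormIn (N1 𝓗) (U1 𝓗) := by
  constructor
  · intro x hx
    exact mem_U1.2 ⟨1, mem_N1.1 hx⟩
  · intro u hu n hn
    obtain ⟨v, hv⟩ := mem_U1.1 hu
    have h1 := 𝓗.mul_mem (𝓗.mul_mem hv (mem_N1.1 hn)) (𝓗.inv_mem hv)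
    rw [mem_N1]
    simpa using h1

theorem normIn2 (𝓗 : Subgroup (G × Gᵐᵒᵖ)) : NormIn (N2 𝓗) (U2 𝓗) := by
  constructor
  · intro x hx
    exact mem_U2.2 ⟨1, mem_N2.1 hx⟩
  · intro u hu n hn
    obtain ⟨v, hv⟩ := mem_U2.1 hu
    have h1 := 𝓗.mul_mem (𝓗.mul_mem (𝓗.inv_mem hv) (mem_N2.1 hn)) hv
    rw [mem_N2]
    have e : MulOpposite.op (u * n * u⁻¹) =
        (MulOpposite.op u)⁻¹ * MulOpposite.op n * MulOpposite.op u := by
      rw [← MulOpposite.op_inv, ← MulOpposite.op_mul, ← MulOpposite.op_mul, mul_assoc]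
    rw [e]
    simpa using h1

/-! ### Grammars -/

variable {g : BG A}

theorem Lk.trans {B C D : g.N} {u v u' v' : List A} (h : Lk g B C u v) (h' : Lk g C D u' v') :
    Lk g B D (u ++ u') (v' ++ v) := by
  induction h with
  | refl => simpa using h'
  | left hp _ hw ih =>
    rw [← List.append_assoc]
    exact Lk.left hp (ih h') hw
  | right hp hw _ ih =>
    rw [List.append_assoc]
    exact Lk.right hp hw (ih h')

theorem Lk.dv {B C : g.N} {u v w : List A} (h : Lk g B C u v) (hw : Dv g C w) :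
    Dv g B (u ++ w ++ v) := by
  induction h with
  | refl => simpa using hw
  | left hp _ hw' ih =>
    have := Dv.pair hp (ih hw) hw'
    simpa [List.append_assoc] using this
  | right hp hw' _ ih =>
    have := Dv.pair hp hw' (ih hw)
    simpa [List.append_assoc] using this

theorem Rch.refl (B : g.N) : Rch g B B := ⟨[], [], Lk.refl B⟩

theorem Rch.trans {B C D : g.N} (h : Rch g B C) (h' : Rch g C D) : Rch g B D := by
  obtain ⟨u, v, h⟩ := h
  obtain ⟨u', v', h'⟩ := h'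
  exact ⟨_, _, h.trans h'⟩

theorem TD.dv {H : Subgroup G} {B : g.N} {x : G} {w : List A} (h : TD g f H B x w) :
    Dv g B w := by
  induction h with
  | term h _ => exact Dv.term h
  | pair hp _ _ _ ih1 ih2 => exact Dv.pair hp ih1 ih2

theorem Thin.mono {H H' : Subgroup G} (hH : H' ≤ H) {B : g.N} {x y : G}
    (h : Thin g f H' B x y) : Thin g f H B x y :=
  ⟨fun h' => h.1 (h'.mono hH), fun h' => h.2 (h'.mono hH)⟩

theorem TD.thin {H : Subgroup G} {B : g.N} {x : G} {w : List A} (h : TD g f H B x w) :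
    Thin g f H B x (x * ev f w) := by
  cases h with
  | term _ h => exact h
  | pair _ _ _ h => exact h

theorem TD.mono {H H' : Subgroup G} (hH : H' ≤ H) {B : g.N} {x : G} {w : List A}
    (h : TD g f H' B x w) : TD g f H B x w := by
  induction h with
  | term h ht => exact TD.term h (ht.mono hH)
  | pair hp _ _ ht ih1 ih2 => exact TD.pair hp ih1 ih2 (ht.mono hH)

end

end Pool.Agent.L0h34.CW
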