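import Pool.Agent.L0h34.CW.UPUMP

/-! Module CYC. -/

set_option autoImplicit false

namespace Pool.Agent.L0h34.CW

variable {A : Type} {g : BG A}

theorem pump_link' {B : g.N} {x i : ℕ} {a : A} {s : List A} (hl : Lk g B B (List.replicate x a) [])
    (h : Dv g B (List.replicate i a ++ s)) (n : ℕ) :
    Dv g B (List.replicate (i + n * x) a ++ s) := by
  induction n with
  | zero => simpa using h
  | succ n ih =>
    have h1 := hl.dv ih
    rw [List.append_nil, ← List.append_assoc, List.replicate_append_replicate] at h1
    have e : x + (i + n * x) = i + (n + 1) * x := by ring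
    rwa [e] at h1

theorem cyc_aux [Fintype g.N] {K0 : ℕ} (hK0 : 1 ≤ K0) (a : A)
    (hU : ∀ (B : g.N) (i : ℕ), Dv g B (List.replicate i a) → K0 < i →
      ∃ d, 1 ≤ d ∧ d ≤ K0 ∧ ∀ n : ℕ, Dv g B (List.replicate (i + n * d) a))
    {ν M : ℕ} (hν : (Finset.univ : Finset g.N).card = ν) (hM : M = ν * (K0 + 1) + (K0 + 1)) :
    ∀ (l c : ℕ) (T : Finset g.N), T.card = c → ∀ (B : g.N) (w : List A), Dv g B w →
    ∀ (i : ℕ) (s : List A), s.length = l → w = List.replicate i a ++ s →
    c * (K0 + 1) + l * M + K0 < i →
    (∀ C, C ∉ T → ∃ x, Lk g C B (List.replicate x a) [] ∧ 1 ≤ x ∧ x + c * K0 ≤ ν * K0) →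
    ∃ d, 1 ≤ d ∧ d ≤ M ∧ ∀ n : ℕ, Dv g B (List.replicate (i + n * d) a ++ s) := by
  classical
  have hνK : ν * K0 ≤ M := by
    rw [hM]
    have : ν * K0 ≤ ν * (K0 + 1) := Nat.mul_le_mul_left _ (by omega)
    omega
  have hK0M : K0 ≤ M := by omega
  intro l
  induction l using Nat.strong_induction_on with
  | _ l ihl =>
  intro c
  induction c with
  | zero =>
    intro T hT B w hw i s hs hws hi hl
    have hB : B ∉ T := by
      rw [Finset.card_eq_zero.1 hT]
      simp
    obtain ⟨x, h1, h2, h3⟩ := hl B hB
    rw [hws] at hw
    exact ⟨x, h2, by omega, fun n => pump_link' h1 hw n⟩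
  | succ c ihc =>
    intro T hT B w hw
    have hcν : c + 1 ≤ ν := by
      rw [← hT, ← hν]
      exact Finset.card_le_univ T
    have hcK : (c + 1) * K0 ≤ ν * K0 := Nat.mul_le_mul_right _ hcν
    have e1 : (c + 1) * K0 = c * K0 + K0 := by ring
    have e2 : (c + 1) * (K0 + 1) = c * (K0 + 1) + (K0 + 1) := by ring
    induction hw with
    | term h =>
      intro i s hs hws hi hl
      have h3 := g.short _ _ h
      rw [hws, List.length_append, List.length_replicate] at h3
      omega
    | @pair B C D u v hp hu hv ihu ihv =>
      intro i s hs hws hi hl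
      by_cases hB : B ∈ T
      · rcases List.append_eq_append_iff.1 hws with ⟨a', ha', hv'⟩ | ⟨c', hu', hs'⟩
        · obtain ⟨f1, f2, f3⟩ := List.append_eq_replicate_iff.1 ha'.symm
          obtain ⟨i1, hi1⟩ : ∃ i1, i1 = u.length := ⟨_, rfl⟩
          obtain ⟨i2, hi2⟩ : ∃ i2, i2 = a'.length := ⟨_, rfl⟩
          rw [← hi1] at f1 f2
          rw [← hi2] at f1 f3
          rw [f3] at hv'
          have hfin : ∀ {d : ℕ}, (∀ n : ℕ, Dv g D (List.replicate (i2 + n * d) a ++ s)) →
              ∀ n : ℕ, Dv g B (List.replicate (i + n * d) a ++ s) := by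
            intro d hd n
            have h4 := Dv.pair hp hu (hd n)
            rw [f2, ← List.append_assoc, List.replicate_append_replicate] at h4
            have e : i1 + (i2 + n * d) = i + n * d := by omega
            rwa [e] at h4
          rcases Nat.lt_or_ge K0 i1 with h5 | h5
          · rw [f2] at hu
            obtain ⟨d, d1, d2, d3⟩ := hU C i1 hu h5
            refine ⟨d, d1, by omega, fun n => ?_⟩
            have h4 := Dv.pair hp (d3 n) hv
            rw [hv', ← List.append_assoc, List.replicate_append_replicate] at h4
            have e : i1 + n * d + i2 = i + n * d := by omega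
            rwa [e] at h4
          rcases Nat.eq_zero_or_pos i1 with h6 | h6
          · have hlk : Lk g B D [] [] := by
              have := Lk.right hp hu (Lk.refl D)
              rwa [f2, h6] at this
            obtain ⟨d, d1, d2, d3⟩ := ihv i2 s hs hv' (by omega) fun C' hC' => by
              obtain ⟨x, g1, g2, g3⟩ := hl C' hC'
              exact ⟨x, by simpa using g1.trans hlk, g2, g3⟩
            exact ⟨d, d1, d2, hfin d3⟩
          · have hlk : Lk g B D (List.replicate i1 a) [] := by
              have := Lk.right hp hu (Lk.refl D)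
              rwa [List.append_nil, f2] at this
            have hT' : (T.erase B).card = c := by
              rw [Finset.card_erase_of_mem hB, hT]
              omega
            obtain ⟨d, d1, d2, d3⟩ := ihc (T.erase B) hT' D v hv i2 s hs hv' (by omega)
              fun C' hC' => by
                by_cases hCB : C' = B
                · subst hCB
                  exact ⟨i1, hlk, h6, by omega⟩
                · obtain ⟨x, g1, g2, g3⟩ := hl C' (fun h => hC' (Finset.mem_erase.2 ⟨hCB, h⟩))
                  refine ⟨x + i1, ?_, by omega, by omega⟩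
                  have := g1.trans hlk
                  rwa [List.append_nil, List.replicate_append_replicate] at this
            exact ⟨d, d1, d2, hfin d3⟩
        · rcases List.eq_nil_or_concat v with hv0 | hv0
          · have hlk : Lk g B C [] [] := by
              have := Lk.left hp (Lk.refl C) hv
              rwa [hv0] at this
            rw [hv0, List.append_nil] at hs'
            subst hs'
            obtain ⟨d, d1, d2, d3⟩ := ihu i s hs hu' (by omega) fun C' hC' => by
              obtain ⟨x, g1, g2, g3⟩ := hl C' hC'
              exact ⟨x, by simpa using g1.trans hlk, g2, g3⟩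
            refine ⟨d, d1, d2, fun n => ?_⟩
            have := Dv.pair hp (d3 n) hv
            rwa [hv0, List.append_nil] at this
          · have hvl : 1 ≤ v.length := by
              obtain ⟨L, b, rfl⟩ := hv0
              simp
            have hls : c'.length + v.length = l := by
              rw [← hs, hs', List.length_append]
            have hmul : (c'.length + 1) * M ≤ l * M := Nat.mul_le_mul_right _ (by omega)
            have e3 : (c'.length + 1) * M = c'.length * M + M := by ring
            obtain ⟨d, d1, d2, d3⟩ := ihl c'.length (by omega) ν Finset.univ hν C u hu i c' rfl hu'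
              (by omega) fun C' hC' => absurd (Finset.mem_univ C') hC'
            refine ⟨d, d1, d2, fun n => ?_⟩
            have := Dv.pair hp (d3 n) hv
            rwa [List.append_assoc, ← hs'] at this
      · obtain ⟨x, h1, h2, h3⟩ := hl B hB
        have hw : Dv g B (List.replicate i a ++ s) := hws ▸ Dv.pair hp hu hv
        exact ⟨x, h2, by omega, fun n => pump_link' h1 hw n⟩

theorem cyc : S_CYC := by
  classical
  intro A g
  have := g.fin
  have := Fintype.ofFinite g.N
  obtain ⟨K0, hU⟩ := upump A g
  obtain ⟨ν, hν⟩ : ∃ ν, (Finset.univ : Finset g.N).card = ν := ⟨_, rfl⟩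
  obtain ⟨M, hM⟩ : ∃ M, M = ν * (K0 + 1 + 1) + (K0 + 1 + 1) := ⟨_, rfl⟩
  refine ⟨M, ?_⟩
  intro B i a s h hi
  have e : M * (s.length + 1) = s.length * M + M := by ring
  refine cyc_aux (K0 := K0 + 1) (by omega) a (fun B i h1 h2 => ?_) hν hM s.length ν Finset.univ hν B _
    h i s rfl rfl (by omega) fun C' hC' => absurd (Finset.mem_univ C') hC'
  obtain ⟨d, d1, d2, d3⟩ := hU B i a h1 (by omega)
  exact ⟨d, d1, by omega, d3⟩

end Pool.Agent.L0h34.CW
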