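import Mathlib

/-!
Project CW: finitely generated torsion groups with context-free co-word problem are finite.
Definitions and module statements (`S_X`).
-/

set_option autoImplicit false

namespace Pool.Agent.L0h34.CW

/-- Torsion groups. -/
def Tors (G : Type) [Group G] : Prop := ∀ g : G, ∃ n : ℕ, 0 < n ∧ g ^ n = 1

/-! ### Words -/

section
variable {A G : Type} [Group G]

/-- The value of a word. -/
def ev (f : A → G) (w : List A) : G := (w.map f).prod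

/-- `w` is a concatenation of words of `Δ`. -/
def Star (Δ : Finset (List A)) (w : List A) : Prop :=
  ∃ l : List (List A), (∀ d ∈ l, d ∈ Δ) ∧ l.flatten = w

/-- No empty word. -/
def Nice (Δ : Finset (List A)) : Prop := ∀ d ∈ Δ, d ≠ []

/-- `Δ'` consists of nonempty concatenations of words of `Δ`. -/
def Fine (Δ' Δ : Finset (List A)) : Prop := Nice Δ' ∧ ∀ d ∈ Δ', Star Δ d

/-- The subgroup generated by the values of the words of `Δ`. -/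
def Gp (f : A → G) (Δ : Finset (List A)) : Subgroup G :=
  Subgroup.closure {g | ∃ d ∈ Δ, g = ev f d}

/-- The right coset `N x`. -/
def rc (N : Subgroup G) (x : G) : Set G := {y | y * x⁻¹ ∈ N}

/-- There are only finitely many right cosets `N z h`, `h ∈ H`. -/
def FinOrb (N H : Subgroup G) (z : G) : Prop := {c : Set G | ∃ h ∈ H, c = rc N (z * h)}.Finite

/-- `z H z⁻¹` normalizes `N`. -/
def NormC (N H : Subgroup G) (z : G) : Prop :=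
  ∀ h ∈ H, ∀ n ∈ N, (z * h * z⁻¹) * n * (z * h * z⁻¹)⁻¹ ∈ N

/-- `N ≤ U` and `U` normalizes `N`. -/
def NormIn (N U : Subgroup G) : Prop := N ≤ U ∧ ∀ u ∈ U, ∀ n ∈ N, u * n * u⁻¹ ∈ N

/-- Letters read backwards. -/
def fi (f : A → G) : A → G := fun a => (f a)⁻¹

/-- The reversed words. -/
def mir (Δ : Finset (List A)) : Finset (List A) :=
  Δ.map ⟨List.reverse, List.reverse_injective⟩

/-- On the path of the word `b` in the Schreier graph of `N` a vertex moved by `m ∈ M` is not met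
again between the times `ρ` and `R`. -/
def Inj (f : A → G) (N : Subgroup G) (M : Finset G) (ρ R : ℕ) (b : List A) : Prop :=
  ∀ i j, i + ρ ≤ j → j ≤ i + R → j ≤ b.length → ∀ m ∈ M,
    ev f (b.take i) * m * (ev f (b.take j))⁻¹ ∉ N

/-! ### Subgroups of `G × Gᵐᵒᵖ` -/

/-- `{g | (g, 1) ∈ 𝓗}` -/
def N1 (𝓗 : Subgroup (G × Gᵐᵒᵖ)) : Subgroup G := 𝓗.comap (MonoidHom.inl G Gᵐᵒᵖ)

/-- `{g | ∃ v, (g, v) ∈ 𝓗}` -/
def U1 (𝓗 : Subgroup (G × Gᵐᵒᵖ)) : Subgroup G := 𝓗.map (MonoidHom.fst G Gᵐᵒᵖ)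

/-- `{g | (1, g) ∈ 𝓗}` -/
def N2 (𝓗 : Subgroup (G × Gᵐᵒᵖ)) : Subgroup G := (𝓗.comap (MonoidHom.inr G Gᵐᵒᵖ)).unop

/-- `{g | ∃ u, (u, g) ∈ 𝓗}` -/
def U2 (𝓗 : Subgroup (G × Gᵐᵒᵖ)) : Subgroup G := (𝓗.map (MonoidHom.snd G Gᵐᵒᵖ)).unop

/-- The two factors exchanged. -/
def sw (𝓗 : Subgroup (G × Gᵐᵒᵖ)) : Subgroup (G × Gᵐᵒᵖ) where
  carrier := {x | (x.2.unop, MulOpposite.op x.1) ∈ 𝓗}
  one_mem' := 𝓗.one_mem
  mul_mem' := fun ha hb => 𝓗.mul_mem hb ha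
  inv_mem' := fun ha => 𝓗.inv_mem ha

/-- A chain on the word `b`: nested factors `b[p i, q i)`, `i ≤ n`, of types `t i < c`, moving in by
at most `κ` on each side in each step, the last one of length at most `κ`; the parts
`b.take (p i)`, `b.drop (q i)` outside lie in a class modulo `𝓗` which depends on the type only. -/
def IsChain (𝓗 : Subgroup (G × Gᵐᵒᵖ)) (c κ : ℕ) (r : ℕ → G × G) (f : A → G) (b : List A)
    (n : ℕ) (t p q : ℕ → ℕ) : Prop :=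
  p 0 = 0 ∧ q 0 = b.length ∧
  (∀ i < n, p i ≤ p (i + 1) ∧ p (i + 1) ≤ p i + κ ∧ q (i + 1) ≤ q i ∧ q i ≤ q (i + 1) + κ) ∧
  (∀ i ≤ n, p i ≤ q i) ∧ q n ≤ p n + κ ∧ (∀ i ≤ n, t i < c) ∧
  ∀ i ≤ n, (ev f (b.take (p i)) * (r (t i)).1⁻¹,
    MulOpposite.op ((r (t i)).2⁻¹ * ev f (b.drop (q i)))) ∈ 𝓗

/-- The two ends move at comparable speeds. -/
def Lip (C n : ℕ) (p q : ℕ → ℕ) : Prop :=
  ∀ i j, i ≤ j → j ≤ n → p j - p i ≤ C * (q i - q j) + C ∧ q i - q j ≤ C * (p j - p i) + C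

end

/-! ### Binary grammars -/

/-- A grammar with finitely many nonterminals and rules `B → w`, `|w| ≤ 1`, and `B → C D`. -/
structure BG (A : Type) where
  N : Type
  fin : Finite N
  term : N → List A → Prop
  pair : N → N → N → Prop
  short : ∀ B w, term B w → w.length ≤ 1

/-- `B ⇒* w` -/
inductive Dv {A : Type} (g : BG A) : g.N → List A → Prop
  | term {B : g.N} {w : List A} : g.term B w → Dv g B w
  | pair {B C D : g.N} {u v : List A} : g.pair B C D → Dv g C u → Dv g D v → Dv g B (u ++ v)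

/-- `B ⇒* u C v` -/
inductive Lk {A : Type} (g : BG A) : g.N → g.N → List A → List A → Prop
  | refl (B : g.N) : Lk g B B [] []
  | left {B C D E : g.N} {u v w : List A} :
      g.pair B C D → Lk g C E u v → Dv g D w → Lk g B E u (v ++ w)
  | right {B C D E : g.N} {u v w : List A} :
      g.pair B C D → Dv g C w → Lk g D E u v → Lk g B E (w ++ u) v

/-- `C` is reachable from `B`. -/
def Rch {A : Type} (g : BG A) (B C : g.N) : Prop := ∃ u v, Lk g B C u v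

/-- `B ⇒* … B … B …` -/
def Expv {A : Type} (g : BG A) (B : g.N) : Prop :=
  ∃ C D E, g.pair C D E ∧ Rch g B C ∧ Rch g D B ∧ Rch g E B

section
variable {A G : Type} [Group G]

/-- The group of the pairs `(u, v)` with `B ⇒* u B v`. -/
def HB (g : BG A) (f : A → G) (B : g.N) : Subgroup (G × Gᵐᵒᵖ) :=
  Subgroup.closure {x | ∃ u v, Lk g B B u v ∧ x = (ev f u, MulOpposite.op (ev f v))}

/-- A node of type `B` with ends `x`, `y` is thin. -/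
def Thin (g : BG A) (f : A → G) (H : Subgroup G) (B : g.N) (x y : G) : Prop :=
  ¬ FinOrb (N1 (HB g f B)) H x⁻¹ ∧ ¬ FinOrb (N2 (HB g f B)) H y⁻¹

/-- Derivations all of whose nodes are thin; the left end of the root is `x`. -/
inductive TD (g : BG A) (f : A → G) (H : Subgroup G) : g.N → G → List A → Prop
  | term {B : g.N} {x : G} {w : List A} :
      g.term B w → Thin g f H B x (x * ev f w) → TD g f H B x w
  | pair {B C D : g.N} {x : G} {u v : List A} : g.pair B C D → TD g f H C x u →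
      TD g f H D (x * ev f u) v → Thin g f H B x (x * ev f (u ++ v)) → TD g f H B x (u ++ v)

/-- In the words of `Δ*` the thin derivations from `B` have bounded yields. -/
def Bdd (g : BG A) (f : A → G) (Δ : Finset (List A)) (B : g.N) : Prop :=
  ∃ K : ℕ, ∀ x b y, Star Δ (x ++ b ++ y) → TD g f (Gp f Δ) B (ev f x) b → b.length ≤ K

/-- The nonterminals strictly below `B` have thin yields of length at most `K`. -/
def LowK (g : BG A) (f : A → G) (Δ : Finset (List A)) (H : Subgroup G) (B : g.N) (K : ℕ) : Prop :=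
  ∀ C, Rch g B C → ¬ Rch g C B → ∀ x b y, Star Δ (x ++ b ++ y) →
    TD g f H C (ev f x) b → b.length ≤ K

end

/-! ### Module statements: grammars -/

/-- GRAM -/
def S_GRAM : Prop := ∀ (A : Type) (L : Language A), L.IsContextFree →
  ∃ (g : BG A) (S : g.N), ∀ w, w ∈ L ↔ Dv g S w

/-- REL -/
def S_REL : Prop := ∀ (A G : Type) [Group G], Tors G → ∀ (g : BG A) (f : A → G),
  (∀ (B : g.N) (x : G × Gᵐᵒᵖ), x ∈ HB g f B ↔
    ∃ u v, Lk g B B u v ∧ x = (ev f u, MulOpposite.op (ev f v))) ∧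
  (∀ (B C : g.N) (u v u' v' : List A), Rch g C B → Lk g B C u v → Lk g B C u' v' →
    (ev f u * (ev f u')⁻¹, MulOpposite.op ((ev f v')⁻¹ * ev f v)) ∈ HB g f B)

/-- CLS -/
def S_CLS : Prop := ∀ (A G : Type) [Group G], Tors G → ∀ (g : BG A) (f : A → G)
  (B : g.N), Expv g B → ∃ m : g.N → G, ∀ (C : g.N) (u v b : List A), Rch g C B → Lk g B C u v →
    Dv g C b → ev f u * m C * (ev f (u ++ b))⁻¹ ∈ N1 (HB g f B)

/-- LING: chains in linear components -/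
def S_LING : Prop := ∀ (A G : Type) [Group G], Tors G → ∀ (g : BG A) (f : A → G)
  (B : g.N) (K : ℕ), ¬ Expv g B → ∃ (c κ : ℕ) (r : ℕ → G × G), ∀ (Δ : Finset (List A))
    (H : Subgroup G), LowK g f Δ H B K → ∀ x b y, Star Δ (x ++ b ++ y) →
      TD g f H B (ev f x) b → ∃ n t p q, IsChain (HB g f B) c κ r f b n t p q

/-- EXPG: the structure of expansive components -/
def S_EXPG : Prop := ∀ (A G : Type) [Finite A] [Group G], Tors G →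
  ∀ (g : BG A) (f : A → G) (B : g.N) (K : ℕ), Expv g B →
  ∃ (D : Set (Set G)) (M : Finset G), D.Finite ∧ ∀ (Δ : Finset (List A)) (H : Subgroup G),
    LowK g f Δ H B K → ∀ x b y, Star Δ (x ++ b ++ y) → TD g f H B (ev f x) b →
      (∀ i ≤ b.length, rc (U1 (HB g f B)) (ev f (b.take i)) ∈ D) ∧
      ∀ l, K < l → 2 * l < b.length → ∃ i j, i + l < j ∧ j ≤ i + 2 * l ∧ j ≤ b.length ∧
        ∃ m ∈ M, ev f (b.take i) * m * (ev f (b.take j))⁻¹ ∈ N1 (HB g f B)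

/-- CONTRA: the final contradiction -/
def S_CONTRA : Prop := ∀ (A G : Type) [Finite A] [Group G], Tors G →
  ∀ (g : BG A) (f : A → G) (S : g.N), (∀ w, Dv g S w ↔ ev f w ≠ 1) →
  ∀ Δ : Finset (List A), Nice Δ → (Gp f Δ : Set G).Infinite → ¬ Bdd g f Δ S

/-! ### Module statements: one-sided lemmas -/

/-- EXC: excursions -/
def S_EXC : Prop := ∀ (A G : Type) [Group G], Tors G → ∀ (f : A → G)
  (U : Subgroup G) (D : Set (Set G)), D.Finite → ∀ Δ : Finset (List A), Nice Δ →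
  ∃ Δ', Fine Δ' Δ ∧ Gp f Δ' = Gp f Δ ∧ ∃ K : ℕ, ∀ x b y, Star Δ' (x ++ b ++ y) →
    ¬ FinOrb U (Gp f Δ) (ev f x)⁻¹ → (∀ i ≤ b.length, rc U (ev f (b.take i)) ∈ D) → b.length ≤ K

/-- A path of a labelled graph. -/
inductive Pth {Q A : Type} (step : Q → A → Q → Prop) : Q → List A → Q → Prop
  | nil (q : Q) : Pth step q [] q
  | cons {q q' q'' : Q} {a : A} {w : List A} :
      step q a q' → Pth step q' w q'' → Pth step q (a :: w) q''

/-- LOOP -/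
def S_LOOP : Prop := ∀ (Q A K : Type) [Finite Q] [Finite A] [Monoid K] (step : Q → A → Q → Prop)
  (ψ : A → K), {k | ∃ q w q', Pth step q w q' ∧ k = (w.map ψ).prod}.Infinite →
  ∃ (q : Q) (Λ : Finset (List A)), (∀ w ∈ Λ, Pth step q w q) ∧
    ((Submonoid.closure {k | ∃ w ∈ Λ, k = (w.map ψ).prod} : Submonoid K) : Set K).Infinite

/-- The product of the letters of `l` (words of `Δ`) is geodesic modulo `Y`. -/
def Geo {A G : Type} [Group G] (f : A → G) (Δ : Finset (List A)) (Y : Subgroup G)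
    (l : List (List A)) : Prop :=
  ∀ l' : List (List A), (∀ d ∈ l', d ∈ Δ) → rc Y (ev f l'.flatten) = rc Y (ev f l.flatten) →
    l.length ≤ l'.length

/-- CORE: words all of whose short factors are geodesic modulo `Y` -/
def S_CORE : Prop := ∀ (A G : Type) [Group G], Tors G → ∀ (f : A → G)
  (Y : Subgroup G) (Δ : Finset (List A)), Nice Δ → NormC Y (Gp f Δ) 1 → ¬ FinOrb Y (Gp f Δ) 1 →
  ∀ R : ℕ, ∃ Δ', Fine Δ' Δ ∧ ¬ FinOrb Y (Gp f Δ') 1 ∧ ∀ w, Star Δ' w →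
    ∃ l : List (List A), (∀ d ∈ l, d ∈ Δ) ∧ l.flatten = w ∧
      ∀ a m b, l = a ++ m ++ b → m.length ≤ R → Geo f Δ Y m

/-- RETA: local injectivity for one subgroup `Y` -/
def S_RETA : Prop := ∀ (A G : Type) [Group G], Tors G → ∀ (f : A → G)
  (Y : Subgroup G) (M : Finset G) (Δ : Finset (List A)), Nice Δ → NormC Y (Gp f Δ) 1 →
  ¬ FinOrb Y (Gp f Δ) 1 → ∃ ρ : ℕ, ∀ R : ℕ, ∃ Δ', Fine Δ' Δ ∧ ¬ FinOrb Y (Gp f Δ') 1 ∧
    ∀ X s y, Star Δ' (X ++ s ++ y) → ρ ≤ s.length → s.length ≤ R → ∀ m ∈ M,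
      ev f X * m * (ev f s)⁻¹ * (ev f X)⁻¹ ∉ Y

/-- FIX: a subgroup of finite index which fixes the finite orbits -/
def S_FIX : Prop := ∀ (A G : Type) [Group G], Tors G → ∀ (f : A → G)
  (U : Subgroup G) (Δ : Finset (List A)), Nice Δ → ∃ Δ₁, Fine Δ₁ Δ ∧
    ((Gp f Δ : Set G).Infinite → (Gp f Δ₁ : Set G).Infinite) ∧
    ∀ x y, Star Δ (x ++ y) → FinOrb U (Gp f Δ) (ev f x)⁻¹ → ∀ k ∈ Gp f Δ, ∀ h ∈ Gp f Δ₁,
      ((ev f x)⁻¹ * k) * h * ((ev f x)⁻¹ * k)⁻¹ ∈ U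

/-- RET: local injectivity on one side -/
def S_RET : Prop := ∀ (A G : Type) [Group G], Tors G → ∀ (f : A → G)
  (N U : Subgroup G), NormIn N U → ∀ (M : Finset G) (Rf : ℕ → ℕ) (Δ : Finset (List A)), Nice Δ →
  (Gp f Δ : Set G).Infinite → ∃ Δ', Fine Δ' Δ ∧ (Gp f Δ' : Set G).Infinite ∧
    (∀ x y, Star Δ' (x ++ y) → FinOrb U (Gp f Δ) (ev f x)⁻¹ → NormC N (Gp f Δ') (ev f x)⁻¹) ∧
    ∃ ρm : ℕ, ∀ x b y, Star Δ' (x ++ b ++ y) → FinOrb U (Gp f Δ) (ev f x)⁻¹ →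
      ¬ FinOrb N (Gp f Δ') (ev f x)⁻¹ → ∃ ρ ≤ ρm, Inj f N M ρ (Rf ρ) b

/-- VIS: words which visit many vertices -/
def S_VIS : Prop := ∀ (A G : Type) [Group G], Tors G → ∀ (f : A → G)
  (N : Subgroup G) (Δ : Finset (List A)) (k : ℕ), ∃ E, Star Δ E ∧ ∀ x y, Star Δ (x ++ y) →
    ¬ FinOrb N (Gp f Δ) (ev f x)⁻¹ → NormC N (Gp f Δ) (ev f x)⁻¹ → ∀ h ∈ Gp f Δ,
      k ≤ {c : Set G | ∃ i ≤ E.length, c = rc N ((ev f x)⁻¹ * h * ev f (E.take i))}.ncard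

/-! ### Module statements: combinatorics -/

/-- NS: no stalling -/
def S_NS : Prop := ∀ (α β : Type) (cl : ℕ → α) (cl' : ℕ → β) (n c κ X ρ : ℕ) (t p p' : ℕ → ℕ),
  (∀ i < n, p i ≤ p (i + 1) ∧ p (i + 1) ≤ p i + κ ∧ p' i ≤ p' (i + 1)) → (∀ i ≤ n, t i < c) →
  (∀ i j, i ≤ n → j ≤ n → t i = t j → cl' (p' i) = cl' (p' j) → cl (p i) = cl (p j)) →
  (∀ a b, a + ρ ≤ b → b ≤ a + (ρ + κ + 1) * (c * (X + 1) + 1) → b ≤ p n → cl a ≠ cl b) →
  ∀ i j, i ≤ j → j ≤ n → p' j ≤ p' i + X → p j < p i + (ρ + κ + 1) * (c * (X + 1) + 1)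

/-- LIP: no stalling on both sides gives comparable speeds -/
def S_LIP : Prop := ∀ (n κ Λ : ℕ) (p p' : ℕ → ℕ),
  (∀ i < n, p i ≤ p (i + 1) ∧ p (i + 1) ≤ p i + κ ∧ p' i ≤ p' (i + 1) ∧ p' (i + 1) ≤ p' i + κ) →
  (∀ i j, i ≤ j → j ≤ n → p' j ≤ p' i + κ → p j < p i + Λ) →
  (∀ i j, i ≤ j → j ≤ n → p j ≤ p i + κ → p' j < p' i + Λ) →
  ∀ i j, i ≤ j → j ≤ n → p j - p i ≤ (Λ + κ) * (p' j - p' i) + (Λ + κ) ∧
    p' j - p' i ≤ (Λ + κ) * (p j - p i) + (Λ + κ)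

/-- MAT: matching of the gaps.  Gap `k` is `[s k, e k]`, of length `τ (k % 3)`, obstacle `k` is
`[e k, s (k + 1)]`, of length at most `o`. -/
def S_MAT : Prop := ∀ (C κ o : ℕ), ∃ F : ℕ → ℕ, ∀ τ : ℕ → ℕ, F 0 ≤ τ 0 → F (τ 0) ≤ τ 1 →
  F (τ 1) ≤ τ 2 → ∃ Z : ℕ, ∀ (m : ℕ) (s e : ℕ → ℕ), s 0 = 0 →
  (∀ k < m, e k = s k + τ (k % 3) ∧ e k ≤ s (k + 1) ∧ s (k + 1) ≤ e k + o) →
  ∀ (n : ℕ) (P Q : ℕ → ℕ),
  (∀ i < n, P i ≤ P (i + 1) ∧ P (i + 1) ≤ P i + κ ∧ Q (i + 1) ≤ Q i ∧ Q i ≤ Q (i + 1) + κ) →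
  P n ≤ Q n → Q 0 ≤ s m → Lip C n P Q →
  (∀ i j, i ≤ j → j ≤ n → ∀ k < m, P i ≤ e k → s (k + 1) ≤ P j → ∀ l < m,
    ¬ (s l ≤ Q j ∧ Q i ≤ e l)) →
  (∀ i j, i ≤ j → j ≤ n → ∀ k < m, Q j ≤ e k → s (k + 1) ≤ Q i → ∀ l < m,
    ¬ (s l ≤ P i ∧ P j ≤ e l)) → P n ≤ P 0 + Z

/-! ### Module statements: two-sided lemmas -/

/-- MIRC: chains read backwards -/
def S_MIRC : Prop := ∀ (A G : Type) [Group G] (f : A → G) (𝓗 : Subgroup (G × Gᵐᵒᵖ)),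
  N1 (sw 𝓗) = N2 𝓗 ∧ N2 (sw 𝓗) = N1 𝓗 ∧ U1 (sw 𝓗) = U2 𝓗 ∧ U2 (sw 𝓗) = U1 𝓗 ∧
  ∀ (c κ : ℕ) (r : ℕ → G × G) (b : List A) (n : ℕ) (t p q : ℕ → ℕ),
    IsChain 𝓗 c κ r f b n t p q →
    IsChain (sw 𝓗) c κ (fun k => ((r k).2⁻¹, (r k).1⁻¹)) (fi f) b.reverse n t
      (fun i => b.length - q i) (fun i => b.length - p i)

/-- CRS: while the right end stays in a periodic gap, the left end does not cross the word `E`
which visits many vertices -/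
def S_CRS : Prop := ∀ (A G : Type) [Finite A] [Group G] (f : A → G)
  (𝓗 : Subgroup (G × Gᵐᵒᵖ)) (c κ m₀ : ℕ) (r : ℕ → G × G) (Δ : Finset (List A)) (v : List A),
  0 < m₀ → ev f v ^ m₀ = 1 → ∃ k : ℕ, ∀ E : List A,
    (∀ x y, Star Δ (x ++ y) → ¬ FinOrb (N1 𝓗) (Gp f Δ) (ev f x)⁻¹ →
      NormC (N1 𝓗) (Gp f Δ) (ev f x)⁻¹ → ∀ h ∈ Gp f Δ,
      k ≤ {c : Set G | ∃ i ≤ E.length, c = rc (N1 𝓗) ((ev f x)⁻¹ * h * ev f (E.take i))}.ncard) →
    ∀ (x b y w₁ w₂ w₃ w₄ : List A) (T : ℕ), Star Δ (x ++ b ++ y) →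
      x ++ b ++ y = w₁ ++ E ++ w₂ → Star Δ w₁ →
      x ++ b ++ y = w₃ ++ (List.replicate T v).flatten ++ w₄ →
      ¬ FinOrb (N1 𝓗) (Gp f Δ) (ev f x)⁻¹ → NormC (N1 𝓗) (Gp f Δ) (ev f x)⁻¹ →
      ∀ n t p q, IsChain 𝓗 c κ r f b n t p q → ∀ i j, i ≤ j → j ≤ n →
        x.length + p i ≤ w₁.length → w₁.length + E.length ≤ x.length + p j →
        w₃.length ≤ x.length + q j → x.length + q i ≤ w₃.length + T * v.length → False

/-- PAT: both sides of finite type -/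
def S_PAT : Prop := ∀ (A G : Type) [Finite A] [Group G], Tors G → ∀ (f : A → G)
  (𝓗 : Subgroup (G × Gᵐᵒᵖ)) (c κ : ℕ) (r : ℕ → G × G) (Δ : Finset (List A)), Nice Δ →
  Δ.Nonempty → ∀ C : ℕ, ∃ Δ', Fine Δ' Δ ∧ Gp f Δ' = Gp f Δ ∧ ∃ K : ℕ, ∀ x b y,
    Star Δ' (x ++ b ++ y) →
    ¬ FinOrb (N1 𝓗) (Gp f Δ) (ev f x)⁻¹ → ¬ FinOrb (N2 𝓗) (Gp f Δ) (ev f (x ++ b))⁻¹ →
    NormC (N1 𝓗) (Gp f Δ) (ev f x)⁻¹ → NormC (N2 𝓗) (Gp f Δ) (ev f (x ++ b))⁻¹ →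
    ∀ n t p q, IsChain 𝓗 c κ r f b n t p q → Lip C n p q → b.length ≤ K

/-- LIN: the stage for a linear component -/
def S_LIN : Prop := ∀ (A G : Type) [Finite A] [Group G], Tors G → ∀ (f : A → G)
  (𝓗 : Subgroup (G × Gᵐᵒᵖ)) (c κ : ℕ) (r : ℕ → G × G) (Δ : Finset (List A)), Nice Δ →
  (Gp f Δ : Set G).Infinite → ∃ Δ', Fine Δ' Δ ∧ (Gp f Δ' : Set G).Infinite ∧
    ∃ K : ℕ, ∀ x b y, Star Δ' (x ++ b ++ y) →
    ¬ FinOrb (N1 𝓗) (Gp f Δ') (ev f x)⁻¹ → ¬ FinOrb (N2 𝓗) (Gp f Δ') (ev f (x ++ b))⁻¹ →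
    ∀ n t p q, IsChain 𝓗 c κ r f b n t p q → b.length ≤ K

/-- EXP: the stage for an expansive component -/
def S_EXP : Prop := ∀ (A G : Type) [Group G], Tors G → ∀ (f : A → G)
  (N U : Subgroup G), NormIn N U → ∀ (M : Finset G) (D : Set (Set G)) (κ : ℕ), D.Finite →
  ∀ Δ : Finset (List A), Nice Δ → (Gp f Δ : Set G).Infinite →
  ∃ Δ', Fine Δ' Δ ∧ (Gp f Δ' : Set G).Infinite ∧ ∃ K : ℕ, ∀ x b y, Star Δ' (x ++ b ++ y) →
    ¬ FinOrb N (Gp f Δ') (ev f x)⁻¹ →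
    (∀ i ≤ b.length, rc U (ev f (b.take i)) ∈ D) →
    (∀ l, κ < l → 2 * l < b.length → ∃ i j, i + l < j ∧ j ≤ i + 2 * l ∧ j ≤ b.length ∧
        ∃ m ∈ M, ev f (b.take i) * m * (ev f (b.take j))⁻¹ ∈ N) → b.length ≤ K

/-- STAGE -/
def S_STAGE : Prop := ∀ (A G : Type) [Finite A] [Group G], Tors G →
  ∀ (g : BG A) (f : A → G) (Δ : Finset (List A)), Nice Δ → (Gp f Δ : Set G).Infinite →
  ∀ B : g.N, (∀ C, Rch g B C → ¬ Rch g C B → Bdd g f Δ C) →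
  ∃ Δ', Fine Δ' Δ ∧ (Gp f Δ' : Set G).Infinite ∧ Bdd g f Δ' B

/-- MAIN -/
def S_MAIN : Prop := ∀ (A G : Type) [Finite A] [Group G], Tors G →
  ∀ f : A → G, Function.Surjective (ev f) →
  Language.IsContextFree ({w : List A | ev f w ≠ 1} : Language A) → Finite G

/-- SUBG: finitely generated subgroups of co-context-free groups are co-context-free -/
def S_SUBG : Prop := ∀ (A B G : Type) [Finite A] [Finite B] [Group G] (f : A → G) (h : B → List A),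
  Language.IsContextFree ({w : List A | ev f w ≠ 1} : Language A) →
  Language.IsContextFree ({w : List B | ev f (w.flatMap h) ≠ 1} : Language B)

end Pool.Agent.L0h34.CW
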