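import Pool.Agent.L0h34.CW.Basics

/-!
Project CW, second part: cyclic subgroups of co-context-free groups are undistorted; groups with
finitely many conjugacy classes.
-/

set_option autoImplicit false

namespace Pool.Agent.L0h34.CW

/-- UPUMP: pumping of powers of a letter -/
def S_UPUMP : Prop := ∀ (A : Type) (g : BG A), ∃ K : ℕ, ∀ (B : g.N) (i : ℕ) (a : A),
  Dv g B (List.replicate i a) → K < i → ∃ d, 1 ≤ d ∧ d ≤ K ∧
    ∀ n : ℕ, Dv g B (List.replicate (i + n * d) a)

/-- CYC: a long power of a letter in front of a short word can be pumped -/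
def S_CYC : Prop := ∀ (A : Type) (g : BG A), ∃ K : ℕ, ∀ (B : g.N) (i : ℕ) (a : A) (s : List A),
  Dv g B (List.replicate i a ++ s) → K * (s.length + 1) < i → ∃ d, 1 ≤ d ∧ d ≤ K ∧
    ∀ n : ℕ, Dv g B (List.replicate (i + n * d) a ++ s)

/-- UND: infinite cyclic subgroups of co-context-free groups are undistorted -/
def S_UND : Prop := ∀ (A G : Type) [Finite A] [Group G] (f : A → G),
  Function.Surjective (ev f) →
  Language.IsContextFree ({w : List A | ev f w ≠ 1} : Language A) →
  ∀ x : G, (∀ n : ℕ, 0 < n → x ^ n ≠ 1) → ∃ C : ℕ, ∀ (k : ℕ) (s : List A), ev f s = x ^ k →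
    k ≤ C * (s.length + 1)

/-- FCC: finitely many conjugacy classes and undistorted cyclic subgroups -/
def S_FCC : Prop := ∀ (A G : Type) [Finite A] [Group G] (f : A → G),
  Function.Surjective (ev f) → Finite (ConjClasses G) →
  (∀ x : G, (∀ n : ℕ, 0 < n → x ^ n ≠ 1) → ∃ C : ℕ, ∀ (k : ℕ) (s : List A), ev f s = x ^ k →
    k ≤ C * (s.length + 1)) → Tors G

end Pool.Agent.L0h34.CW
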