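import Pool.Agent.L0h34.CW.Defs2

/-! Module FCC of project CW. -/

set_option autoImplicit false

namespace Pool.Agent.L0h34.CW

theorem fcc_arith (a : ℕ) (h : ∀ n : ℕ, 2 ^ n ≤ a * (n + 1)) : False := by
  have h1 := h (2 * (2 * a + 1))
  have h2 : 2 * a + 1 < 2 ^ (2 * a + 1) := Nat.lt_two_pow_self
  rw [two_mul (2 * a + 1), pow_add] at h1
  have h3 : (2 * a + 2) * (2 * a + 2) ≤ 2 ^ (2 * a + 1) * 2 ^ (2 * a + 1) :=
    Nat.mul_le_mul h2 h2
  have h4 := h3.trans h1
  nlinarith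

theorem conj_pow_pow {G : Type} [Group G] {y t : G} {m : ℕ} (h : t * y * t⁻¹ = y ^ m) (n : ℕ) :
    y ^ (m ^ n) = t ^ n * y * (t⁻¹) ^ n := by
  induction n with
  | zero => simp
  | succ n ih =>
    rw [pow_succ m n, pow_mul, ih]
    have e : t ^ n * y * t⁻¹ ^ n = t ^ n * y * (t ^ n)⁻¹ := by rw [inv_pow]
    rw [e, conj_pow, ← h, pow_succ t n, pow_succ' t⁻¹ n, inv_pow]
    group

theorem fcc : S_FCC := by
  intro A G _ _ f hf hfin hund x
  by_contra hx
  push Not at hx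
  have := hfin
  obtain ⟨i, j, hij, hc⟩ : ∃ i j : ℕ, i < j ∧
      ConjClasses.mk (x ^ (2 ^ i)) = ConjClasses.mk (x ^ (2 ^ j)) := by
    have hni : ¬ Function.Injective (fun j : ℕ => ConjClasses.mk (x ^ (2 ^ j))) :=
      not_injective_infinite_finite _
    rw [Function.not_injective_iff] at hni
    obtain ⟨i, j, h1, h2⟩ := hni
    rcases lt_or_gt_of_ne h2 with h | h
    · exact ⟨i, j, h, h1⟩
    · exact ⟨j, i, h, h1.symm⟩
  rw [ConjClasses.mk_eq_mk_iff_isConj, isConj_iff] at hc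
  obtain ⟨t, ht⟩ := hc
  set y := x ^ (2 ^ i) with hy
  have hm : x ^ (2 ^ j) = y ^ (2 ^ (j - i)) := by
    rw [hy, ← pow_mul, ← pow_add]
    congr 2
    omega
  rw [hm] at ht
  have hyi : ∀ n : ℕ, 0 < n → y ^ n ≠ 1 := by
    intro n hn
    rw [hy, ← pow_mul]
    exact hx _ (Nat.mul_pos (pow_pos (by norm_num) _) hn)
  obtain ⟨C, hC⟩ := hund y hyi
  obtain ⟨wt, hwt⟩ := hf t
  obtain ⟨wi, hwi⟩ := hf t⁻¹
  obtain ⟨wy, hwy⟩ := hf y
  refine fcc_arith (C * (wt.length + wi.length + wy.length + 1)) fun n => ?_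
  have h1 := hC ((2 ^ (j - i)) ^ n)
    ((List.replicate n wt).flatten ++ wy ++ (List.replicate n wi).flatten) (by
      rw [ev_append, ev_append, ev_replicate_flatten, ev_replicate_flatten, hwt, hwi, hwy,
        conj_pow_pow ht])
  have h2 : ((List.replicate n wt).flatten ++ wy ++ (List.replicate n wi).flatten).length =
      n * wt.length + wy.length + n * wi.length := by
    simp
    ring
  rw [h2] at h1
  have h3 : 2 ^ n ≤ (2 ^ (j - i)) ^ n := by
    refine Nat.pow_le_pow_left ?_ n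
    calc 2 = 2 ^ 1 := by norm_num
      _ ≤ 2 ^ (j - i) := Nat.pow_le_pow_right (by norm_num) (by omega)
  refine h3.trans (h1.trans ?_)
  rw [mul_assoc]
  refine Nat.mul_le_mul_left C ?_
  nlinarith [Nat.zero_le wt.length, Nat.zero_le wi.length, Nat.zero_le wy.length,
    Nat.zero_le (n * wy.length)]

end Pool.Agent.L0h34.CW
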