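import Pool.Agent.L0h34.CW.Basics
import Pool.Agent.R640.CFG

/-! Module GRAM of project CW: binary grammars for context-free languages. -/

set_option autoImplicit false

namespace Pool.Agent.L0h34.CW

open Pool.Agent.R640.CF

section
variable {A : Type} (g : ContextFreeGrammar A)

/-- The nonterminals of the binary grammar. -/
def gS : Set (List (Symbol A g.NT)) :=
  {l | l = [] ∨ l = [Symbol.nonterminal g.initial] ∨
    ∃ r ∈ g.rules, l ∈ r.output.tails ++ r.output.map (fun s => [s])}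

theorem gS_nil : [] ∈ gS g := Or.inl rfl

theorem gS_output {r : ContextFreeRule A g.NT} (hr : r ∈ g.rules) : r.output ∈ gS g := by
  refine Or.inr (Or.inr ⟨r, hr, ?_⟩)
  simp

theorem gS_cons {s : Symbol A g.NT} {l : List (Symbol A g.NT)} (h : s :: l ∈ gS g) :
    [s] ∈ gS g ∧ l ∈ gS g := by
  rcases h with h | h | ⟨r, hr, h⟩
  · exact absurd h (by simp)
  · have h1 : s = Symbol.nonterminal g.initial := by simpa using (List.cons.inj h).1
    have h2 : l = [] := (List.cons.inj h).2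
    subst h2
    rw [h1]
    exact ⟨Or.inr (Or.inl rfl), Or.inl rfl⟩
  · rw [List.mem_append] at h
    rcases h with h | h
    · rw [List.mem_tails] at h
      refine ⟨Or.inr (Or.inr ⟨r, hr, ?_⟩), Or.inr (Or.inr ⟨r, hr, ?_⟩)⟩
      · rw [List.mem_append]
        refine Or.inr (List.mem_map.2 ⟨s, h.subset (by simp), rfl⟩)
      · rw [List.mem_append]
        refine Or.inl ?_
        rw [List.mem_tails]
        exact (List.suffix_cons s l).trans h
    · obtain ⟨s', hs', h⟩ := List.mem_map.1 h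
      have h1 : s' = s := (List.cons.inj h).1
      have h2 : l = [] := (List.cons.inj h).2.symm
      subst h2
      subst h1
      exact ⟨Or.inr (Or.inr ⟨r, hr, List.mem_append.2 (Or.inr (List.mem_map.2 ⟨s', hs', rfl⟩))⟩),
        Or.inl rfl⟩

theorem gS_finite : (gS g).Finite := by
  have h : gS g ⊆ {[]} ∪ ({[Symbol.nonterminal g.initial]} ∪
      ⋃ r ∈ g.rules, {l | l ∈ r.output.tails ++ r.output.map (fun s => [s])}) := by
    rintro l (h | h | ⟨r, hr, h⟩)
    · exact Or.inl h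
    · exact Or.inr (Or.inl h)
    · refine Or.inr (Or.inr ?_)
      simp only [Set.mem_iUnion]
      exact ⟨r, hr, h⟩
  refine Set.Finite.subset ?_ h
  refine (Set.finite_singleton _).union ((Set.finite_singleton _).union ?_)
  refine Set.Finite.biUnion (Finset.finite_toSet g.rules) fun r _ => ?_
  exact List.finite_toSet _

/-- The binary grammar. -/
def gB : BG A where
  N := {l : List (Symbol A g.NT) // l ∈ gS g}
  fin := (gS_finite g).to_subtype
  term := fun B w => (B.1 = [] ∧ w = []) ∨ ∃ a, B.1 = [Symbol.terminal a] ∧ w = [a]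
  pair := fun B C D => (∃ s l, B.1 = s :: l ∧ C.1 = [s] ∧ D.1 = l) ∨
    ∃ r ∈ g.rules, B.1 = [Symbol.nonterminal r.input] ∧ C.1 = r.output ∧ D.1 = []
  short := by
    rintro B w (⟨_, rfl⟩ | ⟨a, _, rfl⟩)
    · simp
    · simp

theorem gB_sound {B : (gB g).N} {w : List A} (h : Dv (gB g) B w) : Der g B.1 w := by
  induction h with
  | @term B w h =>
    rcases h with ⟨h, rfl⟩ | ⟨a, h, rfl⟩
    · rw [h]
      exact Der.nil
    · rw [h]
      exact Der.term a _ _ Der.nil
  | @pair B C D u v h _ _ ih1 ih2 =>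
    rcases h with ⟨s, l, h1, h2, h3⟩ | ⟨r, hr, h1, h2, h3⟩
    · rw [h1]
      rw [h2] at ih1
      rw [h3] at ih2
      exact ih1.append ih2
    · rw [h1]
      rw [h2] at ih1
      rw [h3] at ih2
      exact Der.nt r _ _ _ hr ih1 ih2

theorem gB_complete {l : List (Symbol A g.NT)} {w : List A} (h : Der g l w) :
    ∀ hl : l ∈ gS g, Dv (gB g) ⟨l, hl⟩ w := by
  induction h with
  | nil => exact fun hl => Dv.term (Or.inl ⟨rfl, rfl⟩)
  | term a s w _ ih =>
    intro hl
    obtain ⟨h1, h2⟩ := gS_cons g hl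
    have h3 : Dv (gB g) ⟨[Symbol.terminal a], h1⟩ [a] := Dv.term (Or.inr ⟨a, rfl, rfl⟩)
    exact Dv.pair (B := (⟨_, hl⟩ : (gB g).N)) (Or.inl ⟨_, _, rfl, rfl, rfl⟩) h3 (ih h2)
  | nt r s w₁ w₂ hr _ _ ih1 ih2 =>
    intro hl
    obtain ⟨h1, h2⟩ := gS_cons g hl
    have h3 : Dv (gB g) ⟨[], gS_nil g⟩ [] := Dv.term (Or.inl ⟨rfl, rfl⟩)
    have h4 : Dv (gB g) ⟨[Symbol.nonterminal r.input], h1⟩ (w₁ ++ []) :=
      Dv.pair (B := (⟨_, h1⟩ : (gB g).N)) (Or.inr ⟨r, hr, rfl, rfl, rfl⟩)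
        (ih1 (gS_output g hr)) h3
    rw [List.append_nil] at h4
    exact Dv.pair (B := (⟨_, hl⟩ : (gB g).N)) (Or.inl ⟨_, _, rfl, rfl, rfl⟩) h4 (ih2 h2)

end

theorem gram : S_GRAM := by
  rintro A L ⟨g, rfl⟩
  refine ⟨gB g, ⟨[Symbol.nonterminal g.initial], Or.inr (Or.inl rfl)⟩, fun w => ?_⟩
  rw [mem_iff]
  exact ⟨fun h => gB_complete g h _, fun h => gB_sound g h⟩

end Pool.Agent.L0h34.CW
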