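import Pool.Agent.L0h34.CW.Basics

/-! One more nonterminal with bounded thin yields. -/

set_option autoImplicit false

namespace Pool.Agent.L0h34.CW

theorem stage (hlin : S_LIN) (hexp : S_EXP) (hling : S_LING) (hexpg : S_EXPG) : S_STAGE := by
  intro A G _ _ hG g f Δ hΔ hinf B hlow
  have hfin : Finite g.N := g.fin
  -- a common bound for the lower nonterminals
  obtain ⟨K, hK⟩ : ∃ K : ℕ, LowK g f Δ (Gp f Δ) B K := by
    classical
    have h1 : ∀ C : g.N, ∃ K : ℕ, Rch g B C → ¬ Rch g C B → ∀ x b y, Star Δ (x ++ b ++ y) →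
        TD g f (Gp f Δ) C (ev f x) b → b.length ≤ K := by
      intro C
      by_cases hC : Rch g B C ∧ ¬ Rch g C B
      · obtain ⟨K, hK⟩ := hlow C hC.1 hC.2
        exact ⟨K, fun _ _ => hK⟩
      · exact ⟨0, fun h2 h3 => absurd ⟨h2, h3⟩ hC⟩
    choose k hk using h1
    obtain ⟨K, hK⟩ := Finite.exists_le k
    exact ⟨K, fun C h2 h3 x b y hs htd => (hk C h2 h3 x b y hs htd).trans (hK C)⟩
  have hlowK : ∀ Δ', Fine Δ' Δ → LowK g f Δ' (Gp f Δ') B K := by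
    intro Δ' hΔ' C h2 h3 x b y hs htd
    exact hK C h2 h3 x b y (Star.of_fine hΔ' hs) (htd.mono (Gp_mono hΔ'))
  by_cases hE : Expv g B
  · obtain ⟨D, M, hD, hDM⟩ := hexpg A G hG g f B K hE
    obtain ⟨Δ', h1, h2, K', hK'⟩ := hexp A G hG f (N1 (HB g f B)) (U1 (HB g f B)) (normIn1 _)
      M D K hD Δ hΔ hinf
    refine ⟨Δ', h1, h2, K', ?_⟩
    intro x b y hs htd
    obtain ⟨h3, h4⟩ := hDM Δ' (Gp f Δ') (hlowK Δ' h1) x b y hs htd
    exact hK' x b y hs htd.thin.1 h3 h4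
  · obtain ⟨c, κ, r, hch⟩ := hling A G hG g f B K hE
    obtain ⟨Δ', h1, h2, K', hK'⟩ := hlin A G hG f (HB g f B) c κ r Δ hΔ hinf
    refine ⟨Δ', h1, h2, K', ?_⟩
    intro x b y hs htd
    obtain ⟨n, t, p, q, hc⟩ := hch Δ' (Gp f Δ') (hlowK Δ' h1) x b y hs htd
    refine hK' x b y hs htd.thin.1 ?_ n t p q hc
    rw [ev_append]
    exact htd.thin.2

end Pool.Agent.L0h34.CW
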