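import Pool.Agent.L0h34.CW.All

/-! Subgroups of co-context-free groups. -/

set_option autoImplicit false

namespace Pool.Agent.L0h34.CW

/-- Words in the generators of a subgroup. -/
theorem flatMap_ev {A B G : Type} [Group G] (f : A → G) (h : B → List A) (w : List B) :
    ev f (w.flatMap h) = ev (fun b => ev f (h b)) w := by
  induction w with
  | nil => rfl
  | cons b w ih => rw [List.flatMap_cons, ev_append, ih, ev_cons]

/-- A finitely generated group `H` which embeds in a group with context-free co-word problem has a
surjective evaluation of words over a finite alphabet with context-free co-word problem. -/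
theorem exists_alphabet {A G : Type} [Finite A] [Group G] (f : A → G)
    (hf : Function.Surjective (ev f))
    (hcf : Language.IsContextFree ({w : List A | ev f w ≠ 1} : Language A))
    (H : Type) [Group H] [Group.FG H] (φ : H →* G) (hφ : Function.Injective φ) :
    ∃ (n : ℕ) (f' : Fin n → H), Function.Surjective (ev f') ∧
      Language.IsContextFree ({w : List (Fin n) | ev f' w ≠ 1} : Language (Fin n)) := by
  classical
  obtain ⟨S, hS⟩ := Group.fg_def.1 (inferInstance : Group.FG H)
  -- letters for the generators and their inverses
  let e : Fin (Fintype.card (S × Bool)) ≃ S × Bool := (Fintype.equivFin _).symm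
  let f₁ : S × Bool → H := fun x => if x.2 then (x.1 : H) else (x.1 : H)⁻¹
  let f' : Fin (Fintype.card (S × Bool)) → H := fun i => f₁ (e i)
  have hflip : ∀ i, ∃ j, f' j = (f' i)⁻¹ := by
    intro i
    refine ⟨e.symm ((e i).1, !(e i).2), ?_⟩
    simp only [f', f₁, Equiv.apply_symm_apply]
    cases (e i).2 <;> simp
  choose flip hflip using hflip
  have hinv : ∀ u : List (Fin (Fintype.card (S × Bool))),
      ev f' (u.map flip).reverse = (ev f' u)⁻¹ := by
    intro u
    induction u with
    | nil => simp
    | cons a u ih =>
      rw [List.map_cons, List.reverse_cons, ev_append, ih, ev_singleton, hflip, ev_cons,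
        mul_inv_rev]
  have hsurj : Function.Surjective (ev f') := by
    intro x
    have hx : x ∈ Subgroup.closure (S : Set H) := by rw [hS]; exact Subgroup.mem_top x
    induction hx using Subgroup.closure_induction with
    | mem x hx =>
      refine ⟨[e.symm (⟨x, hx⟩, true)], ?_⟩
      simp [f', f₁]
    | one => exact ⟨[], rfl⟩
    | mul x y _ _ hx hy =>
      obtain ⟨u, rfl⟩ := hx
      obtain ⟨v, rfl⟩ := hy
      exact ⟨u ++ v, ev_append u v⟩
    | inv x _ hx =>
      obtain ⟨u, rfl⟩ := hx
      exact ⟨_, hinv u⟩
  refine ⟨_, f', hsurj, ?_⟩
  have hw : ∀ i, ∃ w : List A, ev f w = φ (f' i) := fun i => hf _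
  choose h hh using hw
  have h1 := subg A (Fin (Fintype.card (S × Bool))) G f h hcf
  have e1 : ({w : List (Fin (Fintype.card (S × Bool))) | ev f' w ≠ 1} :
      Language (Fin (Fintype.card (S × Bool)))) = {w | ev f (w.flatMap h) ≠ 1} := by
    apply Set.ext
    intro w
    change ev f' w ≠ 1 ↔ ev f (w.flatMap h) ≠ 1
    rw [flatMap_ev]
    have h2 : ev (fun b => ev f (h b)) w = φ (ev f' w) := by
      induction w with
      | nil => simp
      | cons b w ih => rw [ev_cons, ev_cons, map_mul, ih, hh]
    rw [h2, not_iff_not]
    constructor
    · intro h3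
      rw [h3, map_one]
    · intro h3
      exact hφ (by rw [h3, map_one])
  rw [e1]
  exact h1

/-- A finitely generated torsion group which embeds in a group with context-free co-word problem
is finite. -/
theorem finite_of_embeds {A G : Type} [Finite A] [Group G] (f : A → G)
    (hf : Function.Surjective (ev f))
    (hcf : Language.IsContextFree ({w : List A | ev f w ≠ 1} : Language A))
    (H : Type) [Group H] [Group.FG H] (φ : H →* G) (hφ : Function.Injective φ)
    (ht : Tors H) : Finite H := by
  obtain ⟨n, f', hf', hcf'⟩ := exists_alphabet f hf hcf H φ hφ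
  exact all_main (Fin n) H ht f' hf' hcf'

end Pool.Agent.L0h34.CW
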