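import Pool.Agent.L0h34.CW.Defs2

/-! Module UND of project CW. -/

set_option autoImplicit false

namespace Pool.Agent.L0h34.CW

theorem und (h1 : S_SUBG) (h2 : S_GRAM) (h3 : S_CYC) : S_UND := by
  intro A G _ _ f hf hcf x hx
  obtain ⟨w, hw⟩ := hf x
  obtain ⟨g, S, hS⟩ := h2 (Option A) _ (h1 A (Option A) G f
    (fun o => o.elim w (fun a => [a])) hcf)
  obtain ⟨K, hK⟩ := h3 (Option A) g
  choose iv hiv using fun a : A => hf (f a)⁻¹
  obtain ⟨c, hc⟩ : ∃ c : ℕ, ∀ a, (iv a).length ≤ c := by
    obtain ⟨c, hc⟩ := (Set.finite_range fun a => (iv a).length).bddAbove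
    exact ⟨c, fun a => hc ⟨a, rfl⟩⟩
  -- the inverse word
  have hinv : ∀ s : List A, ∃ s' : List A, ev f s' = (ev f s)⁻¹ ∧ s'.length ≤ c * s.length := by
    intro s
    induction s with
    | nil => exact ⟨[], by simp, by simp⟩
    | cons a s ih =>
      obtain ⟨s', h4, h5⟩ := ih
      refine ⟨s' ++ iv a, ?_, ?_⟩
      · rw [ev_append, h4, hiv, ev_cons, mul_inv_rev]
      · rw [List.length_append, List.length_cons]
        have := hc a
        rw [mul_add, mul_one]
        omega
  -- the values
  have hval : ∀ (i : ℕ) (s : List A),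
      ev f ((List.replicate i none ++ s.map some).flatMap
        (fun o : Option A => o.elim w (fun a => [a]))) = x ^ i * ev f s := by
    intro i s
    rw [List.flatMap_append, ev_append]
    have e1 : (List.replicate i (none : Option A)).flatMap (fun o => o.elim w (fun a => [a])) =
        (List.replicate i w).flatten := by
      rw [List.flatMap_def, List.map_replicate]
      rfl
    have e2 : (s.map (some : A → Option A)).flatMap (fun o => o.elim w (fun a => [a])) = s := by
      rw [List.flatMap_map]
      simp
    rw [e1, e2, ev_replicate_flatten, hw]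
  refine ⟨K * (c + 1) + K.factorial, fun k s hs => ?_⟩
  obtain ⟨s', hs1, hs2⟩ := hinv s
  have hkey : k ≤ K * (s'.length + 1) + K.factorial := by
    by_contra hk
    push Not at hk
    obtain ⟨i, hi⟩ : ∃ i, k = i + K.factorial := ⟨k - K.factorial, by omega⟩
    have hi2 : K * (s'.length + 1) < i := by omega
    have h4 : Dv g S (List.replicate i none ++ s'.map some) := by
      refine (hS _).1 ?_
      change ev f _ ≠ 1
      rw [hval, hs1, hs, hi]
      intro h5
      refine hx K.factorial (Nat.factorial_pos K) ?_
      rw [pow_add] at h5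
      have h6 : x ^ i = x ^ i * x ^ K.factorial := mul_inv_eq_one.1 h5
      exact (mul_eq_left.1 h6.symm)
    obtain ⟨d, hd1, hd2, hd3⟩ := hK S i none (s'.map some) h4 (by rwa [List.length_map])
    obtain ⟨n, hn⟩ : d ∣ K.factorial := Nat.dvd_factorial hd1 hd2
    have h5 := (hS _).2 (hd3 n)
    have h6 : ev f ((List.replicate (i + n * d) none ++ s'.map some).flatMap
        (fun o : Option A => o.elim w (fun a => [a]))) ≠ 1 := h5
    apply h6
    rw [hval, hs1, hs, hi, hn, mul_comm n d, mul_inv_cancel]
  refine hkey.trans ?_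
  have h7 : K * (s'.length + 1) ≤ K * (c * s.length + 1) := Nat.mul_le_mul_left _ (by omega)
  have h8 : K * (c * s.length + 1) ≤ K * ((c + 1) * (s.length + 1)) :=
    Nat.mul_le_mul_left _ (by nlinarith [Nat.zero_le c, Nat.zero_le s.length])
  have h9 : K.factorial ≤ K.factorial * (s.length + 1) := Nat.le_mul_of_pos_right _ (by omega)
  calc K * (s'.length + 1) + K.factorial
      ≤ K * ((c + 1) * (s.length + 1)) + K.factorial * (s.length + 1) := by omega
    _ = (K * (c + 1) + K.factorial) * (s.length + 1) := by ring

end Pool.Agent.L0h34.CW
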