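import Pool.Agent.L0h34.CW.Defs2

/-! Module UPUMP. -/

set_option autoImplicit false

namespace Pool.Agent.L0h34.CW

variable {A : Type} {g : BG A}

theorem pump_link {B : g.N} {x y i : ℕ} {a : A} (hl : Lk g B B (List.replicate x a) (List.replicate y a))
    (h : Dv g B (List.replicate i a)) (n : ℕ) : Dv g B (List.replicate (i + n * (x + y)) a) := by
  induction n with
  | zero => simpa using h
  | succ n ih =>
    have h1 := hl.dv ih
    rw [List.replicate_append_replicate, List.replicate_append_replicate] at h1
    have e : x + (i + n * (x + y)) + y = i + (n + 1) * (x + y) := by ring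
    rwa [e] at h1

theorem up_left {B C D : g.N} {i1 i2 K : ℕ} {a : A} (hp : g.pair B C D)
    (hv : Dv g D (List.replicate i2 a))
    (h : ∃ d, 1 ≤ d ∧ d ≤ K ∧ ∀ n : ℕ, Dv g C (List.replicate (i1 + n * d) a)) :
    ∃ d, 1 ≤ d ∧ d ≤ K ∧ ∀ n : ℕ, Dv g B (List.replicate (i1 + i2 + n * d) a) := by
  obtain ⟨d, h1, h2, h3⟩ := h
  refine ⟨d, h1, h2, fun n => ?_⟩
  have h4 := Dv.pair hp (h3 n) hv
  rw [List.replicate_append_replicate] at h4
  have e : i1 + n * d + i2 = i1 + i2 + n * d := by ring
  rwa [e] at h4

theorem up_right {B C D : g.N} {i1 i2 K : ℕ} {a : A} (hp : g.pair B C D)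
    (hu : Dv g C (List.replicate i1 a))
    (h : ∃ d, 1 ≤ d ∧ d ≤ K ∧ ∀ n : ℕ, Dv g D (List.replicate (i2 + n * d) a)) :
    ∃ d, 1 ≤ d ∧ d ≤ K ∧ ∀ n : ℕ, Dv g B (List.replicate (i1 + i2 + n * d) a) := by
  obtain ⟨d, h1, h2, h3⟩ := h
  refine ⟨d, h1, h2, fun n => ?_⟩
  have h4 := Dv.pair hp hu (h3 n)
  rw [List.replicate_append_replicate] at h4
  have e : i1 + (i2 + n * d) = i1 + i2 + n * d := by ring
  rwa [e] at h4

theorem up_aux (a : A) (Lm : ℕ) : ∀ (c : ℕ) (T : Finset g.N), T.card = c →
    ∀ (B : g.N) (w : List A), Dv g B w → ∀ i, w = List.replicate i a → 2 ^ c < i → i ≤ Lm →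
    (∀ C, C ∉ T → ∃ x y, Lk g C B (List.replicate x a) (List.replicate y a) ∧ 1 ≤ x + y ∧
      x + y + i ≤ Lm) →
    ∃ d, 1 ≤ d ∧ d ≤ Lm ∧ ∀ n : ℕ, Dv g B (List.replicate (i + n * d) a) := by
  classical
  intro c
  induction c with
  | zero =>
    intro T hT B w hw i hi h1 h2 hl
    have hB : B ∉ T := by
      rw [Finset.card_eq_zero.1 hT]
      simp
    obtain ⟨x, y, h3, h4, h5⟩ := hl B hB
    subst hi
    exact ⟨x + y, h4, by omega, fun n => pump_link h3 hw n⟩
  | succ c ih =>
    intro T hT B w hw
    induction hw with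
    | term h =>
      intro i hi h1 h2 hl
      have h3 := g.short _ _ h
      rw [hi, List.length_replicate] at h3
      have h4 : 1 ≤ 2 ^ (c + 1) := Nat.one_le_two_pow
      omega
    | @pair B C D u v hp hu hv ihu ihv =>
      intro i hi h1 h2 hl
      by_cases hB : B ∈ T
      · obtain ⟨e1, e2, e3⟩ := List.append_eq_replicate_iff.1 hi
        obtain ⟨i1, hi1⟩ : ∃ i1, i1 = u.length := ⟨_, rfl⟩
        obtain ⟨i2, hi2⟩ : ∃ i2, i2 = v.length := ⟨_, rfl⟩
        rw [← hi1] at e1 e2
        rw [← hi2] at e1 e3
        subst e1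
        have h6 : 2 ^ (c + 1) = 2 * 2 ^ c := by ring
        have hu' := hu
        have hv' := hv
        rw [e2] at hu'
        rw [e3] at hv'
        rcases Nat.eq_zero_or_pos i2 with h0 | h0
        · apply up_left hp hv'
          refine ihu i1 e2 (by omega) (by omega) fun C' hC' => ?_
          obtain ⟨x, y, g1, g2, g3⟩ := hl C' hC'
          have hlk : Lk g B C [] [] := by
            have := Lk.left hp (Lk.refl C) hv
            rwa [e3, h0] at this
          refine ⟨x, y, ?_, g2, by omega⟩
          simpa using g1.trans hlk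
        rcases Nat.eq_zero_or_pos i1 with h0' | h0'
        · apply up_right hp hu'
          refine ihv i2 e3 (by omega) (by omega) fun C' hC' => ?_
          obtain ⟨x, y, g1, g2, g3⟩ := hl C' hC'
          have hlk : Lk g B D [] [] := by
            have := Lk.right hp hu (Lk.refl D)
            rwa [e2, h0'] at this
          refine ⟨x, y, ?_, g2, by omega⟩
          simpa using g1.trans hlk
        have hT' : (T.erase B).card = c := by
          rw [Finset.card_erase_of_mem hB, hT]
          omega
        rcases le_total i2 i1 with h7 | h7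
        · apply up_left hp hv'
          refine ih (T.erase B) hT' C u hu i1 e2 (by omega) (by omega) fun C' hC' => ?_
          have hlk : Lk g B C [] (List.replicate i2 a) := by
            have := Lk.left hp (Lk.refl C) hv
            rwa [List.nil_append, e3] at this
          by_cases hCB : C' = B
          · subst hCB
            exact ⟨0, i2, hlk, by omega, by omega⟩
          · obtain ⟨x, y, g1, g2, g3⟩ := hl C' (fun h => hC' (Finset.mem_erase.2 ⟨hCB, h⟩))
            refine ⟨x, i2 + y, ?_, by omega, by omega⟩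
            have := g1.trans hlk
            rwa [List.append_nil, List.replicate_append_replicate] at this
        · apply up_right hp hu'
          refine ih (T.erase B) hT' D v hv i2 e3 (by omega) (by omega) fun C' hC' => ?_
          have hlk : Lk g B D (List.replicate i1 a) [] := by
            have := Lk.right hp hu (Lk.refl D)
            rwa [List.append_nil, e2] at this
          by_cases hCB : C' = B
          · subst hCB
            exact ⟨i1, 0, hlk, by omega, by omega⟩
          · obtain ⟨x, y, g1, g2, g3⟩ := hl C' (fun h => hC' (Finset.mem_erase.2 ⟨hCB, h⟩))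
            refine ⟨x + i1, y, ?_, by omega, by omega⟩
            have := g1.trans hlk
            rwa [List.nil_append, List.replicate_append_replicate] at this
      · obtain ⟨x, y, h3, h4, h5⟩ := hl B hB
        have hw : Dv g B (List.replicate i a) := hi ▸ Dv.pair hp hu hv
        exact ⟨x + y, h4, by omega, fun n => pump_link h3 hw n⟩

theorem upump : S_UPUMP := by
  classical
  intro A g
  haveI := g.fin
  haveI := Fintype.ofFinite g.N
  obtain ⟨ν, hν⟩ : ∃ ν, ν = (Finset.univ : Finset g.N).card := ⟨_, rfl⟩
  refine ⟨2 * 2 ^ ν, ?_⟩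
  have key : ∀ (B : g.N) (w : List A), Dv g B w → ∀ (i : ℕ) (a : A), w = List.replicate i a →
      2 ^ ν < i → ∃ d, 1 ≤ d ∧ d ≤ 2 * 2 ^ ν ∧ ∀ n : ℕ, Dv g B (List.replicate (i + n * d) a) := by
    intro B w hw
    induction hw with
    | term h =>
      intro i a hi h1
      have h3 := g.short _ _ h
      rw [hi, List.length_replicate] at h3
      have h4 : 1 ≤ 2 ^ ν := Nat.one_le_two_pow
      omega
    | @pair B C D u v hp hu hv ihu ihv =>
      intro i a hi h1
      rcases le_or_gt i (2 * 2 ^ ν) with h2 | h2
      · exact up_aux a (2 * 2 ^ ν) ν Finset.univ hν.symm B (u ++ v) (Dv.pair hp hu hv) i hi h1 h2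
          fun C' hC' => absurd (Finset.mem_univ C') hC'
      · obtain ⟨e1, e2, e3⟩ := List.append_eq_replicate_iff.1 hi
        have hu' := hu
        have hv' := hv
        rw [e2] at hu'
        rw [e3] at hv'
        rcases lt_or_ge (2 ^ ν) u.length with h3 | h3
        · have := up_left hp hv' (ihu u.length a e2 h3)
          rwa [e1] at this
        · have := up_right hp hu' (ihv v.length a e3 (by omega))
          rwa [e1] at this
  intro B i a h hi
  exact key B _ h i a rfl (by omega)

end Pool.Agent.L0h34.CW
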